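import Pool.Agent.Helper20.NU.TMap

/-!
NU-14. If `(1, 0), (-1, 0) ∈ T` then `(b, 1), (-b, -1) ∈ T` for some integer `b`.

PROOF of `rows`: there are integers `x` with `(x, 1) ∈ T` and `x'` with `(x', -1) ∈ T`. By `neg` for
`c = (0, -1)` there is `t = (X, Y) ∈ T`, `Y ≥ 1`. If `Y = 1` fine. If `Y ≥ 2`: the triangle
`(-1,0), (1,0), (X,Y)` meets the row `1` in the interval
`[(X - (Y-1))/Y, (X + (Y-1))/Y]` of length `2 (Y-1)/Y ≥ 1`, which contains an integer `x`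
(e.g. `x = ⌊(X + Y - 1)/Y⌋`): `TyP.tri` with `k = 2 Y`. Symmetric for the row `-1`.

PROOF of `fl`: if `(X, Y) ∈ T`, `(X', -Y') ∈ T`, `Y, Y' ≥ 1`, and `r` is the largest integer with
`(r, 1) ∈ T`, then `(r + 1) (Y + Y') > X (Y' + 1) + X' (Y - 1)`. (The segment crosses the row 1 at
`α = (X (Y' + 1) + X' (Y - 1)) / (Y + Y')`; if `r + 1 ≤ α` then `r + 1` is between `r` and `α`,
both in row 1, so `(r + 1, 1) ∈ T` by `sat`, contradiction.) Symmetric for the row `-1`: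
`(r' + 1) (Y + Y') > X' (Y + 1) + X (Y' - 1)`, `r'` the largest integer with `(r', -1) ∈ T`.

PROOF of `c2r`: there are `(x, 1), (x', -1) ∈ T` with `x + x' ≥ 0`. Let `r`, `r'` be the largest
integers with `(r, 1), (r', -1) ∈ T` (finite nonempty sets) and suppose `r + r' ≤ -1`. Adding the
two inequalities of `fl`: `(r + r' + 2) (Y + Y') > 2 (X Y' + X' Y)`, so
`2 (X Y' + X' Y) < Y + Y'` for all `(X, Y), (X', -Y') ∈ T` with `Y, Y' ≥ 1`. Let `ρ ≥ 1` be the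
largest integer with `(ρ, 0) ∈ T`. Then `X Y' + X' Y < ρ (Y + Y')`, i.e.
`(X - ρ)/Y < (ρ - X')/Y'`. Both families are finite and nonempty, so there is a real `λ` with
`(X - ρ)/Y < λ < (ρ - X')/Y'` for all of them (take `λ` between the maximum and the minimum). Apply
`vert` to `c = (-1, λ)`: the only point of `T` where it is minimal is `(ρ, 0)`
(`-X + λ Y > -ρ` for `Y ≥ 1`, `-X' - λ Y' > -ρ`, and `-x > -ρ` for `(x, 0) ∈ T`, `x ≠ ρ`). So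
`q = (ρ, 0)`. The points of `T` with positive / negative second coordinate show that one of
`d₁, d₂` has a positive second coordinate and the other a negative one; by symmetry
`d₁ = (-x₁, y₁)`, `d₂ = (-x₂, -y₂)`, `y₁, y₂ ≥ 1`. Let `e = x₁ y₂ + x₂ y₁`. `(-1, 0) = q + s d₁ +
t d₂` gives `s y₁ = t y₂`, `s x₁ + t x₂ = ρ + 1 > 0`, so `s > 0` and `s e = (ρ + 1) y₂`: `e > 0`.
`m₁ (-x₁) + m₂ y₁ = 1`, `-m₁ x₂ - m₂ y₂ = 1` give `-m₁ e = y₁ + y₂`, so `e ≤ y₁ + y₂`.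
The segment from `q` to
`q + d₁` crosses row 1 at `ρ - x₁ / y₁`, and as in the proof of `fl`: `(r + 1) y₁ > ρ y₁ - x₁`,
`(r' + 1) y₂ > ρ y₂ - x₂`. As integers: `y₁ (ρ - r) ≤ x₁ + y₁ - 1`, `y₂ (ρ - r') ≤ x₂ + y₂ - 1`.
Multiply by `y₂`, `y₁` and add: `y₁ y₂ (2 ρ - r - r') ≤ e + 2 y₁ y₂ - y₁ - y₂ ≤ 2 y₁ y₂`, so
`2 ρ - r - r' ≤ 2`, `r + r' ≥ 2 ρ - 2 ≥ 0`. Contradiction.

PROOF of `c2`. `c2r` for `T` gives `(x, 1), (x', -1) ∈ T`, `x + x' ≥ 0`; `c2r` for the image of `T`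
under `(x, y) ↦ (-x, y)` (`TyP.map` with `α = -1, β = 0, γ = 0, δ = 1`) gives
`(l, 1), (l', -1) ∈ T`, `l + l' ≤ 0`. The rows of `T` are intervals (`TyP.seg`). Take
`b = max (min l x) (-(max l' x'))`: `min l x ≤ b ≤ max l x` and `min l' x' ≤ -b ≤ max l' x'`,
because `min l x + min l' x' ≤ 0 ≤ max l x + max l' x'`.
-/

namespace Helper20.NU

open Matrix Set Helper31.Ewald

/-- an integer point of `T` of height one -/
theorem row_up {T : Finset (ℤ × ℤ)} (hT : TyP T) (h1 : ((1, 0) : ℤ × ℤ) ∈ T)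
    (h2 : ((-1, 0) : ℤ × ℤ) ∈ T) : ∃ x : ℤ, (x, (1 : ℤ)) ∈ T := by
  obtain ⟨t, ht, ht2⟩ := hT.neg (0, -1) (by simp)
  have hY : 0 < t.2 := by
    have : (0 : ℝ) < t.2 := by simpa using ht2
    exact_mod_cast this
  refine ⟨(t.1 + t.2 - 1) / t.2, ?_⟩
  set x := (t.1 + t.2 - 1) / t.2 with hx
  have hx1 : t.2 * x ≤ t.1 + t.2 - 1 := by
    have := Int.mul_ediv_self_le (x := t.1 + t.2 - 1) (k := t.2) hY.ne'
    exact this
  have hx2 : t.1 + t.2 - 1 < t.2 * x + t.2 := by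
    have := Int.lt_mul_ediv_self_add (x := t.1 + t.2 - 1) (k := t.2) hY
    exact this
  refine hT.tri h2 h1 ht (i := t.2 - 1 - t.2 * x + t.1) (j := t.2 - 1 + t.2 * x - t.1) (l := 2)
    (k := 2 * t.2) (by omega) (by omega) (by norm_num) (by omega) (by ring) ?_ ?_
  · simp only
    ring
  · simp only
    ring

/-- an integer point of `T` of height minus one -/
theorem row_dn {T : Finset (ℤ × ℤ)} (hT : TyP T) (h1 : ((1, 0) : ℤ × ℤ) ∈ T)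
    (h2 : ((-1, 0) : ℤ × ℤ) ∈ T) : ∃ x : ℤ, (x, (-1 : ℤ)) ∈ T := by
  obtain ⟨t, ht, ht2⟩ := hT.neg (0, 1) (by simp)
  have hY : t.2 < 0 := by
    have : (t.2 : ℝ) < 0 := by simpa using ht2
    exact_mod_cast this
  obtain ⟨Y, hYt⟩ : ∃ Y : ℤ, t.2 = -Y := ⟨-t.2, by ring⟩
  have hY0 : 0 < Y := by omega
  refine ⟨(t.1 + Y - 1) / Y, ?_⟩
  set x := (t.1 + Y - 1) / Y with hx
  have hx1 : Y * x ≤ t.1 + Y - 1 := Int.mul_ediv_self_le (x := t.1 + Y - 1) (k := Y) hY0.ne'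
  have hx2 : t.1 + Y - 1 < Y * x + Y := Int.lt_mul_ediv_self_add (x := t.1 + Y - 1) (k := Y) hY0
  refine hT.tri h2 h1 ht (i := Y - 1 - Y * x + t.1) (j := Y - 1 + Y * x - t.1) (l := 2)
    (k := 2 * Y) (by omega) (by omega) (by norm_num) (by omega) (by ring) ?_ ?_
  · simp only
    ring
  · simp only [hYt]
    ring

/-- `r` is the right end of the row one -/
theorem fl_up {T : Finset (ℤ × ℤ)} (hT : TyP T) {r : ℤ} (hr : (r, (1 : ℤ)) ∈ T)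
    (hmax : ∀ x : ℤ, (x, (1 : ℤ)) ∈ T → x ≤ r) {X Y X' Y' : ℤ} (h : (X, Y) ∈ T)
    (h' : (X', -Y') ∈ T) (hY : 1 ≤ Y) (hY' : 0 ≤ Y') :
    X * (Y' + 1) + X' * (Y - 1) < (r + 1) * (Y + Y') := by
  by_contra hcon
  push Not at hcon
  have hmem : (r + 1, (1 : ℤ)) ∈ T := by
    refine hT.tri hr h h' (i := X * (Y' + 1) + X' * (Y - 1) - r * (Y + Y') - (Y + Y'))
      (j := Y' + 1) (l := Y - 1) (k := X * (Y' + 1) + X' * (Y - 1) - r * (Y + Y')) (by linarith)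
      (by omega) (by omega) (by nlinarith) (by ring) ?_ ?_
    · simp only
      ring
    · simp only
      ring
  have := hmax _ hmem
  omega

/-- `r` is the right end of the row minus one -/
theorem fl_dn {T : Finset (ℤ × ℤ)} (hT : TyP T) {r : ℤ} (hr : (r, (-1 : ℤ)) ∈ T)
    (hmax : ∀ x : ℤ, (x, (-1 : ℤ)) ∈ T → x ≤ r) {X Y X' Y' : ℤ} (h : (X, Y) ∈ T)
    (h' : (X', -Y') ∈ T) (hY : 0 ≤ Y) (hY' : 1 ≤ Y') :
    X' * (Y + 1) + X * (Y' - 1) < (r + 1) * (Y + Y') := by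
  by_contra hcon
  push Not at hcon
  have hmem : (r + 1, (-1 : ℤ)) ∈ T := by
    refine hT.tri hr h' h (i := X' * (Y + 1) + X * (Y' - 1) - r * (Y + Y') - (Y + Y'))
      (j := Y + 1) (l := Y' - 1) (k := X' * (Y + 1) + X * (Y' - 1) - r * (Y + Y')) (by linarith)
      (by omega) (by omega) (by nlinarith) (by ring) ?_ ?_
    · simp only
      ring
    · simp only
      ring
  have := hmax _ hmem
  omega

/-- the right end `(ρ, 0)` is not a vertex of `T` with steep edges -/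
theorem c2_core {T : Finset (ℤ × ℤ)} (hT : TyP T) (h2 : ((-1, 0) : ℤ × ℤ) ∈ T) {r r' ρ : ℤ}
    (hr : (r, (1 : ℤ)) ∈ T) (hmax : ∀ x : ℤ, (x, (1 : ℤ)) ∈ T → x ≤ r)
    (hr' : (r', (-1 : ℤ)) ∈ T) (hmax' : ∀ x : ℤ, (x, (-1 : ℤ)) ∈ T → x ≤ r')
    (hρ : (ρ, (0 : ℤ)) ∈ T) (hρ1 : 1 ≤ ρ) (hneg : r + r' ≤ -1) {d₁ d₂ m : ℤ × ℤ}
    (hd1 : (ρ, (0 : ℤ)) + d₁ ∈ T) (hd2 : (ρ, (0 : ℤ)) + d₂ ∈ T)
    (hm1 : m.1 * d₁.1 + m.2 * d₁.2 = 1) (hm2 : m.1 * d₂.1 + m.2 * d₂.2 = 1)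
    (hc : ∀ t ∈ T, ∃ s r : ℝ, 0 ≤ s ∧ 0 ≤ r ∧ (t.1 : ℝ) = ρ + s * d₁.1 + r * d₂.1 ∧
        (t.2 : ℝ) = s * d₁.2 + r * d₂.2)
    (hp : 0 < d₁.2) (hn : d₂.2 < 0) : False := by
  obtain ⟨x₁, hx₁⟩ : ∃ x : ℤ, d₁.1 = -x := ⟨-d₁.1, by ring⟩
  obtain ⟨x₂, hx₂⟩ : ∃ x : ℤ, d₂.1 = -x := ⟨-d₂.1, by ring⟩
  obtain ⟨y₂, hy₂⟩ : ∃ y : ℤ, d₂.2 = -y := ⟨-d₂.2, by ring⟩
  set y₁ := d₁.2 with hy₁
  have hy2 : 0 < y₂ := by omega
  rw [hx₁] at hm1
  rw [hx₂, hy₂] at hm2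
  set e := x₁ * y₂ + x₂ * y₁ with he
  have he0 : 0 < e := by
    obtain ⟨s, t, hs, ht, e1, e2⟩ := hc _ h2
    simp only [Int.cast_neg, Int.cast_one, Int.cast_zero, hx₁, hx₂, hy₂] at e1 e2
    have hy2R : (0 : ℝ) < y₂ := by exact_mod_cast hy2
    have hρR : (1 : ℝ) ≤ ρ := by exact_mod_cast hρ1
    have h3 : t * y₂ = s * y₁ := by linarith
    have h4 : s * ((x₁ : ℝ) * y₂ + x₂ * y₁) = (ρ + 1) * y₂ := by
      have : s * x₁ + t * x₂ = ρ + 1 := by linarith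
      calc s * ((x₁ : ℝ) * y₂ + x₂ * y₁) = s * x₁ * y₂ + x₂ * (s * y₁) := by ring
        _ = s * x₁ * y₂ + x₂ * (t * y₂) := by rw [h3]
        _ = (s * x₁ + t * x₂) * y₂ := by ring
        _ = _ := by rw [this]
    have h5 : 0 < s * ((x₁ : ℝ) * y₂ + x₂ * y₁) := by
      rw [h4]
      positivity
    have h6 : (0 : ℝ) < (x₁ : ℝ) * y₂ + x₂ * y₁ := by
      by_contra hcon
      push Not at hcon
      have := mul_nonpos_of_nonneg_of_nonpos hs hcon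
      linarith
    have h7 : (0 : ℝ) < ((e : ℤ) : ℝ) := by
      rw [he]
      push_cast
      exact h6
    exact_mod_cast h7
  have hme : -m.1 * e = y₁ + y₂ := by
    rw [he]
    linear_combination y₂ * hm1 + y₁ * hm2
  have hm : 1 ≤ -m.1 := by
    by_contra hcon
    have h3 : -m.1 ≤ 0 := by omega
    have h4 : -m.1 * e ≤ 0 := mul_nonpos_of_nonpos_of_nonneg h3 he0.le
    omega
  have hle : e ≤ y₁ + y₂ := by
    rw [← hme]
    nlinarith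
  have e1 : ((ρ - x₁, y₁) : ℤ × ℤ) ∈ T := by
    convert hd1 using 1
    ext <;> simp [hx₁, hy₁]
    ring
  have e2 : ((ρ - x₂, -y₂) : ℤ × ℤ) ∈ T := by
    convert hd2 using 1
    ext <;> simp [hx₂, hy₂]
    ring
  have hρ' : ((ρ, -0) : ℤ × ℤ) ∈ T := by simpa using hρ
  have f1 := fl_up hT hr hmax e1 hρ' (by omega) le_rfl
  have f2 := fl_dn hT hr' hmax' hρ e2 le_rfl (by omega)
  have g1 : y₁ * (ρ - r) ≤ x₁ + y₁ - 1 := by
    have : (ρ - x₁) * (0 + 1) + ρ * (y₁ - 1) + 1 ≤ (r + 1) * (y₁ + 0) := f1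
    linarith
  have g2 : y₂ * (ρ - r') ≤ x₂ + y₂ - 1 := by
    have : (ρ - x₂) * (0 + 1) + ρ * (y₂ - 1) + 1 ≤ (r' + 1) * (0 + y₂) := f2
    linarith
  have g3 : y₂ * (y₁ * (ρ - r)) ≤ y₂ * (x₁ + y₁ - 1) := mul_le_mul_of_nonneg_left g1 hy2.le
  have g4 : y₁ * (y₂ * (ρ - r')) ≤ y₁ * (x₂ + y₂ - 1) := mul_le_mul_of_nonneg_left g2 hp.le
  have g5 : (y₁ * y₂) * (2 * ρ - r - r') ≤ 2 * (y₁ * y₂) := by
    have : (y₁ * y₂) * (2 * ρ - r - r') ≤ e + 2 * (y₁ * y₂) - y₁ - y₂ := by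
      rw [he]
      linarith
    linarith
  have g6 : 0 < y₁ * y₂ := mul_pos hp hy2
  have g7 : 3 ≤ 2 * ρ - r - r' := by omega
  nlinarith

theorem c2r {T : Finset (ℤ × ℤ)} (hT : TyP T) (h1 : ((1, 0) : ℤ × ℤ) ∈ T)
    (h2 : ((-1, 0) : ℤ × ℤ) ∈ T) :
    ∃ x x' : ℤ, (x, (1 : ℤ)) ∈ T ∧ (x', (-1 : ℤ)) ∈ T ∧ 0 ≤ x + x' := by
  classical
  obtain ⟨r, hr, hmax⟩ : ∃ r : ℤ, (r, (1 : ℤ)) ∈ T ∧ ∀ x : ℤ, (x, (1 : ℤ)) ∈ T → x ≤ r := by
    obtain ⟨x, hx⟩ := row_up hT h1 h2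
    obtain ⟨t, ht, ht2⟩ := Finset.exists_max_image (T.filter fun t => t.2 = 1) (fun t => t.1)
      ⟨(x, 1), Finset.mem_filter.2 ⟨hx, rfl⟩⟩
    rw [Finset.mem_filter] at ht
    refine ⟨t.1, ?_, fun x' hx' => ht2 (x', 1) (Finset.mem_filter.2 ⟨hx', rfl⟩)⟩
    rw [← ht.2]
    exact ht.1
  obtain ⟨r', hr', hmax'⟩ : ∃ r : ℤ, (r, (-1 : ℤ)) ∈ T ∧
      ∀ x : ℤ, (x, (-1 : ℤ)) ∈ T → x ≤ r := by
    obtain ⟨x, hx⟩ := row_dn hT h1 h2
    obtain ⟨t, ht, ht2⟩ := Finset.exists_max_image (T.filter fun t => t.2 = -1) (fun t => t.1)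
      ⟨(x, -1), Finset.mem_filter.2 ⟨hx, rfl⟩⟩
    rw [Finset.mem_filter] at ht
    refine ⟨t.1, ?_, fun x' hx' => ht2 (x', -1) (Finset.mem_filter.2 ⟨hx', rfl⟩)⟩
    rw [← ht.2]
    exact ht.1
  obtain ⟨ρ, hρ, hmaxρ⟩ : ∃ r : ℤ, (r, (0 : ℤ)) ∈ T ∧ ∀ x : ℤ, (x, (0 : ℤ)) ∈ T → x ≤ r := by
    obtain ⟨t, ht, ht2⟩ := Finset.exists_max_image (T.filter fun t => t.2 = 0) (fun t => t.1)
      ⟨(1, 0), Finset.mem_filter.2 ⟨h1, rfl⟩⟩
    rw [Finset.mem_filter] at ht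
    refine ⟨t.1, ?_, fun x' hx' => ht2 (x', 0) (Finset.mem_filter.2 ⟨hx', rfl⟩)⟩
    rw [← ht.2]
    exact ht.1
  have hρ1 : 1 ≤ ρ := hmaxρ 1 h1
  by_contra hcon
  push Not at hcon
  have hneg : r + r' ≤ -1 := by
    have := hcon r r' hr hr'
    omega
  have hcross : ∀ t ∈ T, ∀ t' ∈ T, 0 < t.2 → t'.2 < 0 →
      2 * (t.1 * (-t'.2) + t'.1 * t.2) < t.2 + -t'.2 := by
    intro t ht t' ht' hY hY'
    have e1 : (t.1, t.2) ∈ T := ht
    have e2 : (t'.1, -(-t'.2)) ∈ T := by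
      rw [neg_neg]
      exact ht'
    have f1 := fl_up hT hr hmax e1 e2 (by omega) (by omega)
    have f2 := fl_dn hT hr' hmax' e1 e2 (by omega) (by omega)
    have f3 : (r + r' + 2) * (t.2 + -t'.2) ≤ 1 * (t.2 + -t'.2) :=
      mul_le_mul_of_nonneg_right (by omega) (by omega)
    linarith
  obtain ⟨lam, hlu, hld⟩ : ∃ lam : ℝ, (∀ t ∈ T, 0 < t.2 → (t.1 : ℝ) - ρ < lam * t.2) ∧
      ∀ t ∈ T, t.2 < 0 → lam * (-t.2) < ρ - t.1 := by
    obtain ⟨ta, hta, hta2⟩ := Finset.exists_max_image (T.filter fun t => 0 < t.2)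
      (fun t => ((t.1 : ℝ) - ρ) / t.2) ⟨(r, 1), Finset.mem_filter.2 ⟨hr, by norm_num⟩⟩
    obtain ⟨tb, htb, htb2⟩ := Finset.exists_min_image (T.filter fun t => t.2 < 0)
      (fun t => ((ρ : ℝ) - t.1) / (-t.2)) ⟨(r', -1), Finset.mem_filter.2 ⟨hr', by norm_num⟩⟩
    rw [Finset.mem_filter] at hta htb
    have hA : (0 : ℝ) < ta.2 := by exact_mod_cast hta.2
    have hB : (0 : ℝ) < -tb.2 := by
      have : (tb.2 : ℝ) < 0 := by exact_mod_cast htb.2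
      linarith
    have hlt : ((ta.1 : ℝ) - ρ) / ta.2 < ((ρ : ℝ) - tb.1) / (-tb.2) := by
      rw [div_lt_div_iff₀ hA hB]
      have h3 := hcross ta hta.1 tb htb.1 hta.2 htb.2
      have h4 : ((2 * (ta.1 * (-tb.2) + tb.1 * ta.2) : ℤ) : ℝ) < ((ta.2 + -tb.2 : ℤ) : ℝ) := by
        exact_mod_cast h3
      push_cast at h4
      have hρR : (1 : ℝ) ≤ ρ := by exact_mod_cast hρ1
      nlinarith
    refine ⟨(((ta.1 : ℝ) - ρ) / ta.2 + ((ρ : ℝ) - tb.1) / (-tb.2)) / 2, fun t ht hY => ?_,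
      fun t ht hY => ?_⟩
    · have h3 := hta2 t (Finset.mem_filter.2 ⟨ht, hY⟩)
      have hYR : (0 : ℝ) < t.2 := by exact_mod_cast hY
      rw [← div_lt_iff₀ hYR]
      linarith
    · have h3 := htb2 t (Finset.mem_filter.2 ⟨ht, hY⟩)
      have hYR : (0 : ℝ) < -t.2 := by
        have : (t.2 : ℝ) < 0 := by exact_mod_cast hY
        linarith
      rw [← lt_div_iff₀ hYR]
      linarith
  obtain ⟨q, hq, hqmin, d₁, d₂, m, hd1, hd2, hm1, hm2, hc⟩ := hT.vert (-1, lam)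
  have hq0 : q = (ρ, 0) := by
    have h3 := hqmin _ hρ
    simp only [neg_mul, one_mul, Int.cast_zero, mul_zero, add_zero] at h3
    rcases lt_trichotomy q.2 0 with h | h | h
    · have h4 := hld q hq h
      exfalso
      linarith
    · rw [h, Int.cast_zero, mul_zero, add_zero] at h3
      have h4 : (ρ : ℝ) ≤ q.1 := by linarith
      have h5 : ρ ≤ q.1 := by exact_mod_cast h4
      have h6 : q.1 ≤ ρ := hmaxρ q.1 (by rw [← h]; exact hq)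
      ext
      · exact le_antisymm h6 h5
      · exact h
    · have h4 := hlu q hq h
      exfalso
      linarith
  subst hq0
  have hc' : ∀ t ∈ T, ∃ s r : ℝ, 0 ≤ s ∧ 0 ≤ r ∧ (t.1 : ℝ) = ρ + s * d₁.1 + r * d₂.1 ∧
        (t.2 : ℝ) = s * d₁.2 + r * d₂.2 := by
    intro t ht
    obtain ⟨s, u, h3, h4, h5, h6⟩ := hc t ht
    refine ⟨s, u, h3, h4, h5, ?_⟩
    rw [h6]
    simp
  have hpos : 0 < d₁.2 ∨ 0 < d₂.2 := by
    by_contra hno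
    push Not at hno
    obtain ⟨s, u, h3, h4, h5, h6⟩ := hc' _ hr
    have h7 : (d₁.2 : ℝ) ≤ 0 := by exact_mod_cast hno.1
    have h8 : (d₂.2 : ℝ) ≤ 0 := by exact_mod_cast hno.2
    have h9 := mul_nonpos_of_nonneg_of_nonpos h3 h7
    have h10 := mul_nonpos_of_nonneg_of_nonpos h4 h8
    simp only [Int.cast_one] at h6
    linarith
  have hng : d₁.2 < 0 ∨ d₂.2 < 0 := by
    by_contra hno
    push Not at hno
    obtain ⟨s, u, h3, h4, h5, h6⟩ := hc' _ hr'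
    have h7 : (0 : ℝ) ≤ d₁.2 := by exact_mod_cast hno.1
    have h8 : (0 : ℝ) ≤ d₂.2 := by exact_mod_cast hno.2
    have h9 := mul_nonneg h3 h7
    have h10 := mul_nonneg h4 h8
    simp only [Int.cast_neg, Int.cast_one] at h6
    linarith
  rcases hpos with hp | hp
  · have hn : d₂.2 < 0 := by omega
    exact c2_core hT h2 hr hmax hr' hmax' hρ hρ1 hneg hd1 hd2 hm1 hm2 hc' hp hn
  · have hn : d₁.2 < 0 := by omega
    refine c2_core hT h2 hr hmax hr' hmax' hρ hρ1 hneg hd2 hd1 hm2 hm1 ?_ hp hn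
    intro t ht
    obtain ⟨s, u, h3, h4, h5, h6⟩ := hc' t ht
    exact ⟨u, s, h4, h3, by rw [h5]; ring, by rw [h6]; ring⟩

/-- the rows of `T` are intervals -/
theorem row_mem {T : Finset (ℤ × ℤ)} (hT : TyP T) {h l r b : ℤ} (hl : (l, h) ∈ T)
    (hr : (r, h) ∈ T) (h1 : l ≤ b) (h2 : b ≤ r) : (b, h) ∈ T := by
  rcases eq_or_lt_of_le (h1.trans h2) with h3 | h3
  · have : b = l := by omega
    rw [this]
    exact hl
  · refine hT.seg hl hr (j := b - l) (k := r - l) (by omega) (by omega) (by omega) ?_ ?_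
    · simp only
      ring
    · simp only
      ring

theorem c2 {T : Finset (ℤ × ℤ)} (hT : TyP T) (h1 : ((1, 0) : ℤ × ℤ) ∈ T)
    (h2 : ((-1, 0) : ℤ × ℤ) ∈ T) : ∃ b : ℤ, (b, (1 : ℤ)) ∈ T ∧ (-b, (-1 : ℤ)) ∈ T := by
  classical
  obtain ⟨x, x', hx, hx', hxx⟩ := c2r hT h1 h2
  obtain ⟨l, l', hl, hl', hll⟩ : ∃ l l' : ℤ, (l, (1 : ℤ)) ∈ T ∧ (l', (-1 : ℤ)) ∈ T ∧
      l + l' ≤ 0 := by
    have hT' := hT.map (-1) 0 0 1 (by norm_num)
    obtain ⟨y, y', hy, hy', hyy⟩ := c2r hT'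
      (Finset.mem_image.2 ⟨(-1, 0), h2, by simp⟩) (Finset.mem_image.2 ⟨(1, 0), h1, by simp⟩)
    rw [Finset.mem_image] at hy hy'
    obtain ⟨t, ht, ht2⟩ := hy
    obtain ⟨t', ht', ht2'⟩ := hy'
    simp only [neg_mul, one_mul, zero_mul, add_zero, zero_add, Prod.mk.injEq] at ht2 ht2'
    refine ⟨t.1, t'.1, ?_, ?_, by omega⟩
    · rw [← ht2.2]
      exact ht
    · rw [← ht2'.2]
      exact ht'
  have hrow1 : ∀ b, min l x ≤ b → b ≤ max l x → (b, (1 : ℤ)) ∈ T := by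
    intro b hb1 hb2
    rcases le_total l x with h | h
    · rw [min_eq_left h] at hb1
      rw [max_eq_right h] at hb2
      exact row_mem hT hl hx hb1 hb2
    · rw [min_eq_right h] at hb1
      rw [max_eq_left h] at hb2
      exact row_mem hT hx hl hb1 hb2
  have hrow2 : ∀ b, min l' x' ≤ b → b ≤ max l' x' → (b, (-1 : ℤ)) ∈ T := by
    intro b hb1 hb2
    rcases le_total l' x' with h | h
    · rw [min_eq_left h] at hb1
      rw [max_eq_right h] at hb2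
      exact row_mem hT hl' hx' hb1 hb2
    · rw [min_eq_right h] at hb1
      rw [max_eq_left h] at hb2
      exact row_mem hT hx' hl' hb1 hb2
  refine ⟨max (min l x) (-(max l' x')), hrow1 _ ?_ ?_, hrow2 _ ?_ ?_⟩ <;> omega

end Helper20.NU
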