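import Pool.Agent.Helper20.NU.C1b
import Pool.Agent.Helper20.NU.C2

/-!
NU-15. The slice contains, together with its negative, a basis of its lattice.

PROOF. `c1` gives `t ∈ T`, `-t ∈ T`, `t ≠ 0`; write `t = k u`, `k ≥ 1` the gcd of the coordinates,
`u` primitive; `u, -u ∈ T` (`TyP.seg` between `0` and `± t`). Bezout: `w₀` with
`u₁ w₂ - u₂ w₁ = 1` (`w = w₀`). `TyP.map` with `α = w₂, β = -w₁, γ = -u₂, δ = u₁` maps `u` to
`(1, 0)` and `w₀` to `(0, 1)`. `c2` for the image gives `b` with `(b, 1), (-b, -1)` in the image,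
i.e. `± (b u + w₀) ∈ T` (preimage of `(b, 1)`: `b u + w₀`). `det u (b u + w₀) = 1`.
-/

namespace Helper20.NU

open Matrix Set Helper31.Ewald

theorem sliceP {T : Finset (ℤ × ℤ)} (hT : TyP T) :
    ∃ u ∈ T, ∃ w ∈ T, -u ∈ T ∧ -w ∈ T ∧ u.1 * w.2 - u.2 * w.1 = 1 := by
  obtain ⟨t, ht, htn, ht0⟩ := c1 hT
  obtain ⟨k, hk⟩ : ∃ k : ℤ, k = (Int.gcd t.1 t.2 : ℤ) := ⟨_, rfl⟩
  have hkpos : 0 < k := by
    rw [hk]
    have h1 : Int.gcd t.1 t.2 ≠ 0 := by
      intro h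
      rw [Int.gcd_eq_zero_iff] at h
      exact ht0 (Prod.ext h.1 h.2)
    exact_mod_cast Nat.pos_of_ne_zero h1
  obtain ⟨a, ha⟩ : k ∣ t.1 := by rw [hk]; exact Int.gcd_dvd_left ..
  obtain ⟨b, hb⟩ : k ∣ t.2 := by rw [hk]; exact Int.gcd_dvd_right ..
  obtain ⟨w₁, w₂, hw⟩ : ∃ w₁ w₂ : ℤ, a * w₂ - b * w₁ = 1 := by
    obtain ⟨A, B, hAB⟩ : ∃ A B : ℤ, k = t.1 * A + t.2 * B :=
      ⟨_, _, by rw [hk]; exact Int.gcd_eq_gcd_ab t.1 t.2⟩
    refine ⟨-B, A, ?_⟩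
    rw [ha, hb] at hAB
    have h1 : k * (a * A - b * -B) = k * 1 := by linear_combination -hAB
    exact mul_left_cancel₀ hkpos.ne' h1
  have hu : ((a, b) : ℤ × ℤ) ∈ T :=
    hT.seg hT.zero ht (j := 1) (k := k) (by norm_num) (by omega) hkpos
      (by change k * a = (k - 1) * 0 + 1 * t.1; rw [ha]; ring)
      (by change k * b = (k - 1) * 0 + 1 * t.2; rw [hb]; ring)
  have hu' : ((-a, -b) : ℤ × ℤ) ∈ T :=
    hT.seg hT.zero htn (j := 1) (k := k) (by norm_num) (by omega) hkpos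
      (by change k * -a = (k - 1) * 0 + 1 * -t.1; rw [ha]; ring)
      (by change k * -b = (k - 1) * 0 + 1 * -t.2; rw [hb]; ring)
  have hT' := hT.map w₂ (-w₁) (-b) a (Or.inl (by linear_combination hw))
  obtain ⟨c, hc, hc'⟩ := c2 hT'
    (Finset.mem_image.2 ⟨(a, b), hu, Prod.ext
      (by change w₂ * a + -w₁ * b = 1; linear_combination hw)
      (by change -b * a + a * b = 0; ring)⟩)
    (Finset.mem_image.2 ⟨(-a, -b), hu', Prod.ext
      (by change w₂ * -a + -w₁ * -b = -1; linear_combination -hw)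
      (by change -b * -a + a * -b = 0; ring)⟩)
  obtain ⟨z, hz, hzc⟩ := Finset.mem_image.1 hc
  obtain ⟨y, hy, hyc⟩ := Finset.mem_image.1 hc'
  have z1 : w₂ * z.1 + -w₁ * z.2 = c := congrArg Prod.fst hzc
  have z2 : -b * z.1 + a * z.2 = 1 := congrArg Prod.snd hzc
  have y1 : w₂ * y.1 + -w₁ * y.2 = -c := congrArg Prod.fst hyc
  have y2 : -b * y.1 + a * y.2 = -1 := congrArg Prod.snd hyc
  have hyz : y = -z := by
    refine Prod.ext ?_ ?_
    · change y.1 = -z.1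
      linear_combination a * y1 + w₁ * y2 + a * z1 + w₁ * z2 - (y.1 + z.1) * hw
    · change y.2 = -z.2
      linear_combination b * y1 + w₂ * y2 + b * z1 + w₂ * z2 - (y.2 + z.2) * hw
  refine ⟨(a, b), hu, z, hz, hu', by rw [← hyz]; exact hy, ?_⟩
  change a * z.2 - b * z.1 = 1
  linear_combination z2

end Helper20.NU
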