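import Pool.Agent.Helper20.NU.Ty3

/-!
NU-10. Planar coordinates on the slice.

PROOF. Let `v, a, b, g, fa, fb` be data at some vertex of the facet. Let `T` be the finite set of the
`(s, t) : ℤ × ℤ` with `toR (s • a + t • b) ∈ P` (finite: image of the finite set `finite_pts` under
`z ↦ (fa z, fb z)`). Note: `p (s a + t b) = 0`, `fa (s a + t b) = s`, `fb (s a + t b) = t`, and every
`z` with `p z = 0` is `(fa z) a + (fb z) b` (`FV.expZ`); the same for real vectors (`FV.expR`).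
`sat`: the linear map `(s, t) ↦ s a + t b` maps `cv T` into `P` (convexity).
`zero`: `0 ∈ P`.
`neg`: given `c = (c₁, c₂) ≠ 0`, let `c' = c₁ fa + c₂ fb` (real functional, `c' (s a + t b) =
c₁ s + c₂ t`); a small multiple `- ε (c₁ a + c₂ b)` of `-(c₁ a + c₂ b)` is in `P` (`0` is interior),
in the slice, and `c'` is `-ε (c₁² + c₂²) < 0` there; `exists_rmin` (or `ty3`) gives a lattice point
of the slice where `c'` is at most this.
`vert`: apply `ty3` to `c'` and write `q, d₁, d₂` in coordinates; `m` becomes `(m a, m b)`.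
-/

namespace Helper20.NU

open Matrix Set Helper31.Ewald

theorem FV.typ {P : Set (Fin 3 → ℝ)} (hP : IsSmoothPolytope P)
    (h0 : (0 : Fin 3 → ℝ) ∈ interior P) {p v a b g fa fb : Fin 3 → ℤ} (hp0 : p ≠ 0)
    (hp : ∀ x ∈ P, -1 ≤ toR p ⬝ᵥ x) (hF : FV P p v a b g fa fb) :
    ∃ T : Finset (ℤ × ℤ), TyP T ∧
      ∀ s t : ℤ, (s, t) ∈ T ↔ toR (s • a + t • b) ∈ P := by
  classical
  have hconv : Convex ℝ P := by
    obtain ⟨V, hV⟩ := hP.lattice
    rw [hV]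
    exact convex_convexHull ℝ _
  have ea : ∀ s t : ℤ, fa ⬝ᵥ (s • a + t • b) = s := by
    intro s t
    rw [dotProduct_add, dotProduct_smul, dotProduct_smul, hF.faa, hF.fab]
    simp
  have eb : ∀ s t : ℤ, fb ⬝ᵥ (s • a + t • b) = t := by
    intro s t
    rw [dotProduct_add, dotProduct_smul, dotProduct_smul, hF.fba, hF.fbb]
    simp
  have ep : ∀ s t : ℤ, p ⬝ᵥ (s • a + t • b) = 0 := by
    intro s t
    rw [dotProduct_add, dotProduct_smul, dotProduct_smul, hF.pa, hF.pb]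
    simp
  have hz : ∀ z : Fin 3 → ℤ, p ⬝ᵥ z = 0 → (fa ⬝ᵥ z) • a + (fb ⬝ᵥ z) • b = z := by
    intro z h
    have h1 := hF.expZ z
    rw [h, zero_smul, add_zero] at h1
    exact h1.symm
  let T : Finset (ℤ × ℤ) := ((finite_pts hP).toFinset.filter (fun z => p ⬝ᵥ z = 0)).image
    (fun z => (fa ⬝ᵥ z, fb ⬝ᵥ z))
  have hT : ∀ s t : ℤ, (s, t) ∈ T ↔ toR (s • a + t • b) ∈ P := by
    intro s t
    simp only [T, Finset.mem_image, Finset.mem_filter, Set.Finite.mem_toFinset, Set.mem_ofPred_eq,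
      Prod.mk.injEq]
    constructor
    · rintro ⟨z, ⟨h1, h2⟩, rfl, rfl⟩
      rw [hz z h2]
      exact h1
    · intro h
      exact ⟨s • a + t • b, ⟨h, ep s t⟩, ea s t, eb s t⟩
  have hTq : ∀ q : Fin 3 → ℤ, toR q ∈ P → p ⬝ᵥ q = 0 → (fa ⬝ᵥ q, fb ⬝ᵥ q) ∈ T := by
    intro q h1 h2
    rw [hT, hz q h2]
    exact h1
  have hc : ∀ (c : ℝ × ℝ) (q : Fin 3 → ℤ), (c.1 • toR fa + c.2 • toR fb) ⬝ᵥ toR q =
      c.1 * ((fa ⬝ᵥ q : ℤ) : ℝ) + c.2 * ((fb ⬝ᵥ q : ℤ) : ℝ) := by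
    intro c q
    rw [add_dotProduct, smul_dotProduct, smul_dotProduct, toR_dot, toR_dot, smul_eq_mul,
      smul_eq_mul]
  have hpt : ∀ t : ℤ × ℤ, t ∈ T → toR (t.1 • a + t.2 • b) ∈ P := fun t ht => (hT t.1 t.2).1 ht
  refine ⟨T, ⟨?_, ?_, ?_, ?_⟩, hT⟩
  · intro z hzc
    let L : ℝ × ℝ →ₗ[ℝ] (Fin 3 → ℝ) :=
      (LinearMap.fst ℝ ℝ ℝ).smulRight (toR a) + (LinearMap.snd ℝ ℝ ℝ).smulRight (toR b)
    have hL : ∀ w : ℝ × ℝ, L w = w.1 • toR a + w.2 • toR b := fun w => rfl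
    have h1 : cv T ⊆ L ⁻¹' P := by
      apply convexHull_min _ (hconv.linear_preimage L)
      rintro _ ⟨t, ht, rfl⟩
      have h2 := hpt t ht
      rw [toR_add, toR_smul, toR_smul] at h2
      exact h2
    have h2 : L (tR z) ∈ P := h1 hzc
    have h3 := (hT z.1 z.2).2 (by
      rw [toR_add, toR_smul, toR_smul]
      exact h2)
    exact h3
  · refine (hT 0 0).2 ?_
    rw [zero_smul, zero_smul, add_zero, toR_zero]
    exact interior_subset h0
  · intro c hc0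
    obtain ⟨q, d₁, d₂, m, hq, hpq, -, -, -, -, -, -, hmin, -⟩ :=
      ty3 hP h0 hp0 hp (c.1 • toR fa + c.2 • toR fb)
    refine ⟨_, hTq q hq hpq, ?_⟩
    show c.1 * ((fa ⬝ᵥ q : ℤ) : ℝ) + c.2 * ((fb ⬝ᵥ q : ℤ) : ℝ) < 0
    rw [← hc]
    have h1 : ∀ᶠ ε in nhds (0 : ℝ), ε • (-(c.1 • toR a + c.2 • toR b)) ∈ P := by
      have h2 : Filter.Tendsto (fun ε : ℝ => ε • (-(c.1 • toR a + c.2 • toR b))) (nhds 0)
          (nhds ((0 : ℝ) • (-(c.1 • toR a + c.2 • toR b)))) :=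
        (continuous_id.smul continuous_const).tendsto 0
      rw [zero_smul] at h2
      exact h2.eventually (mem_interior_iff_mem_nhds.1 h0)
    obtain ⟨ε, hε1, hε2⟩ := ((h1.filter_mono nhdsWithin_le_nhds).and
      (self_mem_nhdsWithin : Set.Ioi (0 : ℝ) ∈ nhdsWithin 0 (Set.Ioi 0))).exists
    have hε : (0 : ℝ) < ε := hε2
    have e1 : toR p ⬝ᵥ (ε • (-(c.1 • toR a + c.2 • toR b))) = 0 := by
      rw [dotProduct_smul, dotProduct_neg, dotProduct_add, dotProduct_smul, dotProduct_smul,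
        toR_dot, toR_dot, hF.pa, hF.pb]
      simp
    have e2 : (c.1 • toR fa + c.2 • toR fb) ⬝ᵥ (ε • (-(c.1 • toR a + c.2 • toR b))) =
        -ε * (c.1 ^ 2 + c.2 ^ 2) := by
      rw [dotProduct_smul, dotProduct_neg, dotProduct_add, dotProduct_smul, dotProduct_smul,
        add_dotProduct, add_dotProduct, smul_dotProduct, smul_dotProduct, smul_dotProduct,
        smul_dotProduct, toR_dot, toR_dot, toR_dot, toR_dot, hF.faa, hF.fab, hF.fba, hF.fbb]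
      simp only [smul_eq_mul, Int.cast_one, Int.cast_zero]
      ring
    have e3 := hmin _ hε1 e1
    rw [e2] at e3
    have e4 : 0 < c.1 ^ 2 + c.2 ^ 2 := by
      by_contra hcon
      have h5 : c.1 ^ 2 + c.2 ^ 2 ≤ 0 := not_lt.1 hcon
      have h6 : c.1 = 0 := by nlinarith [sq_nonneg c.1, sq_nonneg c.2]
      have h7 : c.2 = 0 := by nlinarith [sq_nonneg c.1, sq_nonneg c.2]
      exact hc0 (Prod.ext h6 h7)
    have e5 : 0 < ε * (c.1 ^ 2 + c.2 ^ 2) := mul_pos hε e4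
    linarith
  · intro c
    obtain ⟨q, d₁, d₂, m, hq, hpq, hqd1, hqd2, hpd1, hpd2, hm1, hm2, hmin, hcone⟩ :=
      ty3 hP h0 hp0 hp (c.1 • toR fa + c.2 • toR fb)
    have hadd : ∀ d : Fin 3 → ℤ, ((fa ⬝ᵥ q, fb ⬝ᵥ q) : ℤ × ℤ) + (fa ⬝ᵥ d, fb ⬝ᵥ d) =
        (fa ⬝ᵥ (q + d), fb ⬝ᵥ (q + d)) := by
      intro d
      rw [dotProduct_add, dotProduct_add]
      rfl
    have hm : ∀ d : Fin 3 → ℤ, p ⬝ᵥ d = 0 → (m ⬝ᵥ a) * (fa ⬝ᵥ d) + (m ⬝ᵥ b) * (fb ⬝ᵥ d) =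
        m ⬝ᵥ d := by
      intro d hd
      rw [hF.dotZ m d, hd]
      ring
    refine ⟨(fa ⬝ᵥ q, fb ⬝ᵥ q), hTq q hq hpq, fun t ht => ?_, (fa ⬝ᵥ d₁, fb ⬝ᵥ d₁),
      (fa ⬝ᵥ d₂, fb ⬝ᵥ d₂), (m ⬝ᵥ a, m ⬝ᵥ b), ?_, ?_, ?_, ?_, fun t ht => ?_⟩
    · have h1 := hpt t ht
      have h2 := hmin _ h1 (by rw [toR_dot, ep]; simp)
      rw [hc, hc, ea, eb] at h2
      exact h2
    · rw [hadd]
      exact hTq _ hqd1 (by rw [dotProduct_add, hpq, hpd1, add_zero])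
    · rw [hadd]
      exact hTq _ hqd2 (by rw [dotProduct_add, hpq, hpd2, add_zero])
    · exact (hm d₁ hpd1).trans hm1
    · exact (hm d₂ hpd2).trans hm2
    · have h1 := hpt t ht
      obtain ⟨s, r, hs, hr, hx⟩ := hcone _ h1 (by rw [toR_dot, ep]; simp)
      refine ⟨s, r, hs, hr, ?_, ?_⟩
      · have h2 := congrArg (fun y => toR fa ⬝ᵥ y) hx
        simp only [dotProduct_add, dotProduct_smul, toR_dot, ea, smul_eq_mul] at h2
        push_cast at h2 ⊢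
        exact h2
      · have h2 := congrArg (fun y => toR fb ⬝ᵥ y) hx
        simp only [dotProduct_add, dotProduct_smul, toR_dot, eb, smul_eq_mul] at h2
        push_cast at h2 ⊢
        exact h2

end Helper20.NU
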