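import Pool.Agent.Helper20.NU.Level1
import Pool.Agent.Helper20.NU.TyPl
import Pool.Agent.Helper20.NU.SliceP

/-!
NU-18. Nill's conjecture in dimension three when `0` has lattice distance one from some facet.

PROOF. The minimum of `u` over `P` is attained at an integer point (`hP.exists_vertex`), so it is an
integer `> -2`: hence `-1 ≤ u x` on `P`. `level1` gives `z`; `exists_level`, `exists_fv` give data
`v, a, b, g, fa, fb`, `FV.typ` and `sliceP` give `(s, t), (s', t')` with determinant one such that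
`U = s a + t b`, `W = s' a + t' b` and their negatives are in `P`. The rows of `b` are `U, W, z`.
Unimodular: the matrix with rows `fa, fb, u` times the transpose of the matrix with rows `U, W, z`
is `(s, s', *; t, t', *; 0, 0, 1)`, of determinant `1`.
-/

namespace Helper20.NU

open Matrix Set Helper31.Ewald

theorem mainU {P : Set (Fin 3 → ℝ)} (hP : IsSmoothPolytope P)
    (h0 : (0 : Fin 3 → ℝ) ∈ interior P) {u : Fin 3 → ℤ} (hu : u ≠ 0)
    (hu2 : ∀ x ∈ P, -2 < toR u ⬝ᵥ x) :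
    ∃ b : Matrix (Fin 3) (Fin 3) ℤ, IsUnit b.det ∧ ∀ i, toR (b i) ∈ P ∧ -toR (b i) ∈ P := by
  have hne : P.Nonempty := ⟨0, interior_subset h0⟩
  have hp : ∀ x ∈ P, -1 ≤ toR u ⬝ᵥ x := by
    obtain ⟨w, hw1, hw2⟩ := hP.exists_vertex hne u
    have h1 := hu2 _ hw1.1
    rw [toR_dot] at h1
    have h2 : (-2 : ℤ) < u ⬝ᵥ w := by exact_mod_cast h1
    have h3 : (-1 : ℤ) ≤ u ⬝ᵥ w := by omega
    have h4 : (-1 : ℝ) ≤ ((u ⬝ᵥ w : ℤ) : ℝ) := by exact_mod_cast h3
    intro x hx
    exact h4.trans (hw2 x hx)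
  obtain ⟨z, hz1, hz2, hz3⟩ := level1 hP h0 hu hp
  obtain ⟨v, hv1, hv2⟩ := exists_level hP h0 hu hp
  obtain ⟨a, b, g, fa, fb, hF⟩ := exists_fv hP h0 hu hp hv1 hv2
  obtain ⟨T, hT, hTP⟩ := hF.typ hP h0 hu hp
  obtain ⟨s, hs, t, ht, hs', ht', hdet⟩ := sliceP hT
  have hU : toR (s.1 • a + s.2 • b) ∈ P := (hTP s.1 s.2).1 hs
  have hW : toR (t.1 • a + t.2 • b) ∈ P := (hTP t.1 t.2).1 ht
  have hU' : -toR (s.1 • a + s.2 • b) ∈ P := by
    have h := (hTP (-s.1) (-s.2)).1 hs'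
    rw [← toR_neg]
    convert h using 2
    rw [neg_smul, neg_smul]
    abel
  have hW' : -toR (t.1 • a + t.2 • b) ∈ P := by
    have h := (hTP (-t.1) (-t.2)).1 ht'
    rw [← toR_neg]
    convert h using 2
    rw [neg_smul, neg_smul]
    abel
  refine ⟨Matrix.of ![s.1 • a + s.2 • b, t.1 • a + t.2 • b, z], ?_, ?_⟩
  · have key : (Matrix.of ![fa, fb, u]) * (Matrix.of ![s.1 • a + s.2 • b, t.1 • a + t.2 • b, z])ᵀ =
        !![s.1, t.1, fa ⬝ᵥ z; s.2, t.2, fb ⬝ᵥ z; 0, 0, 1] := by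
      ext i j
      have hij : ((Matrix.of ![fa, fb, u]) *
          (Matrix.of ![s.1 • a + s.2 • b, t.1 • a + t.2 • b, z])ᵀ) i j =
          (![fa, fb, u] i) ⬝ᵥ (![s.1 • a + s.2 • b, t.1 • a + t.2 • b, z] j) := rfl
      rw [hij]
      fin_cases i <;> fin_cases j
      · show fa ⬝ᵥ (s.1 • a + s.2 • b) = s.1
        rw [dotProduct_add, dotProduct_smul, dotProduct_smul, hF.faa, hF.fab]
        simp
      · show fa ⬝ᵥ (t.1 • a + t.2 • b) = t.1
        rw [dotProduct_add, dotProduct_smul, dotProduct_smul, hF.faa, hF.fab]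
        simp
      · rfl
      · show fb ⬝ᵥ (s.1 • a + s.2 • b) = s.2
        rw [dotProduct_add, dotProduct_smul, dotProduct_smul, hF.fba, hF.fbb]
        simp
      · show fb ⬝ᵥ (t.1 • a + t.2 • b) = t.2
        rw [dotProduct_add, dotProduct_smul, dotProduct_smul, hF.fba, hF.fbb]
        simp
      · rfl
      · show u ⬝ᵥ (s.1 • a + s.2 • b) = 0
        rw [dotProduct_add, dotProduct_smul, dotProduct_smul, hF.pa, hF.pb]
        simp
      · show u ⬝ᵥ (t.1 • a + t.2 • b) = 0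
        rw [dotProduct_add, dotProduct_smul, dotProduct_smul, hF.pa, hF.pb]
        simp
      · exact hz1
    have hd := congrArg Matrix.det key
    rw [Matrix.det_mul, Matrix.det_transpose] at hd
    have hd2 : (!![s.1, t.1, fa ⬝ᵥ z; s.2, t.2, fb ⬝ᵥ z; 0, 0, 1] : Matrix (Fin 3) (Fin 3) ℤ).det
        = 1 := by
      rw [Matrix.det_fin_three]
      simp
      linear_combination hdet
    rw [hd2] at hd
    exact IsUnit.of_mul_eq_one_right _ hd
  · intro i
    fin_cases i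
    · exact ⟨hU, hU'⟩
    · exact ⟨hW, hW'⟩
    · exact ⟨hz2, hz3⟩

end Helper20.NU
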