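import Pool.Agent.Helper20.NU.TMap

/-!
NU-12. A unimodular triple `x + y + z = 0` in `T`, if `T` contains no pair `± e`, `e ≠ 0`.

Notation: `det x y = x₁ y₂ - x₂ y₁`.

(E) `exists_pt`. If `D = det x y ≥ 2` there are integers `i, j ≥ 0`, `i + j ≤ D` and a lattice point
`w` with `D w = i x + j y`, `w ≠ 0, x, y`.
PROOF. Let `k = gcd (x₁, x₂) ≥ 1` (`x ≠ 0`), `x = k e`. If `k ≥ 2` take `w = e`, `i = D / k`
(`k ∣ D`), `j = 0`. If `k = 1`, Bezout gives `w₀` with `det x w₀ = 1`; for `w = w₀ + n x` one has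
`det x w = 1`, `det w y = det w₀ y + n D`; choose `n` with `0 ≤ det w y ≤ D - 1` and put
`i = det w y`, `j = 1`: `D w = (det w y) x + (det x w) y` holds identically. `w ≠ 0, x` since
`det x w = 1`, `w ≠ y` since `det x y = D ≥ 2`.

(N) `exists_triple`. There are `x, y, z ∈ T` with `det x y, det y z, det z x > 0`.
PROOF. Take `x ∈ T`, `x ≠ 0` (`neg` for `c = (1, 0)`). By `neg` for `c = (x₂, -x₁)` the set
`A = {y ∈ T | det x y > 0}` is nonempty; let `y ∈ A` maximise `-(x·y) / det x y` (`x·y` the inner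
product). For `y' ∈ A`: `(x·y') (det x y) - (x·y) (det x y') = |x|² det y' y`, so
`det y' y ≥ 0`. By `neg` for `c = (y₂, -y₁)` there is `z ∈ T` with `det y z > 0`. `z ∉ A` (otherwise
`det z y ≥ 0`), so `det x z ≤ 0`. If `det x z < 0` we are done. If `det x z = 0`: `z` is a
negative multiple of `x`: (`(det x y) z = (det z y) x + (det x z) y = -(det y z) x`.) Then a
primitive vector `e` on the ray of `x` and `-e` are both in `T` (`TyP.seg` between `0` and `x`, and
between `0` and `z`): contradiction to `hsym`. (Write `x = k e`, `k ≥ 1`, `e` primitive; then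
`z = - l e` with `l ≥ 1`.)

(M) `c1a`. Among the triples of (N) (a nonempty finite set) take one with
`S = det x y + det y z + det z x` minimal. CLAIM: `det x y = 1`. Otherwise take `w`, `i`, `j`, `D`
of (E): `w ∈ T` (`TyP.tri` with `x, y, 0`). `D det z w = i det z x - j det y z`.
 - `det z w > 0`: then `i > 0` and `(w, y, z)` is a triple as in (N) (`D det w y = i D`), with sum
`S'`, `D (S - S') = (D - i) (det x y + det z x) + j det y z`, positive, as `i ≤ D`, and `i = D`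
implies `j = 0`, `w = x`, no. (If `i < D` the first term is positive.)
 - `det z w < 0`: then `j > 0` and `(x, w, z)` is a triple, the same computation.
 - `det z w = 0`: `w` is a negative multiple of `z` (as `w = (i x + j y) / D` and `w ≠ 0`):
`(det z x) w = ...`; precisely `D w = i x + j y`, and `(det x y) z = (det z y) x + (det x z) y`, so
`w` and `z` are opposite; as in (N) a contradiction to `hsym`.
Cyclic symmetry (apply the claim to `(y, z, x)`, `(z, x, y)`, which have the same sum) gives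
`det x y = det y z = det z x = 1`, and then `det (x + y + z) x = 0`, `det (x + y + z) y = 0`, so
`x + y + z = 0`.
-/

namespace Helper20.NU

open Matrix Set Helper31.Ewald

private theorem exists_prim (a b : ℤ) (h : ¬ (a = 0 ∧ b = 0)) :
    ∃ k e₁ e₂ u v : ℤ, 0 < k ∧ a = k * e₁ ∧ b = k * e₂ ∧ u * e₁ + v * e₂ = 1 := by
  have hg : 0 < (Int.gcd a b : ℤ) := by
    have h0 : Int.gcd a b ≠ 0 := fun h0 => h (Int.gcd_eq_zero_iff.1 h0)
    exact_mod_cast Nat.pos_of_ne_zero h0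
  obtain ⟨e₁, he₁⟩ := Int.gcd_dvd_left a b
  obtain ⟨e₂, he₂⟩ := Int.gcd_dvd_right a b
  refine ⟨(Int.gcd a b : ℤ), e₁, e₂, Int.gcdA a b, Int.gcdB a b, hg, he₁, he₂, ?_⟩
  have hb := Int.gcd_eq_gcd_ab a b
  have h2 : (Int.gcd a b : ℤ) * (Int.gcdA a b * e₁ + Int.gcdB a b * e₂) =
      (Int.gcd a b : ℤ) * 1 := by
    rw [mul_one]
    conv_rhs => rw [hb]
    have e1 : (Int.gcd a b : ℤ) * (Int.gcdA a b * e₁ + Int.gcdB a b * e₂) =
        ((Int.gcd a b : ℤ) * e₁) * Int.gcdA a b + ((Int.gcd a b : ℤ) * e₂) * Int.gcdB a b := by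
      ring
    rw [e1, ← he₁, ← he₂]
  exact mul_left_cancel₀ hg.ne' h2

theorem exists_pt (x y : ℤ × ℤ) (hD : 2 ≤ x.1 * y.2 - x.2 * y.1) :
    ∃ (i j : ℤ) (w : ℤ × ℤ), 0 ≤ i ∧ 0 ≤ j ∧ i + j ≤ x.1 * y.2 - x.2 * y.1 ∧
      (x.1 * y.2 - x.2 * y.1) * w.1 = i * x.1 + j * y.1 ∧
      (x.1 * y.2 - x.2 * y.1) * w.2 = i * x.2 + j * y.2 ∧ w ≠ 0 ∧ w ≠ x ∧ w ≠ y := by
  obtain ⟨a, b⟩ := x
  obtain ⟨c, d⟩ := y
  simp only at hD ⊢
  obtain ⟨k, e₁, e₂, u, v, hk, ha, hb, huv⟩ :
      ∃ k e₁ e₂ u v : ℤ, 0 < k ∧ a = k * e₁ ∧ b = k * e₂ ∧ u * e₁ + v * e₂ = 1 := by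
    apply exists_prim
    rintro ⟨h1, h2⟩
    rw [h1, h2] at hD
    norm_num at hD
  rcases lt_or_ge 1 k with h | h
  · have hi : k * (e₁ * d - e₂ * c) = a * d - b * c := by rw [ha, hb]; ring
    have hipos : 0 < e₁ * d - e₂ * c := by
      have h1 : 0 < k * (e₁ * d - e₂ * c) := by rw [hi]; omega
      exact (mul_pos_iff_of_pos_left hk).1 h1
    refine ⟨e₁ * d - e₂ * c, 0, (e₁, e₂), hipos.le, le_refl _, ?_, ?_, ?_, ?_, ?_, ?_⟩
    · rw [← hi]; nlinarith
    · simp only; rw [ha, hb]; ring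
    · simp only; rw [ha, hb]; ring
    · intro h0
      have h1 : e₁ = 0 := congrArg Prod.fst h0
      have h2 : e₂ = 0 := congrArg Prod.snd h0
      rw [h1, h2] at huv
      norm_num at huv
    · intro h0
      have h1 : e₁ = a := congrArg Prod.fst h0
      have h2 : e₂ = b := congrArg Prod.snd h0
      have h3 : u * a + v * b = 1 := by rw [← h1, ← h2]; exact huv
      rw [ha, hb] at h3
      have h4 : k * (u * e₁ + v * e₂) = 1 := by linarith
      rw [huv] at h4
      omega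
    · intro h0
      have h1 : e₁ = c := congrArg Prod.fst h0
      have h2 : e₂ = d := congrArg Prod.snd h0
      rw [h1, h2] at hipos
      have h3 : c * d - d * c = 0 := by ring
      omega
  · have hk1 : k = 1 := by omega
    rw [hk1, one_mul] at ha hb
    rw [← ha, ← hb] at huv
    have hD0 : (0 : ℤ) < a * d - b * c := by omega
    obtain ⟨m, n, hm0, hm1, hmn⟩ : ∃ m n : ℤ, 0 ≤ m ∧ m < a * d - b * c ∧
        -v * d - u * c = m + (a * d - b * c) * n :=
      ⟨(-v * d - u * c) % (a * d - b * c), (-v * d - u * c) / (a * d - b * c),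
        Int.emod_nonneg _ hD0.ne', Int.emod_lt_of_pos _ hD0, (Int.emod_add_mul_ediv _ _).symm⟩
    have hdet : a * (u - n * b) - b * (-v - n * a) = 1 := by
      have : a * (u - n * b) - b * (-v - n * a) = u * a + v * b := by ring
      rw [this, huv]
    have hm : (-v - n * a) * d - (u - n * b) * c = m := by
      have : (-v - n * a) * d - (u - n * b) * c =
        (-v * d - u * c) - (a * d - b * c) * n := by ring
      rw [this, hmn]; ring
    refine ⟨m, 1, (-v - n * a, u - n * b), hm0, by norm_num, by omega, ?_, ?_, ?_, ?_, ?_⟩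
    · simp only
      have e : (a * d - b * c) * (-v - n * a) =
        ((-v - n * a) * d - (u - n * b) * c) * a + (a * (u - n * b) - b * (-v - n * a)) * c := by
        ring
      rw [e, hm, hdet]
    · simp only
      have e : (a * d - b * c) * (u - n * b) =
        ((-v - n * a) * d - (u - n * b) * c) * b + (a * (u - n * b) - b * (-v - n * a)) * d := by
        ring
      rw [e, hm, hdet]
    · intro h0
      have h1 : -v - n * a = 0 := congrArg Prod.fst h0
      have h2 : u - n * b = 0 := congrArg Prod.snd h0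
      rw [h1, h2] at hdet
      norm_num at hdet
    · intro h0
      have h1 : -v - n * a = a := congrArg Prod.fst h0
      have h2 : u - n * b = b := congrArg Prod.snd h0
      rw [h1, h2] at hdet
      have : a * b - b * a = 0 := by ring
      omega
    · intro h0
      have h1 : -v - n * a = c := congrArg Prod.fst h0
      have h2 : u - n * b = d := congrArg Prod.snd h0
      rw [h1, h2] at hdet
      omega

/-- two opposite vectors of `T` -/
theorem TyP.opp {T : Finset (ℤ × ℤ)} (hT : TyP T) (hsym : ∀ t ∈ T, -t ∈ T → t = 0)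
    {x z : ℤ × ℤ} (hx : x ∈ T) (hz : z ∈ T) {k l : ℤ} (hk : 0 < k) (hl : 0 < l)
    (h1 : k * x.1 + l * z.1 = 0) (h2 : k * x.2 + l * z.2 = 0) : x = 0 := by
  by_contra hx0
  obtain ⟨g, e₁, e₂, u, v, hg, ha, hb, huv⟩ : ∃ k e₁ e₂ u v : ℤ, 0 < k ∧ x.1 = k * e₁ ∧
      x.2 = k * e₂ ∧ u * e₁ + v * e₂ = 1 := by
    apply exists_prim
    rintro ⟨h3, h4⟩
    exact hx0 (Prod.ext h3 h4)
  obtain ⟨m, hm⟩ : ∃ m : ℤ, m = u * z.1 + v * z.2 := ⟨_, rfl⟩
  have hlm : l * m = -(k * g) := by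
    have e : l * m = -(k * g) * (u * e₁ + v * e₂) + (u * (k * x.1 + l * z.1) +
        v * (k * x.2 + l * z.2)) := by rw [hm, ha, hb]; ring
    rw [e, huv, h1, h2]; ring
  have hmneg : m < 0 := by
    by_contra hm0
    have h3 : 0 ≤ l * m := mul_nonneg hl.le (not_lt.1 hm0)
    have h4 : 0 < k * g := mul_pos hk hg
    omega
  have hz1 : z.1 = m * e₁ := by
    apply mul_left_cancel₀ hl.ne'
    have e : l * (m * e₁) = (l * m) * e₁ := by ring
    rw [e, hlm]
    rw [ha] at h1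
    linarith
  have hz2 : z.2 = m * e₂ := by
    apply mul_left_cancel₀ hl.ne'
    have e : l * (m * e₂) = (l * m) * e₂ := by ring
    rw [e, hlm]
    rw [hb] at h2
    linarith
  have hT1 : ((e₁, e₂) : ℤ × ℤ) ∈ T := by
    apply hT.seg hT.zero hx (j := 1) (k := g) (by norm_num) (by omega) hg
    · simp only [Prod.fst_zero]; rw [ha]; ring
    · simp only [Prod.snd_zero]; rw [hb]; ring
  have hT2 : -((e₁, e₂) : ℤ × ℤ) ∈ T := by
    apply hT.seg hT.zero hz (j := 1) (k := -m) (by norm_num) (by omega) (by omega)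
    · simp only [Prod.fst_zero, Prod.fst_neg]; rw [hz1]; ring
    · simp only [Prod.snd_zero, Prod.snd_neg]; rw [hz2]; ring
  have h0 := hsym _ hT1 hT2
  have h3 : e₁ = 0 := congrArg Prod.fst h0
  have h4 : e₂ = 0 := congrArg Prod.snd h0
  rw [h3, h4] at huv
  norm_num at huv

theorem exists_triple {T : Finset (ℤ × ℤ)} (hT : TyP T) (hsym : ∀ t ∈ T, -t ∈ T → t = 0) :
    ∃ x ∈ T, ∃ y ∈ T, ∃ z ∈ T, 0 < x.1 * y.2 - x.2 * y.1 ∧ 0 < y.1 * z.2 - y.2 * z.1 ∧
      0 < z.1 * x.2 - z.2 * x.1 := by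
  obtain ⟨x, hx, hx1⟩ := hT.neg (1, 0) (by
    intro h
    exact one_ne_zero (congrArg Prod.fst h))
  have hx0 : x ≠ 0 := by
    rintro rfl
    simp at hx1
  -- a point on the positive side of a nonzero point of the lattice
  have side : ∀ p : ℤ × ℤ, p ≠ 0 → ∃ t ∈ T, 0 < p.1 * t.2 - p.2 * t.1 := by
    intro p hp
    obtain ⟨t, ht, h⟩ := hT.neg ((p.2 : ℝ), -(p.1 : ℝ)) (by
      intro h
      apply hp
      have h1 : (p.2 : ℝ) = 0 := congrArg Prod.fst h
      have h2 : -(p.1 : ℝ) = 0 := congrArg Prod.snd h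
      have h1' : p.2 = 0 := by exact_mod_cast h1
      have h2' : p.1 = 0 := by
        have : (p.1 : ℝ) = 0 := by linarith
        exact_mod_cast this
      exact Prod.ext h2' h1')
    refine ⟨t, ht, ?_⟩
    simp only at h
    have h' : (0 : ℝ) < ((p.1 * t.2 - p.2 * t.1 : ℤ) : ℝ) := by
      push_cast
      linarith
    exact_mod_cast h'
  obtain ⟨y₀, hy₀, hy₀'⟩ := side x hx0
  obtain ⟨y, hyA, hymax⟩ := Finset.exists_max_image
    (T.filter fun y => 0 < x.1 * y.2 - x.2 * y.1)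
    (fun y => -((x.1 * y.1 + x.2 * y.2 : ℤ) : ℚ) / ((x.1 * y.2 - x.2 * y.1 : ℤ) : ℚ))
    ⟨y₀, Finset.mem_filter.2 ⟨hy₀, hy₀'⟩⟩
  obtain ⟨hy, hxy⟩ := Finset.mem_filter.1 hyA
  have hmax : ∀ y' ∈ T, 0 < x.1 * y'.2 - x.2 * y'.1 → 0 ≤ y'.1 * y.2 - y'.2 * y.1 := by
    intro y' hy' hxy'
    have h := hymax y' (Finset.mem_filter.2 ⟨hy', hxy'⟩)
    have hq : (0 : ℚ) < ((x.1 * y.2 - x.2 * y.1 : ℤ) : ℚ) := by exact_mod_cast hxy
    have hq' : (0 : ℚ) < ((x.1 * y'.2 - x.2 * y'.1 : ℤ) : ℚ) := by exact_mod_cast hxy'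
    rw [div_le_div_iff₀ hq' hq] at h
    have h1 : -(x.1 * y'.1 + x.2 * y'.2) * (x.1 * y.2 - x.2 * y.1) ≤
        -(x.1 * y.1 + x.2 * y.2) * (x.1 * y'.2 - x.2 * y'.1) := by exact_mod_cast h
    have h2 : (x.1 * y'.1 + x.2 * y'.2) * (x.1 * y.2 - x.2 * y.1) -
        (x.1 * y.1 + x.2 * y.2) * (x.1 * y'.2 - x.2 * y'.1) =
        (x.1 * x.1 + x.2 * x.2) * (y'.1 * y.2 - y'.2 * y.1) := by ring
    have h3 : 0 ≤ (x.1 * x.1 + x.2 * x.2) * (y'.1 * y.2 - y'.2 * y.1) := by linarith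
    have h4 : 0 < x.1 * x.1 + x.2 * x.2 := by
      rcases (add_nonneg (mul_self_nonneg x.1) (mul_self_nonneg x.2)).lt_or_eq with h5 | h5
      · exact h5
      · exfalso
        apply hx0
        have h6 : x.1 * x.1 = 0 := by nlinarith [mul_self_nonneg x.1, mul_self_nonneg x.2]
        have h7 : x.2 * x.2 = 0 := by nlinarith [mul_self_nonneg x.1, mul_self_nonneg x.2]
        exact Prod.ext (mul_self_eq_zero.1 h6) (mul_self_eq_zero.1 h7)
    exact nonneg_of_mul_nonneg_right h3 h4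
  have hy0 : y ≠ 0 := by
    rintro rfl
    simp at hxy
  obtain ⟨z, hz, hyz⟩ := side y hy0
  refine ⟨x, hx, y, hy, z, hz, hxy, hyz, ?_⟩
  rcases lt_trichotomy (x.1 * z.2 - x.2 * z.1) 0 with h | h | h
  · linarith
  · exfalso
    apply hx0
    refine hT.opp hsym hx hz (k := y.1 * z.2 - y.2 * z.1) (l := x.1 * y.2 - x.2 * y.1) hyz hxy
      ?_ ?_
    · have e : (y.1 * z.2 - y.2 * z.1) * x.1 + (x.1 * y.2 - x.2 * y.1) * z.1 =
        (x.1 * z.2 - x.2 * z.1) * y.1 := by ring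
      rw [e, h, zero_mul]
    · have e : (y.1 * z.2 - y.2 * z.1) * x.2 + (x.1 * y.2 - x.2 * y.1) * z.2 =
        (x.1 * z.2 - x.2 * z.1) * y.2 := by ring
      rw [e, h, zero_mul]
  · exfalso
    have h1 := hmax z hz h
    linarith

private theorem step {T : Finset (ℤ × ℤ)} (hT : TyP T) (hsym : ∀ t ∈ T, -t ∈ T → t = 0)
    {x y z : ℤ × ℤ} (hx : x ∈ T) (hy : y ∈ T) (hz : z ∈ T)
    (h1 : 2 ≤ x.1 * y.2 - x.2 * y.1) (h2 : 0 < y.1 * z.2 - y.2 * z.1)
    (h3 : 0 < z.1 * x.2 - z.2 * x.1) :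
    ∃ x' ∈ T, ∃ y' ∈ T, ∃ z' ∈ T, 0 < x'.1 * y'.2 - x'.2 * y'.1 ∧
      0 < y'.1 * z'.2 - y'.2 * z'.1 ∧ 0 < z'.1 * x'.2 - z'.2 * x'.1 ∧
      (x'.1 * y'.2 - x'.2 * y'.1) + (y'.1 * z'.2 - y'.2 * z'.1) + (z'.1 * x'.2 - z'.2 * x'.1) <
      (x.1 * y.2 - x.2 * y.1) + (y.1 * z.2 - y.2 * z.1) + (z.1 * x.2 - z.2 * x.1) := by
  obtain ⟨i, j, w, hi, hj, hij, hw1, hw2, hw0, hwx, hwy⟩ := exists_pt x y h1
  obtain ⟨D, hD⟩ : ∃ D : ℤ, D = x.1 * y.2 - x.2 * y.1 := ⟨_, rfl⟩
  obtain ⟨q, hq⟩ : ∃ q : ℤ, q = y.1 * z.2 - y.2 * z.1 := ⟨_, rfl⟩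
  obtain ⟨r, hr⟩ : ∃ r : ℤ, r = z.1 * x.2 - z.2 * x.1 := ⟨_, rfl⟩
  obtain ⟨s, hs⟩ : ∃ s : ℤ, s = z.1 * w.2 - z.2 * w.1 := ⟨_, rfl⟩
  rw [← hD] at h1 hij hw1 hw2
  rw [← hq] at h2
  rw [← hr] at h3
  have hD0 : 0 < D := by omega
  have hwT : w ∈ T := by
    refine hT.tri hx hy hT.zero (i := i) (j := j) (l := D - i - j) (k := D) hi hj (by omega)
      hD0 (by ring) ?_ ?_
    · rw [hw1]; simp
    · rw [hw2]; simp
  have hwy' : w.1 * y.2 - w.2 * y.1 = i := by
    apply mul_left_cancel₀ hD0.ne'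
    have e : D * (w.1 * y.2 - w.2 * y.1) = (D * w.1) * y.2 - (D * w.2) * y.1 := by ring
    rw [e, hw1, hw2, hD]; ring
  have hxw' : x.1 * w.2 - x.2 * w.1 = j := by
    apply mul_left_cancel₀ hD0.ne'
    have e : D * (x.1 * w.2 - x.2 * w.1) = x.1 * (D * w.2) - x.2 * (D * w.1) := by ring
    rw [e, hw1, hw2, hD]; ring
  have hDs : D * s = i * r - j * q := by
    have e : D * s = z.1 * (D * w.2) - z.2 * (D * w.1) := by rw [hs]; ring
    rw [e, hw1, hw2, hr, hq]; ring
  rw [← hD, ← hq, ← hr]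
  rcases lt_trichotomy s 0 with h | h | h
  · -- the triple `x, w, z`
    have hj0 : 0 < j := by
      rcases hj.lt_or_eq with h4 | h4
      · exact h4
      · exfalso
        rw [← h4, zero_mul, sub_zero] at hDs
        have h5 : 0 ≤ i * r := mul_nonneg hi h3.le
        have h6 : D * s < 0 := mul_neg_of_pos_of_neg hD0 h
        omega
    have hjD : j < D := by
      rcases lt_or_ge j D with h4 | h4
      · exact h4
      · exfalso
        have h5 : i = 0 := by omega
        have h6 : j = D := by omega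
        rw [h5, h6, zero_mul, zero_add] at hw1 hw2
        exact hwy (Prod.ext (mul_left_cancel₀ hD0.ne' hw1) (mul_left_cancel₀ hD0.ne' hw2))
    refine ⟨x, hx, w, hwT, z, hz, by rw [hxw']; exact hj0, ?_, by rw [← hr]; exact h3, ?_⟩
    · have e : w.1 * z.2 - w.2 * z.1 = -s := by rw [hs]; ring
      rw [e]; omega
    · have e : w.1 * z.2 - w.2 * z.1 = -s := by rw [hs]; ring
      rw [e, hxw', ← hr]
      have e2 : D * ((D + q + r) - (j + -s + r)) = (D - j) * (D + q) + i * r := by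
        have : D * ((D + q + r) - (j + -s + r)) = D * (D + q - j) + D * s := by ring
        rw [this, hDs]; ring
      have h5 : 0 < (D - j) * (D + q) := mul_pos (by omega) (by omega)
      have h6 : 0 ≤ i * r := mul_nonneg hi h3.le
      have h7 : 0 < D * ((D + q + r) - (j + -s + r)) := by rw [e2]; omega
      have h8 := (mul_pos_iff_of_pos_left hD0).1 h7
      omega
  · -- `w` and `z` are opposite
    exfalso
    rw [h, mul_zero] at hDs
    have hi0 : 0 < i := by
      rcases hi.lt_or_eq with h4 | h4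
      · exact h4
      · exfalso
        rw [← h4, zero_mul, zero_sub] at hDs
        have h5 : j * q = 0 := by omega
        have h6 : j = 0 := by
          rcases mul_eq_zero.1 h5 with h6 | h6
          · exact h6
          · omega
        rw [← h4, h6, zero_mul, zero_mul, zero_add] at hw1 hw2
        apply hw0
        apply Prod.ext
        · rcases mul_eq_zero.1 hw1 with h7 | h7
          · omega
          · exact h7
        · rcases mul_eq_zero.1 hw2 with h7 | h7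
          · omega
          · exact h7
    apply hw0
    refine hT.opp hsym hwT hz (k := q) (l := i) h2 hi0 ?_ ?_
    · apply mul_left_cancel₀ hD0.ne'
      have e : D * (q * w.1 + i * z.1) = q * (D * w.1) + i * (D * z.1) := by ring
      have e2 : D * z.1 = -q * x.1 - r * y.1 := by rw [hD, hq, hr]; ring
      have e3 : q * (i * x.1 + j * y.1) + i * (-q * x.1 - r * y.1) = -(i * r - j * q) * y.1 := by
        ring
      rw [e, hw1, e2, e3, ← hDs]; ring
    · apply mul_left_cancel₀ hD0.ne'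
      have e : D * (q * w.2 + i * z.2) = q * (D * w.2) + i * (D * z.2) := by ring
      have e2 : D * z.2 = -q * x.2 - r * y.2 := by rw [hD, hq, hr]; ring
      have e3 : q * (i * x.2 + j * y.2) + i * (-q * x.2 - r * y.2) = -(i * r - j * q) * y.2 := by
        ring
      rw [e, hw2, e2, e3, ← hDs]; ring
  · -- the triple `w, y, z`
    have hi0 : 0 < i := by
      rcases hi.lt_or_eq with h4 | h4
      · exact h4
      · exfalso
        rw [← h4, zero_mul, zero_sub] at hDs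
        have h5 : 0 ≤ j * q := mul_nonneg hj h2.le
        have h6 : 0 < D * s := mul_pos hD0 h
        omega
    have hiD : i < D := by
      rcases lt_or_ge i D with h4 | h4
      · exact h4
      · exfalso
        have h5 : j = 0 := by omega
        have h6 : i = D := by omega
        rw [h5, h6, zero_mul, add_zero] at hw1 hw2
        exact hwx (Prod.ext (mul_left_cancel₀ hD0.ne' hw1) (mul_left_cancel₀ hD0.ne' hw2))
    refine ⟨w, hwT, y, hy, z, hz, by rw [hwy']; exact hi0, by rw [← hq]; exact h2,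
      by rw [← hs]; exact h, ?_⟩
    rw [hwy', ← hq, ← hs]
    have e2 : D * ((D + q + r) - (i + q + s)) = (D - i) * (D + r) + j * q := by
      have : D * ((D + q + r) - (i + q + s)) = D * (D + r - i) - D * s := by ring
      rw [this, hDs]; ring
    have h5 : 0 < (D - i) * (D + r) := mul_pos (by omega) (by omega)
    have h6 : 0 ≤ j * q := mul_nonneg hj h2.le
    have h7 : 0 < D * ((D + q + r) - (i + q + s)) := by rw [e2]; omega
    have h8 := (mul_pos_iff_of_pos_left hD0).1 h7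
    omega

private theorem descent {T : Finset (ℤ × ℤ)} (hT : TyP T) (hsym : ∀ t ∈ T, -t ∈ T → t = 0)
    (n : ℕ) : ∀ x ∈ T, ∀ y ∈ T, ∀ z ∈ T, 0 < x.1 * y.2 - x.2 * y.1 →
      0 < y.1 * z.2 - y.2 * z.1 → 0 < z.1 * x.2 - z.2 * x.1 →
      (x.1 * y.2 - x.2 * y.1) + (y.1 * z.2 - y.2 * z.1) + (z.1 * x.2 - z.2 * x.1) ≤ n →
      ∃ x ∈ T, ∃ y ∈ T, -x - y ∈ T ∧ x.1 * y.2 - x.2 * y.1 = 1 := by
  induction n with
  | zero =>
    intro x _ y _ z _ h1 h2 h3 h4
    push_cast at h4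
    omega
  | succ n ih =>
    intro x hx y hy z hz h1 h2 h3 h4
    push_cast at h4
    rcases lt_or_ge 1 (x.1 * y.2 - x.2 * y.1) with h5 | h5
    · obtain ⟨x', hx', y', hy', z', hz', k1, k2, k3, k4⟩ :=
        step hT hsym hx hy hz (by omega) h2 h3
      exact ih x' hx' y' hy' z' hz' k1 k2 k3 (by omega)
    rcases lt_or_ge 1 (y.1 * z.2 - y.2 * z.1) with h6 | h6
    · obtain ⟨x', hx', y', hy', z', hz', k1, k2, k3, k4⟩ :=
        step hT hsym hy hz hx (by omega) h3 h1
      exact ih x' hx' y' hy' z' hz' k1 k2 k3 (by omega)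
    rcases lt_or_ge 1 (z.1 * x.2 - z.2 * x.1) with h7 | h7
    · obtain ⟨x', hx', y', hy', z', hz', k1, k2, k3, k4⟩ :=
        step hT hsym hz hx hy (by omega) h1 h2
      exact ih x' hx' y' hy' z' hz' k1 k2 k3 (by omega)
    have e1 : x.1 * y.2 - x.2 * y.1 = 1 := by omega
    have e2 : y.1 * z.2 - y.2 * z.1 = 1 := by omega
    have e3 : z.1 * x.2 - z.2 * x.1 = 1 := by omega
    refine ⟨x, hx, y, hy, ?_, e1⟩
    have hz1 : z.1 = -x.1 - y.1 := by
      have e : (x.1 * y.2 - x.2 * y.1) * z.1 =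
        -(y.1 * z.2 - y.2 * z.1) * x.1 - (z.1 * x.2 - z.2 * x.1) * y.1 := by ring
      rw [e1, e2, e3] at e
      linarith
    have hz2 : z.2 = -x.2 - y.2 := by
      have e : (x.1 * y.2 - x.2 * y.1) * z.2 =
        -(y.1 * z.2 - y.2 * z.1) * x.2 - (z.1 * x.2 - z.2 * x.1) * y.2 := by ring
      rw [e1, e2, e3] at e
      linarith
    have hz3 : z = -x - y := Prod.ext hz1 hz2
    rw [← hz3]
    exact hz

theorem c1a {T : Finset (ℤ × ℤ)} (hT : TyP T) (hsym : ∀ t ∈ T, -t ∈ T → t = 0) :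
    ∃ x ∈ T, ∃ y ∈ T, -x - y ∈ T ∧ x.1 * y.2 - x.2 * y.1 = 1 := by
  obtain ⟨x, hx, y, hy, z, hz, h1, h2, h3⟩ := exists_triple hT hsym
  exact descent hT hsym
    ((x.1 * y.2 - x.2 * y.1) + (y.1 * z.2 - y.2 * z.1) + (z.1 * x.2 - z.2 * x.1)).toNat
    x hx y hy z hz h1 h2 h3 (Int.self_le_toNat _)

end Helper20.NU
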