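import Pool.Agent.Helper20.NU.C1a

/-!
NU-13. `T` contains a nonzero vector together with its negative.

PROOF of `rays` (`T ∋ (1,0), (0,1), (-1,-1)`, no pair `± e` in `T`): every `t ∈ T` is `(i, 0)`,
`(0, i)` or `(-i, -i)` with `i ≥ 0`. By `hsym`, `(1,1), (-1,0), (0,-1) ∉ T`. Let `t = (x, y) ∈ T`.
 (a) not (`x ≥ 1` and `y ≥ 1`): otherwise `(1,1)` has weights
`(y - 1, x - 1, 1) / (x + y - 1)` with respect to `(1,0), (0,1), (x,y)`, and `TyP.tri` (with
`k = x + y - 1 > 0`, `i = y - 1`, `j = x - 1`, `l = 1`) gives `(1,1) ∈ T`.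
 (b) not (`x ≤ -1` and `y ≥ x + 1`): (`(x,y) = s (0,1) + r (-1,-1)`, `r = -x ≥ 1`,
`s = y - x ≥ 1`.) `(-1, 0)` has weights `(r - 1, s - 1, 1)/(r + s - 1)` with respect to
`(0,1), (-1,-1), (x,y)` (the weight of `(0,1)` is `r - 1`, the weight of `(-1,-1)` is `s - 1`).
 (c) not (`y ≤ -1` and `x ≥ y + 1`): (`(x,y) = s (1,0) + r (-1,-1)`, `r = -y ≥ 1`,
`s = x - y ≥ 1`.) `(0,-1)` has weights `(r - 1, s - 1, 1)/(r + s - 1)` with respect to
`(1,0), (-1,-1), (x,y)`.
 So: `x ≥ 1` implies `y ≤ 0` (a), and `y ≤ -1` is excluded by (c), `y = 0`. `x = 0`: `y ≤ -1` is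
excluded by (c). `x ≤ -1`: by (b) `y ≤ x ≤ -1`, by (c) `x ≤ y`: `x = y`.

PROOF of `c1b`. Apply `vert` to `c = (0, -1)`: `q ∈ T` with maximal second coordinate, which is
`≥ 1`, since `(0,1) ∈ T`; by `rays`, `q = (0, k)`, `k ≥ 1`. Let `d₁, d₂, m` be the data.
`m t = m q + s + r ≥ m q` for `t = q + s d₁ + r d₂ ∈ T`, `t ≠ q` gives `s + r > 0`; for `t = 0`:
`0 = m 0 > m q`, so `k m₂ = m q ≤ -1`, so `m₂ ≤ -1`. `(1, 0) ∈ T` has first coordinate
`1 = s (d₁)₁ + r (d₂)₁`, so some `d ∈ {d₁, d₂}` has positive first coordinate, `q + d ∈ T` is then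
`(i, 0)`, `i ≥ 1` (`rays`), and `m₁ i = m (q + d) = m q + 1 ≤ 0`: `m₁ ≤ 0`. `(-1,-1) ∈ T` has
negative first coordinate, so some `d` has negative first coordinate, `q + d = (-l, -l)`, `l ≥ 1`,
and `-(m₁ + m₂) l = m q + 1 ≤ 0`: `m₁ + m₂ ≥ 0`, `m₁ ≥ 1`. Contradiction.

PROOF of `c1`. Suppose not; `c1a` gives `x, y, -x-y ∈ T`, `det x y = 1`; `TyP.map` with
`α = y₂, β = -y₁, γ = -x₂, δ = x₁` maps `x` to `(1,0)`, `y` to `(0,1)`; the image has no pair `± e`
either; `c1b`.
-/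

namespace Helper20.NU

open Matrix Set Helper31.Ewald

theorem rays {T : Finset (ℤ × ℤ)} (hT : TyP T) (hsym : ∀ t ∈ T, -t ∈ T → t = 0)
    (h1 : ((1, 0) : ℤ × ℤ) ∈ T) (h2 : ((0, 1) : ℤ × ℤ) ∈ T) (h3 : ((-1, -1) : ℤ × ℤ) ∈ T)
    {t : ℤ × ℤ} (ht : t ∈ T) :
    ∃ i : ℤ, 0 ≤ i ∧ (t = (i, 0) ∨ t = (0, i) ∨ t = (-i, -i)) := by
  have n1 : ((1, 1) : ℤ × ℤ) ∉ T := fun h => by
    have h4 := hsym _ h (by simpa using h3)
    simp at h4
  have n2 : ((-1, 0) : ℤ × ℤ) ∉ T := fun h => by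
    have h4 := hsym _ h (by simpa using h1)
    simp at h4
  have n3 : ((0, -1) : ℤ × ℤ) ∉ T := fun h => by
    have h4 := hsym _ h (by simpa using h2)
    simp at h4
  obtain ⟨x, y⟩ := t
  have ha : ¬ (1 ≤ x ∧ 1 ≤ y) := fun ⟨hx, hy⟩ =>
    n1 (hT.tri (k := x + y - 1) (i := y - 1) (j := x - 1) (l := 1) h1 h2 ht (by omega) (by omega)
      (by omega) (by omega) (by ring) (by dsimp only; ring) (by dsimp only; ring))
  have hb : ¬ (x ≤ -1 ∧ x + 1 ≤ y) := fun ⟨hx, hy⟩ =>
    n2 (hT.tri (k := y - 2 * x - 1) (i := -x - 1) (j := y - x - 1) (l := 1) h2 h3 ht (by omega)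
      (by omega) (by omega) (by omega) (by ring) (by dsimp only; ring) (by dsimp only; ring))
  have hc : ¬ (y ≤ -1 ∧ y + 1 ≤ x) := fun ⟨hx, hy⟩ =>
    n3 (hT.tri (k := x - 2 * y - 1) (i := -y - 1) (j := x - y - 1) (l := 1) h1 h3 ht (by omega)
      (by omega) (by omega) (by omega) (by ring) (by dsimp only; ring) (by dsimp only; ring))
  rcases lt_trichotomy x 0 with hx | hx | hx
  · refine ⟨-x, by omega, Or.inr (Or.inr ?_)⟩
    have hxy : y = x := by omega
    rw [hxy, neg_neg]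
  · refine ⟨y, by omega, Or.inr (Or.inl ?_)⟩
    rw [hx]
  · refine ⟨x, by omega, Or.inl ?_⟩
    have hy : y = 0 := by omega
    rw [hy]

theorem c1b {T : Finset (ℤ × ℤ)} (hT : TyP T) (hsym : ∀ t ∈ T, -t ∈ T → t = 0)
    (h1 : ((1, 0) : ℤ × ℤ) ∈ T) (h2 : ((0, 1) : ℤ × ℤ) ∈ T) (h3 : ((-1, -1) : ℤ × ℤ) ∈ T) :
    False := by
  obtain ⟨q, hq, hmin, d₁, d₂, m, hd1, hd2, hm1, hm2, hcone⟩ := hT.vert (0, -1)
  have hq2 : 1 ≤ q.2 := by
    have h4 := hmin _ h2
    norm_num at h4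
    exact_mod_cast h4
  obtain ⟨k, hk0, hk | hk | hk⟩ := rays hT hsym h1 h2 h3 hq
  · rw [hk] at hq2
    norm_num at hq2
  · have hk1 : 1 ≤ k := by rw [hk] at hq2; exact hq2
    have hqa : q.1 = 0 := by rw [hk]
    have hqb : q.2 = k := by rw [hk]
    have hqa' : (q.1 : ℝ) = 0 := by rw [hqa]; norm_num
    have hqb' : (q.2 : ℝ) = k := by rw [hqb]
    have hm1' : (m.1 : ℝ) * d₁.1 + m.2 * d₁.2 = 1 := by exact_mod_cast hm1
    have hm2' : (m.1 : ℝ) * d₂.1 + m.2 * d₂.2 = 1 := by exact_mod_cast hm2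
    have hk1' : (1 : ℝ) ≤ k := by exact_mod_cast hk1
    -- `m₂ < 0`
    have hm : m.2 ≤ -1 := by
      obtain ⟨s, r, hs, hr, e1, e2⟩ := hcone _ hT.zero
      have e1' : (0 : ℝ) = q.1 + s * d₁.1 + r * d₂.1 := by simpa using e1
      have e2' : (0 : ℝ) = q.2 + s * d₁.2 + r * d₂.2 := by simpa using e2
      rw [hqa'] at e1'
      rw [hqb'] at e2'
      have e3 : (m.2 : ℝ) * k = -(s + r) := by
        linear_combination -(m.1 : ℝ) * e1' - (m.2 : ℝ) * e2' - s * hm1' - r * hm2'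
      have e4 : 0 < s + r := by
        rcases lt_or_eq_of_le (add_nonneg hs hr) with h | h
        · exact h
        · have hs0 : s = 0 := by linarith
          have hr0 : r = 0 := by linarith
          rw [hs0, hr0] at e2'
          linarith
      have e5 : (m.2 : ℝ) < 0 := by
        by_contra hcon
        push Not at hcon
        have := mul_nonneg hcon (by linarith : (0 : ℝ) ≤ k)
        linarith
      have e6 : m.2 < 0 := by exact_mod_cast e5
      omega
    have hmk : m.2 * k + 1 ≤ 0 := by nlinarith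
    -- one direction with positive first coordinate
    have key1 : ∀ d : ℤ × ℤ, q + d ∈ T → m.1 * d.1 + m.2 * d.2 = 1 → 0 < d.1 → m.1 ≤ 0 := by
      intro d hd hmd hpos
      obtain ⟨i, hi0, hi | hi | hi⟩ := rays hT hsym h1 h2 h3 hd
      · have e1 : q.1 + d.1 = i := congrArg Prod.fst hi
        have e2 : q.2 + d.2 = 0 := congrArg Prod.snd hi
        rw [hqa, zero_add] at e1
        rw [hqb] at e2
        have e3 : m.1 * i = m.2 * k + 1 := by
          rw [← hmd, ← e1]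
          linear_combination (-m.2) * e2
        by_contra hcon
        push Not at hcon
        have : 0 < m.1 * i := mul_pos hcon (by omega)
        omega
      · have e1 : q.1 + d.1 = 0 := congrArg Prod.fst hi
        rw [hqa, zero_add] at e1
        omega
      · have e1 : q.1 + d.1 = -i := congrArg Prod.fst hi
        rw [hqa, zero_add] at e1
        omega
    have key2 : ∀ d : ℤ × ℤ, q + d ∈ T → m.1 * d.1 + m.2 * d.2 = 1 → d.1 < 0 → 1 ≤ m.1 := by
      intro d hd hmd hneg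
      obtain ⟨i, hi0, hi | hi | hi⟩ := rays hT hsym h1 h2 h3 hd
      · have e1 : q.1 + d.1 = i := congrArg Prod.fst hi
        rw [hqa, zero_add] at e1
        omega
      · have e1 : q.1 + d.1 = 0 := congrArg Prod.fst hi
        rw [hqa, zero_add] at e1
        omega
      · have e1 : q.1 + d.1 = -i := congrArg Prod.fst hi
        have e2 : q.2 + d.2 = -i := congrArg Prod.snd hi
        rw [hqa, zero_add] at e1
        rw [hqb] at e2
        have hi1 : 1 ≤ i := by omega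
        have e3 : -(m.1 + m.2) * i = m.2 * k + 1 := by
          rw [← hmd]
          linear_combination (-m.1) * e1 - (m.2) * e2
        have e4 : 0 ≤ m.1 + m.2 := by
          by_contra hcon
          push Not at hcon
          have : 0 < -(m.1 + m.2) * i := mul_pos (by omega) (by omega)
          omega
        omega
    have f1 : m.1 ≤ 0 := by
      obtain ⟨s, r, hs, hr, e1, -⟩ := hcone _ h1
      have e1' : (1 : ℝ) = s * d₁.1 + r * d₂.1 := by
        have : ((1 : ℤ) : ℝ) = q.1 + s * d₁.1 + r * d₂.1 := e1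
        rw [hqa', zero_add] at this
        exact_mod_cast this
      by_cases g1 : 0 < d₁.1
      · exact key1 _ hd1 hm1 g1
      · by_cases g2 : 0 < d₂.1
        · exact key1 _ hd2 hm2 g2
        · exfalso
          have g1' : (d₁.1 : ℝ) ≤ 0 := by exact_mod_cast not_lt.mp g1
          have g2' : (d₂.1 : ℝ) ≤ 0 := by exact_mod_cast not_lt.mp g2
          have := mul_nonneg hs (neg_nonneg.mpr g1')
          have := mul_nonneg hr (neg_nonneg.mpr g2')
          linarith
    have f2 : 1 ≤ m.1 := by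
      obtain ⟨s, r, hs, hr, e1, -⟩ := hcone _ h3
      have e1' : (-1 : ℝ) = s * d₁.1 + r * d₂.1 := by
        have : ((-1 : ℤ) : ℝ) = q.1 + s * d₁.1 + r * d₂.1 := e1
        rw [hqa', zero_add] at this
        exact_mod_cast this
      by_cases g1 : d₁.1 < 0
      · exact key2 _ hd1 hm1 g1
      · by_cases g2 : d₂.1 < 0
        · exact key2 _ hd2 hm2 g2
        · exfalso
          have g1' : (0 : ℝ) ≤ d₁.1 := by exact_mod_cast not_lt.mp g1
          have g2' : (0 : ℝ) ≤ d₂.1 := by exact_mod_cast not_lt.mp g2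
          have := mul_nonneg hs g1'
          have := mul_nonneg hr g2'
          linarith
    omega
  · rw [hk] at hq2
    have : 1 ≤ -k := hq2
    omega

theorem c1 {T : Finset (ℤ × ℤ)} (hT : TyP T) : ∃ t ∈ T, -t ∈ T ∧ t ≠ 0 := by
  by_contra hcon
  push Not at hcon
  obtain ⟨x, hx, y, hy, hxy, hdet⟩ := c1a hT hcon
  have hD : y.2 * x.1 - -y.1 * -x.2 = 1 := by linear_combination hdet
  have hT' := hT.map y.2 (-y.1) (-x.2) x.1 (Or.inl hD)
  refine c1b hT' ?_ ?_ ?_ ?_
  · intro t ht ht'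
    obtain ⟨u, hu, rfl⟩ := Finset.mem_image.mp ht
    obtain ⟨w, hw, hwu⟩ := Finset.mem_image.mp ht'
    have e1 : y.2 * w.1 + -y.1 * w.2 = -(y.2 * u.1 + -y.1 * u.2) := congrArg Prod.fst hwu
    have e2 : -x.2 * w.1 + x.1 * w.2 = -(-x.2 * u.1 + x.1 * u.2) := congrArg Prod.snd hwu
    have e3 : w = -u := by
      apply Prod.ext
      · rw [Prod.fst_neg]
        linear_combination x.1 * e1 + y.1 * e2 - (w.1 + u.1) * hdet
      · rw [Prod.snd_neg]
        linear_combination x.2 * e1 + y.2 * e2 - (w.2 + u.2) * hdet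
    rw [e3] at hw
    have e4 := hcon u hu hw
    rw [e4]
    simp
  · refine Finset.mem_image.mpr ⟨x, hx, ?_⟩
    apply Prod.ext
    · dsimp only
      linear_combination hdet
    · dsimp only
      ring
  · refine Finset.mem_image.mpr ⟨y, hy, ?_⟩
    apply Prod.ext
    · dsimp only
      ring
    · dsimp only
      linear_combination hdet
  · refine Finset.mem_image.mpr ⟨-x - y, hxy, ?_⟩
    apply Prod.ext
    · simp only [Prod.fst_sub, Prod.fst_neg, Prod.snd_sub, Prod.snd_neg]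
      linear_combination -hdet
    · simp only [Prod.fst_sub, Prod.fst_neg, Prod.snd_sub, Prod.snd_neg]
      linear_combination -hdet

end Helper20.NU
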