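import Pool.Agent.Helper31.Ewald.Long1

/-!
Nill's conjecture in dimension three when `0` has lattice distance one from some facet: shared
definitions of the folder `Helper20/NU`.

`P ⊂ ℝ³` is a smooth lattice polytope with `0` in its interior and `p` is an integer functional
with minimum `-1` over `P`; `F = {x ∈ P | p x = -1}` is the facet, `R = {x ∈ P | p x = 0}` is the
slice, level one means `p x = 1`.
-/

namespace Helper20.NU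

open Matrix Set Helper31.Ewald

/-- Local data at a vertex of a lattice polytope: `e` are the primitive edge vectors, `f` is the
dual basis. -/
structure Vt {n : ℕ} (P : Set (Fin n → ℝ)) (v : Fin n → ℤ) (e f : Fin n → Fin n → ℤ) : Prop where
  fe : ∀ j l, f j ⬝ᵥ e l = if j = l then 1 else 0
  expR : ∀ x : Fin n → ℝ, x = ∑ l, (toR (f l) ⬝ᵥ x) • toR (e l)
  expZ : ∀ u : Fin n → ℤ, u = ∑ l, (u ⬝ᵥ e l) • f l
  ext : toR v ∈ P.extremePoints ℝ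
  edge : ∀ j, toR (v + e j) ∈ P
  two : ∀ j, toR (v + e j + e j) ∈ P ∨ toR (v + e j) ∈ P.extremePoints ℝ
  cone : ∀ l, ∀ x ∈ P, ((f l ⬝ᵥ v : ℤ) : ℝ) ≤ toR (f l) ⬝ᵥ x

/-- Local data at a vertex `v` of the facet `F = {p = -1}` of `P ⊂ ℝ³`: `a`, `b` are the edge
vectors at `v` in `F`, `g` is the edge vector leaving `F`, and `fa`, `fb`, `p` is the dual basis of
`a`, `b`, `g`. -/
structure FV (P : Set (Fin 3 → ℝ)) (p v a b g fa fb : Fin 3 → ℤ) : Prop where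
  pv : p ⬝ᵥ v = -1
  pa : p ⬝ᵥ a = 0
  pb : p ⬝ᵥ b = 0
  pg : p ⬝ᵥ g = 1
  faa : fa ⬝ᵥ a = 1
  fab : fa ⬝ᵥ b = 0
  fag : fa ⬝ᵥ g = 0
  fba : fb ⬝ᵥ a = 0
  fbb : fb ⬝ᵥ b = 1
  fbg : fb ⬝ᵥ g = 0
  expR : ∀ x : Fin 3 → ℝ,
    x = (toR fa ⬝ᵥ x) • toR a + (toR fb ⬝ᵥ x) • toR b + (toR p ⬝ᵥ x) • toR g
  expZ : ∀ x : Fin 3 → ℤ, x = (fa ⬝ᵥ x) • a + (fb ⬝ᵥ x) • b + (p ⬝ᵥ x) • g
  ext : toR v ∈ P.extremePoints ℝ
  mema : toR (v + a) ∈ P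
  memb : toR (v + b) ∈ P
  memg : toR (v + g) ∈ P
  two : toR (v + g + g) ∈ P ∨ toR (v + g) ∈ P.extremePoints ℝ
  conea : ∀ x ∈ P, ((fa ⬝ᵥ v : ℤ) : ℝ) ≤ toR fa ⬝ᵥ x
  coneb : ∀ x ∈ P, ((fb ⬝ᵥ v : ℤ) : ℝ) ≤ toR fb ⬝ᵥ x
  nega : fa ⬝ᵥ v ≤ -1
  negb : fb ⬝ᵥ v ≤ -1

variable {P : Set (Fin 3 → ℝ)} {p v a b g fa fb : Fin 3 → ℤ}

theorem FV.mem (h : FV P p v a b g fa fb) : toR v ∈ P := h.ext.1

/-- The data is symmetric in `a` and `b`. -/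
theorem FV.swap (h : FV P p v a b g fa fb) : FV P p v b a g fb fa where
  pv := h.pv
  pa := h.pb
  pb := h.pa
  pg := h.pg
  faa := h.fbb
  fab := h.fba
  fag := h.fbg
  fba := h.fab
  fbb := h.faa
  fbg := h.fag
  expR := fun x => by
    conv_lhs => rw [h.expR x]
    abel
  expZ := fun x => by
    conv_lhs => rw [h.expZ x]
    abel
  ext := h.ext
  mema := h.memb
  memb := h.mema
  memg := h.memg
  two := h.two
  conea := h.coneb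
  coneb := h.conea
  nega := h.negb
  negb := h.nega

/-- a real functional in the dual basis -/
theorem FV.dotR (h : FV P p v a b g fa fb) (c x : Fin 3 → ℝ) :
    c ⬝ᵥ x = (toR fa ⬝ᵥ x) * (c ⬝ᵥ toR a) + (toR fb ⬝ᵥ x) * (c ⬝ᵥ toR b) +
      (toR p ⬝ᵥ x) * (c ⬝ᵥ toR g) := by
  conv_lhs => rw [h.expR x]
  simp only [dotProduct_add, dotProduct_smul, smul_eq_mul]

/-- an integer functional in the dual basis -/
theorem FV.dotZ (h : FV P p v a b g fa fb) (c x : Fin 3 → ℤ) :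
    c ⬝ᵥ x = (fa ⬝ᵥ x) * (c ⬝ᵥ a) + (fb ⬝ᵥ x) * (c ⬝ᵥ b) + (p ⬝ᵥ x) * (c ⬝ᵥ g) := by
  conv_lhs => rw [h.expZ x]
  simp only [dotProduct_add, dotProduct_smul, smul_eq_mul]

/-- three coordinates determine an integer vector -/
theorem FV.eqZ (h : FV P p v a b g fa fb) {x y : Fin 3 → ℤ} (h1 : fa ⬝ᵥ x = fa ⬝ᵥ y)
    (h2 : fb ⬝ᵥ x = fb ⬝ᵥ y) (h3 : p ⬝ᵥ x = p ⬝ᵥ y) : x = y := by
  rw [h.expZ x, h.expZ y, h1, h2, h3]

/-- planar lattice points as real points -/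
def tR (z : ℤ × ℤ) : ℝ × ℝ := ((z.1 : ℝ), (z.2 : ℝ))

/-- the lattice polygon spanned by `T` -/
def cv (T : Finset (ℤ × ℤ)) : Set (ℝ × ℝ) := convexHull ℝ (tR '' (T : Set (ℤ × ℤ)))

/-- `T` is the set of all lattice points of the lattice polygon `cv T`, which has `0` in its
interior (every nonzero functional is negative somewhere on `T`), and every functional attains its
minimum over `T` at a point `q` at which there are directions `d₁`, `d₂` and an integer functional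
`m` with `q + d₁`, `q + d₂ ∈ T`, `m d₁ = m d₂ = 1` and `T ⊂ q + cone (d₁, d₂)`. -/
structure TyP (T : Finset (ℤ × ℤ)) : Prop where
  sat : ∀ z : ℤ × ℤ, tR z ∈ cv T → z ∈ T
  zero : (0 : ℤ × ℤ) ∈ T
  neg : ∀ c : ℝ × ℝ, c ≠ 0 → ∃ t ∈ T, c.1 * t.1 + c.2 * t.2 < 0
  vert : ∀ c : ℝ × ℝ, ∃ q ∈ T, (∀ t ∈ T, c.1 * q.1 + c.2 * q.2 ≤ c.1 * t.1 + c.2 * t.2) ∧
    ∃ d₁ d₂ m : ℤ × ℤ, q + d₁ ∈ T ∧ q + d₂ ∈ T ∧ m.1 * d₁.1 + m.2 * d₁.2 = 1 ∧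
      m.1 * d₂.1 + m.2 * d₂.2 = 1 ∧
      ∀ t ∈ T, ∃ s r : ℝ, 0 ≤ s ∧ 0 ≤ r ∧ (t.1 : ℝ) = q.1 + s * d₁.1 + r * d₂.1 ∧
        (t.2 : ℝ) = q.2 + s * d₁.2 + r * d₂.2

end Helper20.NU
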