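import Pool.Agent.Helper20.NU.Vert

/-!
NU-3. The edge leaving the facet `{p = -1}` at its vertex `v`: either it has lattice length at
least two, or it ends at the vertex `w = v + g` of level zero, whose three edge vectors are `-g`,
`a + ga g`, `b + gb g`.

PROOF. By `hF.two` assume that `w = v + g` is an extreme point of `P` and that
`toR (v + g + g) ∉ P`; note that also `w + k g ∉ P` for all integers `k ≥ 1` (convexity). Let
`Vt P w e f` (`exists_vt`). Put `m_j = fa e_j`, `n_j = fb e_j`; both are `≥ 0`, since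
`fa (w + e_j) ≥ fa v = fa w`. Also `c_j := f_j (-g) = f_j v - f_j w ≥ 0` (cone at `w`, `v ∈ P`).
Since `0 = fa (-g) = ∑ c_j m_j` and `0 = ∑ c_j n_j` and `-g ≠ 0`, there is a `j` with `c_j ≥ 1`,
and then `m_j = n_j = 0`, so `e_j = (p e_j) g` (`FV.expZ`); `f_j e_j = 1` gives
`(p e_j) (f_j g) = 1`, with `f_j g = -c_j ≤ -1`: so `p e_j = -1`, `e_j = -g`.
Let `k`, `l` be the two other indices. `f_k g = - f_k e_j = 0` and `f_l g = 0`, so
`f_k a = f_k (v + a) - f_k v = f_k (v + a) - f_k w ≥ 0`, and in the same way `f_k b, f_l a,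
f_l b ≥ 0`. The matrices `M = (m_k, m_l; n_k, n_l)` and `N = (f_k a, f_k b; f_l a, f_l b)` are
inverse to each other: `e_k = m_k a + n_k b + (p e_k) g` (`FV.expZ`), so
`1 = f_k e_k = m_k f_k a + n_k f_k b`, `0 = f_l e_k = m_k f_l a + n_k f_l b`, etc. Nonnegative
integers: so `M` is a permutation matrix: either `m_k = 1, n_k = 0, m_l = 0, n_l = 1` or
`m_k = 0, n_k = 1, m_l = 1, n_l = 0`. In the first case `e_k = a + ga g`, `e_l = b + gb g` with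
`ga = p e_k`, `gb = p e_l`; in the second case exchange `k` and `l`. `w + e_k`, `w + e_l ∈ P` gives
the memberships, and `ga ≥ -1`, `gb ≥ -1` since `p ≥ -1` on `P` and `p w = 0`.
The functional `f_j` is `-p + ga fa + gb fb` (both take the values `1, 0, 0` on
`e_j, e_k, e_l`; or compute `f_j x = f_j ((fa x) a + (fb x) b + (p x) g)` with
`f_j a = f_j (e_k - ga g) = ga`, `f_j b = gb`, `f_j g = -1`). It is minimal over `P` at `w`, where
`p w = 0`, `fa w = fa v`, `fb w = fb v`: this is the last claim. Finally evaluate this inequality at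
a point of `P` where `f_j` is negative (`exists_neg`; `f_j ≠ 0`): the integer
`ga (fa v) + gb (fb v)` is negative; `fa v, fb v ≤ -1`, so `ga ≥ 1` or `gb ≥ 1`.
-/

namespace Helper20.NU

open Matrix Set Helper31.Ewald

theorem FV.edge {P : Set (Fin 3 → ℝ)} (hP : IsSmoothPolytope P)
    (h0 : (0 : Fin 3 → ℝ) ∈ interior P) {p v a b g fa fb : Fin 3 → ℤ}
    (hp : ∀ x ∈ P, -1 ≤ toR p ⬝ᵥ x) (hF : FV P p v a b g fa fb) :
    toR (v + g + g) ∈ P ∨ ∃ ga gb : ℤ, -1 ≤ ga ∧ -1 ≤ gb ∧ (1 ≤ ga ∨ 1 ≤ gb) ∧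
      toR (v + g + a + ga • g) ∈ P ∧ toR (v + g + b + gb • g) ∈ P ∧
      ∀ x ∈ P, ((ga * (fa ⬝ᵥ v) + gb * (fb ⬝ᵥ v) : ℤ) : ℝ) ≤
        -(toR p ⬝ᵥ x) + ga * (toR fa ⬝ᵥ x) + gb * (toR fb ⬝ᵥ x) := by
  rcases hF.two with h2 | hw
  · exact Or.inl h2
  right
  obtain ⟨e, f, hV⟩ := exists_vt hP hw
  have pw : p ⬝ᵥ (v + g) = 0 := by rw [dotProduct_add, hF.pv, hF.pg]; norm_num
  have faw : fa ⬝ᵥ (v + g) = fa ⬝ᵥ v := by rw [dotProduct_add, hF.fag, add_zero]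
  have fbw : fb ⬝ᵥ (v + g) = fb ⬝ᵥ v := by rw [dotProduct_add, hF.fbg, add_zero]
  have hm : ∀ j, 0 ≤ fa ⬝ᵥ e j := by
    intro j
    have h1 := hF.conea _ (hV.edge j)
    rw [toR_dot] at h1
    have h2 : fa ⬝ᵥ v ≤ fa ⬝ᵥ (v + g + e j) := by exact_mod_cast h1
    rw [dotProduct_add, faw] at h2
    linarith
  have hn : ∀ j, 0 ≤ fb ⬝ᵥ e j := by
    intro j
    have h1 := hF.coneb _ (hV.edge j)
    rw [toR_dot] at h1
    have h2 : fb ⬝ᵥ v ≤ fb ⬝ᵥ (v + g + e j) := by exact_mod_cast h1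
    rw [dotProduct_add, fbw] at h2
    linarith
  have hcone : ∀ l, ∀ z : Fin 3 → ℤ, toR z ∈ P → f l ⬝ᵥ (v + g) ≤ f l ⬝ᵥ z := by
    intro l z hz
    have h1 := hV.cone l _ hz
    rw [toR_dot] at h1
    exact_mod_cast h1
  have hg : ∀ l, f l ⬝ᵥ g ≤ 0 := by
    intro l
    have h1 := hcone l v hF.mem
    rw [dotProduct_add] at h1
    linarith
  have hexp : ∀ u z : Fin 3 → ℤ, u ⬝ᵥ z = ∑ l, (u ⬝ᵥ e l) * (f l ⬝ᵥ z) := by
    intro u z
    conv_lhs => rw [hV.expZ u]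
    rw [sum_dotProduct]
    simp only [smul_dotProduct, smul_eq_mul]
  have zero_of : ∀ u : Fin 3 → ℤ, (∀ l, 0 ≤ u ⬝ᵥ e l) → u ⬝ᵥ g = 0 →
      ∀ l, (u ⬝ᵥ e l) * (f l ⬝ᵥ g) = 0 := by
    intro u hu hug l
    have h1 := hexp u g
    rw [hug] at h1
    have h2 : ∀ i ∈ (Finset.univ : Finset (Fin 3)), (u ⬝ᵥ e i) * (f i ⬝ᵥ g) ≤ 0 := fun i _ =>
      mul_nonpos_of_nonneg_of_nonpos (hu i) (hg i)
    exact (Finset.sum_eq_zero_iff_of_nonpos h2).1 h1.symm l (Finset.mem_univ l)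
  have hm0 := zero_of fa hm hF.fag
  have hn0 := zero_of fb hn hF.fbg
  obtain ⟨j, hj⟩ : ∃ j, f j ⬝ᵥ g ≠ 0 := by
    by_contra hcon
    push Not at hcon
    have h1 := hexp p g
    rw [hF.pg] at h1
    simp [hcon] at h1
  have mj : fa ⬝ᵥ e j = 0 := (mul_eq_zero.1 (hm0 j)).resolve_right hj
  have nj : fb ⬝ᵥ e j = 0 := (mul_eq_zero.1 (hn0 j)).resolve_right hj
  have ej : e j = (p ⬝ᵥ e j) • g := by
    have h1 := hF.expZ (e j)
    rw [mj, nj, zero_smul, zero_smul, zero_add, zero_add] at h1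
    exact h1
  have hpf : (p ⬝ᵥ e j) * (f j ⬝ᵥ g) = 1 := by
    have h1 := hV.fe j j
    rw [if_pos rfl, ej, dotProduct_smul, smul_eq_mul] at h1
    exact h1
  have hfg : f j ⬝ᵥ g = -1 := by
    rcases Int.isUnit_iff.1 (IsUnit.of_mul_eq_one_right _ hpf) with h | h
    · have := hg j
      omega
    · exact h
  have hpe : p ⬝ᵥ e j = -1 := by
    rw [hfg] at hpf
    omega
  rw [hpe, neg_one_smul] at ej
  -- the other two
  have hfz : ∀ l, l ≠ j → f l ⬝ᵥ g = 0 := by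
    intro l hl
    have h1 := hV.fe l j
    rw [if_neg hl, ej, dotProduct_neg] at h1
    linarith
  have hfa : ∀ l, l ≠ j → 0 ≤ f l ⬝ᵥ a := by
    intro l hl
    have h1 := hcone l _ hF.mema
    rw [dotProduct_add, dotProduct_add, hfz l hl] at h1
    linarith
  have hfb : ∀ l, l ≠ j → 0 ≤ f l ⬝ᵥ b := by
    intro l hl
    have h1 := hcone l _ hF.memb
    rw [dotProduct_add, dotProduct_add, hfz l hl] at h1
    linarith
  have hfe : ∀ i l, i ≠ j → f i ⬝ᵥ e l = (fa ⬝ᵥ e l) * (f i ⬝ᵥ a) + (fb ⬝ᵥ e l) * (f i ⬝ᵥ b) := by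
    intro i l hi
    have h1 := hF.dotZ (f i) (e l)
    rw [hfz i hi, mul_zero, add_zero] at h1
    exact h1
  -- the final step from a labelled pair
  have main : ∀ k l, j ≠ k → j ≠ l → k ≠ l → fa ⬝ᵥ e k = 1 → fb ⬝ᵥ e k = 0 → fa ⬝ᵥ e l = 0 →
      fb ⬝ᵥ e l = 1 → ∃ ga gb : ℤ, -1 ≤ ga ∧ -1 ≤ gb ∧ (1 ≤ ga ∨ 1 ≤ gb) ∧
      toR (v + g + a + ga • g) ∈ P ∧ toR (v + g + b + gb • g) ∈ P ∧
      ∀ x ∈ P, ((ga * (fa ⬝ᵥ v) + gb * (fb ⬝ᵥ v) : ℤ) : ℝ) ≤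
        -(toR p ⬝ᵥ x) + ga * (toR fa ⬝ᵥ x) + gb * (toR fb ⬝ᵥ x) := by
    intro k l hjk hjl hkl k1 k2 l1 l2
    have ek : e k = a + (p ⬝ᵥ e k) • g := by
      have h1 := hF.expZ (e k)
      rw [k1, k2, zero_smul, one_smul, add_zero] at h1
      exact h1
    have el : e l = b + (p ⬝ᵥ e l) • g := by
      have h1 := hF.expZ (e l)
      rw [l1, l2, zero_smul, one_smul, zero_add] at h1
      exact h1
    obtain ⟨ga, hga⟩ : ∃ ga, ga = p ⬝ᵥ e k := ⟨_, rfl⟩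
    obtain ⟨gb, hgb⟩ : ∃ gb, gb = p ⬝ᵥ e l := ⟨_, rfl⟩
    have hmk := hV.edge k
    have hml := hV.edge l
    have hge : ∀ i, -1 ≤ p ⬝ᵥ e i := by
      intro i
      have h1 := hp _ (hV.edge i)
      rw [toR_dot, dotProduct_add, pw, zero_add] at h1
      exact_mod_cast h1
    have hu : f j = -p + ga • fa + gb • fb := by
      have h1 := hV.expZ (-p + ga • fa + gb • fb)
      have h2 : ∀ i, (-p + ga • fa + gb • fb) ⬝ᵥ e i =
          -(p ⬝ᵥ e i) + ga * (fa ⬝ᵥ e i) + gb * (fb ⬝ᵥ e i) := by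
        intro i
        simp only [add_dotProduct, neg_dotProduct, smul_dotProduct, smul_eq_mul]
      rw [sum3 _ hjk hjl hkl] at h1
      rw [h2, h2, h2, mj, nj, k1, k2, l1, l2, hpe, ← hga, ← hgb] at h1
      rw [h1]
      simp
    have hval : f j ⬝ᵥ (v + g) = ga * (fa ⬝ᵥ v) + gb * (fb ⬝ᵥ v) := by
      rw [hu]
      simp only [add_dotProduct, neg_dotProduct, smul_dotProduct, smul_eq_mul, pw, faw, fbw]
      ring
    have hvalR : ∀ x : Fin 3 → ℝ, toR (f j) ⬝ᵥ x =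
        -(toR p ⬝ᵥ x) + ga * (toR fa ⬝ᵥ x) + gb * (toR fb ⬝ᵥ x) := by
      intro x
      rw [hu, toR_add, toR_add, toR_neg, toR_smul, toR_smul]
      simp only [add_dotProduct, neg_dotProduct, smul_dotProduct, smul_eq_mul]
    refine ⟨ga, gb, by rw [hga]; exact hge k, by rw [hgb]; exact hge l, ?_, ?_, ?_, ?_⟩
    · have hfj : f j ≠ 0 := by
        intro h
        have h1 := hV.fe j j
        rw [h, zero_dotProduct, if_pos rfl] at h1
        exact absurd h1 (by norm_num)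
      obtain ⟨x, hx, hx0⟩ := exists_neg h0 hfj
      have h1 := hV.cone j x hx
      have h3 : ((f j ⬝ᵥ (v + g) : ℤ) : ℝ) < 0 := lt_of_le_of_lt h1 hx0
      have h4 : f j ⬝ᵥ (v + g) < 0 := by exact_mod_cast h3
      rw [hval] at h4
      by_contra hcon
      push Not at hcon
      have h5 : 0 ≤ ga * (fa ⬝ᵥ v) :=
        mul_nonneg_of_nonpos_of_nonpos (by omega) (by have := hF.nega; omega)
      have h6 : 0 ≤ gb * (fb ⬝ᵥ v) :=
        mul_nonneg_of_nonpos_of_nonpos (by omega) (by have := hF.negb; omega)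
      omega
    · rw [ek, ← hga] at hmk
      rw [add_assoc]
      exact hmk
    · rw [el, ← hgb] at hml
      rw [add_assoc]
      exact hml
    · intro x hx
      have h1 := hV.cone j x hx
      rw [hval, hvalR] at h1
      exact h1
  obtain ⟨k, l, hjk, hjl, hkl⟩ : ∃ k l : Fin 3, j ≠ k ∧ j ≠ l ∧ k ≠ l := by
    fin_cases j
    · exact ⟨1, 2, by decide, by decide, by decide⟩
    · exact ⟨0, 2, by decide, by decide, by decide⟩
    · exact ⟨0, 1, by decide, by decide, by decide⟩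
  have q1 := hfe k k hjk.symm
  have q2 := hfe l k hjl.symm
  have q3 := hfe k l hjk.symm
  have q4 := hfe l l hjl.symm
  rw [hV.fe, if_pos rfl] at q1 q4
  rw [hV.fe, if_neg hkl.symm] at q2
  rw [hV.fe, if_neg hkl] at q3
  have a1 := hm k
  have a2 := hn k
  have a3 := hm l
  have a4 := hn l
  have b1 := hfa k hjk.symm
  have b2 := hfb k hjk.symm
  have b3 := hfa l hjl.symm
  have b4 := hfb l hjl.symm
  obtain ⟨M1, hM1⟩ : ∃ M, M = fa ⬝ᵥ e k := ⟨_, rfl⟩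
  obtain ⟨M2, hM2⟩ : ∃ M, M = fb ⬝ᵥ e k := ⟨_, rfl⟩
  obtain ⟨M3, hM3⟩ : ∃ M, M = fa ⬝ᵥ e l := ⟨_, rfl⟩
  obtain ⟨M4, hM4⟩ : ∃ M, M = fb ⬝ᵥ e l := ⟨_, rfl⟩
  obtain ⟨N1, hN1⟩ : ∃ M, M = f k ⬝ᵥ a := ⟨_, rfl⟩
  obtain ⟨N2, hN2⟩ : ∃ M, M = f k ⬝ᵥ b := ⟨_, rfl⟩
  obtain ⟨N3, hN3⟩ : ∃ M, M = f l ⬝ᵥ a := ⟨_, rfl⟩
  obtain ⟨N4, hN4⟩ : ∃ M, M = f l ⬝ᵥ b := ⟨_, rfl⟩
  rw [← hM1] at a1 q1 q2
  rw [← hM2] at a2 q1 q2
  rw [← hM3] at a3 q3 q4
  rw [← hM4] at a4 q3 q4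
  rw [← hN1] at b1 q1 q3
  rw [← hN2] at b2 q1 q3
  rw [← hN3] at b3 q2 q4
  rw [← hN4] at b4 q2 q4
  have c1 := mul_nonneg a1 b1
  have c2 := mul_nonneg a2 b2
  have c3 := mul_nonneg a1 b3
  have c4 := mul_nonneg a2 b4
  have c5 := mul_nonneg a3 b1
  have c6 := mul_nonneg a4 b2
  have c7 := mul_nonneg a3 b3
  have c8 := mul_nonneg a4 b4
  have one_of : ∀ x y : ℤ, 0 ≤ x → x * y = 1 → x = 1 ∧ y = 1 := by
    intro x y hx hxy
    rcases Int.isUnit_iff.1 (IsUnit.of_mul_eq_one _ hxy) with h | h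
    · exact ⟨h, by rw [h, one_mul] at hxy; exact hxy⟩
    · omega
  rcases (by omega : M1 * N1 = 1 ∧ M2 * N2 = 0 ∨ M2 * N2 = 1 ∧ M1 * N1 = 0) with ⟨h1, h2⟩ | ⟨h1, h2⟩
  · obtain ⟨r1, r2⟩ := one_of _ _ a1 h1
    have r3 : M3 = 0 := by rw [r2, mul_one] at q3 c5; omega
    have r4 : M4 * N4 = 1 := by rw [r3, zero_mul, zero_add] at q4; exact q4.symm
    obtain ⟨r5, r6⟩ := one_of _ _ a4 r4
    have r7 : M2 = 0 := by
      rw [r6, mul_one] at q2
      omega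
    exact main k l hjk hjl hkl (by rw [← hM1, r1]) (by rw [← hM2, r7]) (by rw [← hM3, r3])
      (by rw [← hM4, r5])
  · obtain ⟨r1, r2⟩ := one_of _ _ a2 h1
    have r3 : M4 = 0 := by rw [r2, mul_one] at q3; omega
    have r4 : M3 * N3 = 1 := by rw [r3, zero_mul, add_zero] at q4; exact q4.symm
    obtain ⟨r5, r6⟩ := one_of _ _ a3 r4
    have r7 : M1 = 0 := by
      rw [r6, mul_one] at q2
      omega
    exact main l k hjl hjk hkl.symm (by rw [← hM3, r5]) (by rw [← hM4, r3]) (by rw [← hM1, r7])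
      (by rw [← hM2, r1])

end Helper20.NU
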