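import Pool.Agent.Helper20.NU.Vert

/-!
NU-5. Vertices of the facet `{p = -1}` minimising a real functional `c` over the facet.

PROOF of `exists_level`. By `hP.exists_vertex` there is an integer point `w` which is an extreme
point of `P` and minimises `p` over `P`; by `exists_neg` the minimum is negative and by `hp` it is
`≥ -1`; it is an integer, so it is `-1`.

PROOF of `exists_fmin`. `F = {x ∈ P | p x = -1}` is compact, convex and nonempty; `c` attains its
minimum over `F`; the set `F'` of minimisers is compact and nonempty, let `y` be an extreme point of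
`F'` (`IsCompact.extremePoints_nonempty`). `F'` is an extreme (exposed) subset of `F` and `F` one of
`P` (it is the set where `p` attains its minimum over `P`), so `y` is an extreme point of `P`
(`IsExtreme.trans`, `IsExtreme.extremePoints_subset_extremePoints`; see `exists_vertexR` in
`Helper31/Ewald/Long1.lean` for the way to use `toExposed`), hence `y = toR v`
(`IsSmoothPolytope.exists_toR`). `p v = -1`, and `exists_fv` gives the data.
(Alternative: choose the finite set `V` with `P = convexHull V`; take `N` large and minimise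
`c + N p` with `exists_vertexR`.)
-/

namespace Helper20.NU

open Matrix Set Helper31.Ewald

theorem exists_level {P : Set (Fin 3 → ℝ)} (hP : IsSmoothPolytope P)
    (h0 : (0 : Fin 3 → ℝ) ∈ interior P) {p : Fin 3 → ℤ} (hp0 : p ≠ 0)
    (hp : ∀ x ∈ P, -1 ≤ toR p ⬝ᵥ x) :
    ∃ w : Fin 3 → ℤ, toR w ∈ P.extremePoints ℝ ∧ p ⬝ᵥ w = -1 := by
  obtain ⟨w, hw⟩ := hP.exists_minVert ⟨0, interior_subset h0⟩
  refine ⟨w p, hw.ext p, le_antisymm (hw.le_neg_one h0 hp0) ?_⟩
  have h1 := hp _ (hw.mem p)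
  rw [toR_dot] at h1
  exact_mod_cast h1

theorem exists_fmin {P : Set (Fin 3 → ℝ)} (hP : IsSmoothPolytope P)
    (h0 : (0 : Fin 3 → ℝ) ∈ interior P) {p : Fin 3 → ℤ} (hp0 : p ≠ 0)
    (hp : ∀ x ∈ P, -1 ≤ toR p ⬝ᵥ x) (c : Fin 3 → ℝ) :
    ∃ v a b g fa fb, FV P p v a b g fa fb ∧
      ∀ x ∈ P, toR p ⬝ᵥ x = -1 → c ⬝ᵥ toR v ≤ c ⬝ᵥ x := by
  obtain ⟨w, hw, hpw⟩ := exists_level hP h0 hp0 hp
  let l : StrongDual ℝ (Fin 3 → ℝ) :=
    { toFun := fun x => -(toR p ⬝ᵥ x)
      map_add' := by intro x y; rw [dotProduct_add]; ring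
      map_smul' := by intro c x; rw [dotProduct_smul]; simp
      cont := (continuous_dot (toR p)).neg }
  have hl : ∀ x, l x = -(toR p ⬝ᵥ x) := fun x => rfl
  let m : StrongDual ℝ (Fin 3 → ℝ) :=
    { toFun := fun x => -(c ⬝ᵥ x)
      map_add' := by intro x y; rw [dotProduct_add]; ring
      map_smul' := by intro c x; rw [dotProduct_smul]; simp
      cont := (continuous_dot c).neg }
  have hm : ∀ x, m x = -(c ⬝ᵥ x) := fun x => rfl
  have hF : ∀ x, x ∈ l.toExposed P ↔ x ∈ P ∧ toR p ⬝ᵥ x = -1 := by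
    intro x
    constructor
    · rintro ⟨hx, hx'⟩
      refine ⟨hx, le_antisymm ?_ (hp x hx)⟩
      have h1 := hx' (toR w) hw.1
      rw [hl, hl, toR_dot, hpw] at h1
      push_cast at h1
      linarith
    · rintro ⟨hx, hx'⟩
      refine ⟨hx, fun y hy => ?_⟩
      rw [hl, hl, hx']
      linarith [hp y hy]
  have hexp : IsExposed ℝ P (l.toExposed P) := ContinuousLinearMap.toExposed.isExposed
  have hcomp : IsCompact (l.toExposed P) := hexp.isCompact hP.isCompact
  have hne : (l.toExposed P).Nonempty :=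
    ⟨toR w, (hF _).2 ⟨hw.1, by rw [toR_dot, hpw]; push_cast; rfl⟩⟩
  have hexp2 : IsExposed ℝ (l.toExposed P) (m.toExposed (l.toExposed P)) :=
    ContinuousLinearMap.toExposed.isExposed
  have hcomp2 : IsCompact (m.toExposed (l.toExposed P)) := hexp2.isCompact hcomp
  have hne2 : (m.toExposed (l.toExposed P)).Nonempty := by
    obtain ⟨x, hx, hx'⟩ := hcomp.exists_isMaxOn hne m.continuous.continuousOn
    exact ⟨x, hx, fun y hy => hx' hy⟩
  obtain ⟨y, hy⟩ := hcomp2.extremePoints_nonempty hne2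
  have hy1 := hexp2.isExtreme.extremePoints_subset_extremePoints hy
  have hy2 := hexp.isExtreme.extremePoints_subset_extremePoints hy1
  obtain ⟨v, rfl⟩ := hP.exists_toR hy2
  have hpv : p ⬝ᵥ v = -1 := by
    have h1 := ((hF _).1 hy1.1).2
    rw [toR_dot] at h1
    exact_mod_cast h1
  obtain ⟨a, b, g, fa, fb, hfv⟩ := exists_fv hP h0 hp0 hp hy2 hpv
  refine ⟨v, a, b, g, fa, fb, hfv, fun x hx hpx => ?_⟩
  have h1 := hy.1.2 x ((hF x).2 ⟨hx, hpx⟩)
  rw [hm, hm] at h1
  linarith

end Helper20.NU
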