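import Pool.Agent.Helper20.NU.Defs
import Pool.Agent.Helper90.NE.Planar

/-!
NU-16. The planar lemma, restated from `Pool/Agent/Helper90/NE/Planar.lean`.
-/

namespace Helper20.NU

open Matrix Set Helper31.Ewald

theorem planar (T S : Finset (ℤ × ℤ)) (hS : ∀ z : ℤ × ℤ, tR z ∈ cv S → z ∈ S)
    (hmeet : (cv T ∩ cv S).Nonempty)
    (hsec : ∀ c q : ℤ × ℤ, IsCoprime c.1 c.2 → q ∈ S → (q.1 + c.2, q.2 - c.1) ∈ S →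
      (∀ s ∈ S, c.1 * q.1 + c.2 * q.2 ≤ c.1 * s.1 + c.2 * s.2) →
      ∃ r : ℝ × ℝ, r ∈ cv T ∧ (r.1 + c.2, r.2 - c.1) ∈ cv T ∧
        ∀ t ∈ T, (c.1 * t.1 + c.2 * t.2 : ℝ) ≤ c.1 * r.1 + c.2 * r.2 + 1) :
    ∃ z ∈ S, tR z ∈ cv T :=
  Pool.Agent.Helper90.NE.planar T S hS hmeet hsec

end Helper20.NU
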