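import Pool.Agent.Helper20.NU.MinR

/-!
NU-8. The slice `R = {x ∈ P | p x = 0}` is the convex hull of its lattice points, and the lattice
points of `P` are finite in number.

PROOF of `finite_pts`. `P` is bounded (compact), so the coordinates of the integer points of `P` are
bounded: `{z | toR z ∈ P}` is contained in a finite box `Set.Icc` of `Fin n → ℤ`.

PROOF of `slice_hull`. `⊇`: `R` is convex. `⊆`: if `x ∈ R` is not in the convex hull `H` of the
(finite) set of the lattice points of `R`, then `H` is compact and convex, and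
`geometric_hahn_banach_point_closed` / `geometric_hahn_banach_closed_point` gives a continuous linear
functional, i.e. (coordinates `c i = l (Pi.single i 1)`) a vector `c` with `c x < c t` for all
`t ∈ H`. By `exists_rmin` there is a lattice point `q = v + g ∈ R` with `c q ≤ c x`: contradiction.

PROOF of `slice_ext`. An extreme point of the convex hull of a set belongs to the set
(`extremePoints_convexHull_subset`).
-/

namespace Helper20.NU

open Matrix Set Helper31.Ewald

theorem finite_pts {n : ℕ} {P : Set (Fin n → ℝ)} (hP : IsSmoothPolytope P) :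
    {z : Fin n → ℤ | toR z ∈ P}.Finite := by
  obtain ⟨R, hR⟩ := hP.isCompact.isBounded.subset_closedBall 0
  refine (Set.finite_Icc (fun _ : Fin n => -⌈R⌉) (fun _ => ⌈R⌉)).subset ?_
  intro z hz
  have h1 := hR hz
  rw [mem_closedBall_zero_iff] at h1
  have h2 : ∀ i, |(z i : ℝ)| ≤ R := fun i => (norm_le_pi_norm (toR z) i).trans h1
  rw [Set.mem_Icc]
  constructor
  · intro i
    have h3 := (abs_le.mp (h2 i)).1
    have h4 := Int.le_ceil R
    have h5 : ((-⌈R⌉ : ℤ) : ℝ) ≤ (z i : ℝ) := by push_cast; linarith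
    exact_mod_cast h5
  · intro i
    have h3 := (abs_le.mp (h2 i)).2
    have h4 := Int.le_ceil R
    have h5 : (z i : ℝ) ≤ ((⌈R⌉ : ℤ) : ℝ) := h3.trans h4
    exact_mod_cast h5

theorem slice_hull {P : Set (Fin 3 → ℝ)} (hP : IsSmoothPolytope P)
    (h0 : (0 : Fin 3 → ℝ) ∈ interior P) {p : Fin 3 → ℤ} (hp0 : p ≠ 0)
    (hp : ∀ x ∈ P, -1 ≤ toR p ⬝ᵥ x) :
    {x | x ∈ P ∧ toR p ⬝ᵥ x = 0} =
      convexHull ℝ (toR '' {z : Fin 3 → ℤ | toR z ∈ P ∧ p ⬝ᵥ z = 0}) := by
  apply Set.Subset.antisymm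
  · intro x hx
    by_contra hxH
    have hfin : (toR '' {z : Fin 3 → ℤ | toR z ∈ P ∧ p ⬝ᵥ z = 0}).Finite :=
      ((finite_pts hP).subset (fun z hz => hz.1)).image _
    obtain ⟨l, u, h1, h2⟩ := geometric_hahn_banach_point_closed (convex_convexHull ℝ _)
      (hfin.isClosed_convexHull (𝕜 := ℝ)) hxH
    have hl : ∀ y : Fin 3 → ℝ, (fun i => l (Pi.single i 1)) ⬝ᵥ y = l y := by
      intro y
      have h3 : y = ∑ i, y i • (Pi.single i (1 : ℝ) : Fin 3 → ℝ) := by
        funext j
        simp [Finset.sum_apply, Pi.single_apply]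
      conv_rhs => rw [h3]
      rw [map_sum]
      simp only [dotProduct, map_smul, smul_eq_mul]
      apply Finset.sum_congr rfl
      intro i _
      ring
    obtain ⟨v, a, b, g, fa, fb, hF, hm⟩ := exists_rmin hP h0 hp0 hp (fun i => l (Pi.single i 1))
    have h4 := hm x hx.1 hx.2
    rw [hl, hl] at h4
    have h5 := h2 (toR (v + g)) (subset_convexHull ℝ _ ⟨v + g, ⟨hF.memg, by
      rw [dotProduct_add, hF.pv, hF.pg]; norm_num⟩, rfl⟩)
    linarith
  · apply convexHull_min
    · rintro _ ⟨z, hz, rfl⟩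
      refine ⟨hz.1, ?_⟩
      rw [toR_dot, hz.2]
      norm_num
    · intro x hx y hy s t hs ht hst
      refine ⟨hP.convex hx.1 hy.1 hs ht hst, ?_⟩
      rw [dotProduct_add, dotProduct_smul, dotProduct_smul, hx.2, hy.2]
      simp

theorem slice_ext {P : Set (Fin 3 → ℝ)} (hP : IsSmoothPolytope P)
    (h0 : (0 : Fin 3 → ℝ) ∈ interior P) {p : Fin 3 → ℤ} (hp0 : p ≠ 0)
    (hp : ∀ x ∈ P, -1 ≤ toR p ⬝ᵥ x) {y : Fin 3 → ℝ}
    (hy : y ∈ {x | x ∈ P ∧ toR p ⬝ᵥ x = 0}.extremePoints ℝ) :
    ∃ z : Fin 3 → ℤ, toR z = y := by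
  rw [slice_hull hP h0 hp0 hp] at hy
  obtain ⟨w, _, hw⟩ := extremePoints_convexHull_subset hy
  exact ⟨w, hw⟩

end Helper20.NU
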