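import Pool.Agent.Helper20.NU.Sec
import Pool.Agent.Helper20.NU.RHull
import Pool.Agent.Helper20.NU.Planar

/-!
NU-17. A lattice vector `z` of level one with `z, -z ∈ P`.

PROOF. Take data `v₀, a, b, g, fa, fb` at a vertex of the facet (`exists_level`, `exists_fv`). Planar
coordinates on the plane `{p = -1}`: `ψ (s, t) = s a + t b - g`, inverse `x ↦ (fa x, fb x)`.
`T` = the pairs with `toR (ψ (s, t)) ∈ P` (lattice points of the facet), `S` = the pairs with
`toR (-ψ (s, t)) ∈ P` (negatives of the lattice points of level one); both are finite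
(`finite_pts`: images of the finite set of lattice points `z` of `P` under `z ↦ ± (fa z, fb z)`,
with `p z = ∓ 1`). Apply `planar` (NU-16):
 `hS`: the affine map `(s, t) ↦ -ψ (s, t)` (real version) maps `cv S` into `P`.
 `hmeet`: otherwise the compact convex sets `cv T`, `cv S` can be strictly separated
(`geometric_hahn_banach_compact_closed`): there are real `c₁, c₂, κ` with `c < κ` on `T` and
`c > κ` on `S`, where `c (s, t) = c₁ s + c₂ t`. Let `c' = -(c₁ fa + c₂ fb)` (real functional on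
`ℝ³`). For `x` of level `-1` and `z` of level `1` in `P`: `(fa x, fb x) ∈ T`,
`(-fa z, -fb z) ∈ S`, so `c' x > -κ`, `c' z = -(c₁ fa z + c₂ fb z) = c (-fa z, -fb z) > κ`, the sum
is positive, contradicting `meet`.
 `hsec`: let `c = (c₁, c₂)` coprime, `q = (q₁, q₂) ∈ S`, `(q₁ + c₂, q₂ - c₁) ∈ S`, `c` minimal over
`S` at `q`. Put `z₁ = -ψ (q₁, q₂)`, `z₂ = -ψ (q₁ + c₂, q₂ - c₁) = z₁ - (c₂ a - c₁ b)`,
`C = -(c₁ fa + c₂ fb)`. For `z` of level one in `P`, `C z = c (-fa z, -fb z) ` is `≥ c q = C z₁`.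
`C z₂ = C z₁`. `z₂ - z₁ = -c₂ a + c₁ b`; by coprimality there is `k` (combination of `fa`, `fb`)
with `k (z₂ - z₁) = 1` and `y` (combination of `a`, `b`) with `C y = 1`. `sec` gives `r` of level
`-1` with `r, r + (z₂ - z₁) ∈ P` and `C r ≤ C t + 1` on the lattice points `t` of the facet. Put
`r' = r + (z₂ - z₁) = r - (c₂ a - c₁ b)`, in coordinates `ρ = (fa r', fb r')`; then
`(ρ₁ + c₂, ρ₂ - c₁)` are the coordinates of `r`. `c ρ = -C r' = -C r ≥ -C t - 1 = c (fa t, fb t) - 1`.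
 The conclusion `z ∈ S`, `tR z ∈ cv T` gives the vector `w = -ψ (z)`: `p w = 1`, `toR w ∈ P`, and
`-toR w = toR (ψ z) ∈ P` because the affine map `ψ` (real version) maps `cv T` into `P`.
-/

namespace Helper20.NU

open Matrix Set Helper31.Ewald

theorem level1 {P : Set (Fin 3 → ℝ)} (hP : IsSmoothPolytope P)
    (h0 : (0 : Fin 3 → ℝ) ∈ interior P) {p : Fin 3 → ℤ} (hp0 : p ≠ 0)
    (hp : ∀ x ∈ P, -1 ≤ toR p ⬝ᵥ x) :
    ∃ z : Fin 3 → ℤ, p ⬝ᵥ z = 1 ∧ toR z ∈ P ∧ -toR z ∈ P := by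
  classical
  obtain ⟨v₀, hv1, hv2⟩ := exists_level hP h0 hp0 hp
  obtain ⟨a, b, g, fa, fb, hF⟩ := exists_fv hP h0 hp0 hp hv1 hv2
  -- planar coordinates
  let ψ : ℤ × ℤ → (Fin 3 → ℤ) := fun s => s.1 • a + s.2 • b - g
  have hψ : ∀ s, ψ s = s.1 • a + s.2 • b - g := fun s => rfl
  have hfa : ∀ s, fa ⬝ᵥ ψ s = s.1 := by
    intro s
    rw [hψ, dotProduct_sub, dotProduct_add, dotProduct_smul, dotProduct_smul, hF.faa, hF.fab, hF.fag]
    simp
  have hfb : ∀ s, fb ⬝ᵥ ψ s = s.2 := by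
    intro s
    rw [hψ, dotProduct_sub, dotProduct_add, dotProduct_smul, dotProduct_smul, hF.fba, hF.fbb, hF.fbg]
    simp
  have hpψ : ∀ s, p ⬝ᵥ ψ s = -1 := by
    intro s
    rw [hψ, dotProduct_sub, dotProduct_add, dotProduct_smul, dotProduct_smul, hF.pa, hF.pb, hF.pg]
    simp
  have hinj : Function.Injective ψ := by
    intro s t h
    have h1 := hfa s
    have h2 := hfb s
    rw [h, hfa] at h1
    rw [h, hfb] at h2
    exact Prod.ext h1.symm h2.symm
  have hback : ∀ x : Fin 3 → ℤ, p ⬝ᵥ x = -1 → ψ (fa ⬝ᵥ x, fb ⬝ᵥ x) = x := by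
    intro x hx
    have h1 := hF.expZ x
    rw [hx, neg_one_smul] at h1
    rw [hψ]
    conv_rhs => rw [h1]
    rw [sub_eq_add_neg]
  have hback' : ∀ z : Fin 3 → ℤ, p ⬝ᵥ z = 1 → -ψ (-(fa ⬝ᵥ z), -(fb ⬝ᵥ z)) = z := by
    intro z hz
    have h1 := hF.expZ z
    rw [hz, one_smul] at h1
    rw [hψ]
    conv_rhs => rw [h1]
    dsimp only
    rw [neg_smul, neg_smul]
    abel
  have hfinT : {s : ℤ × ℤ | toR (ψ s) ∈ P}.Finite :=
    (finite_pts hP).preimage (f := ψ) hinj.injOn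
  have hfinS : {s : ℤ × ℤ | toR (-ψ s) ∈ P}.Finite :=
    (finite_pts hP).preimage (f := fun s => -ψ s) (fun s _ t _ h => hinj (neg_injective h))
  obtain ⟨T, hT⟩ : ∃ T : Finset (ℤ × ℤ), ∀ s, s ∈ T ↔ toR (ψ s) ∈ P :=
    ⟨hfinT.toFinset, fun s => by rw [Set.Finite.mem_toFinset]; exact Iff.rfl⟩
  obtain ⟨S, hS⟩ : ∃ S : Finset (ℤ × ℤ), ∀ s, s ∈ S ↔ toR (-ψ s) ∈ P :=
    ⟨hfinS.toFinset, fun s => by rw [Set.Finite.mem_toFinset]; exact Iff.rfl⟩
  -- the real version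
  let Ψ : ℝ × ℝ → (Fin 3 → ℝ) := fun w => w.1 • toR a + w.2 • toR b - toR g
  have hΨ : ∀ s, toR (ψ s) = Ψ (tR s) := by
    intro s
    rw [hψ, toR_sub, toR_add, toR_smul, toR_smul]
    rfl
  have hΨaff : ∀ (x y : ℝ × ℝ) (s t : ℝ), s + t = 1 → Ψ (s • x + t • y) = s • Ψ x + t • Ψ y := by
    intro x y s t hst
    funext i
    simp only [Ψ, Prod.fst_add, Prod.snd_add, Prod.smul_fst, Prod.smul_snd, Pi.sub_apply, Pi.add_apply,
      Pi.smul_apply, smul_eq_mul]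
    linear_combination (-toR g i) * (1 - hst)
  have hcvT : ∀ w ∈ cv T, Ψ w ∈ P := by
    have h1 : cv T ⊆ {w | Ψ w ∈ P} := by
      apply convexHull_min
      · rintro _ ⟨t, ht, rfl⟩
        show Ψ (tR t) ∈ P
        rw [← hΨ]
        exact (hT t).1 ht
      · intro x hx y hy s t hs ht hst
        show Ψ (s • x + t • y) ∈ P
        rw [hΨaff x y s t hst]
        exact hP.convex hx hy hs ht hst
    exact fun w hw => h1 hw
  have hcvS : ∀ w ∈ cv S, -Ψ w ∈ P := by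
    have h1 : cv S ⊆ {w | -Ψ w ∈ P} := by
      apply convexHull_min
      · rintro _ ⟨t, ht, rfl⟩
        show -Ψ (tR t) ∈ P
        rw [← hΨ, ← toR_neg]
        exact (hS t).1 ht
      · intro x hx y hy s t hs ht hst
        show -Ψ (s • x + t • y) ∈ P
        rw [hΨaff x y s t hst, neg_add, ← smul_neg, ← smul_neg]
        exact hP.convex hx hy hs ht hst
    exact fun w hw => h1 hw
  have hTx : ∀ x : Fin 3 → ℤ, toR x ∈ P → p ⬝ᵥ x = -1 → (fa ⬝ᵥ x, fb ⬝ᵥ x) ∈ T := by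
    intro x h1 h2
    rw [hT, hback x h2]
    exact h1
  have hSz : ∀ z : Fin 3 → ℤ, toR z ∈ P → p ⬝ᵥ z = 1 → (-(fa ⬝ᵥ z), -(fb ⬝ᵥ z)) ∈ S := by
    intro z h1 h2
    rw [hS, hback' z h2]
    exact h1
  have hcT : ∀ s ∈ T, tR s ∈ cv T := fun s hs => subset_convexHull ℝ _ ⟨s, hs, rfl⟩
  have hcS : ∀ s ∈ S, tR s ∈ cv S := fun s hs => subset_convexHull ℝ _ ⟨s, hs, rfl⟩
  obtain ⟨z, hz1, hz2⟩ := planar T S (fun z hz => by
    rw [hS, toR_neg, hΨ]
    exact hcvS _ hz) (by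
    by_contra hcon
    have hdis : Disjoint (cv T) (cv S) := by
      rw [Set.disjoint_iff_inter_eq_empty]
      exact Set.not_nonempty_iff_eq_empty.1 hcon
    have hcomT : IsCompact (cv T) := ((T.finite_toSet).image _).isCompact_convexHull ℝ
    have hcomS : IsCompact (cv S) := ((S.finite_toSet).image _).isCompact_convexHull ℝ
    obtain ⟨f, u, w, hfu, huw, hfw⟩ := geometric_hahn_banach_compact_closed
      (convex_convexHull ℝ _) hcomT (convex_convexHull ℝ _) hcomS.isClosed hdis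
    have hf : ∀ q : ℝ × ℝ, f q = q.1 * f (1, 0) + q.2 * f (0, 1) := by
      intro q
      have h1 : q = q.1 • ((1, 0) : ℝ × ℝ) + q.2 • ((0, 1) : ℝ × ℝ) := by
        ext <;> simp
      conv_lhs => rw [h1, map_add, map_smul, map_smul]
      rfl
    obtain ⟨x, z, hx, hpx, hz, hpz, hsum⟩ := meet hP h0 hp0 hp
      (-(f (1, 0) • toR fa + f (0, 1) • toR fb))
    have hval : ∀ y : Fin 3 → ℤ, (-(f (1, 0) • toR fa + f (0, 1) • toR fb)) ⬝ᵥ toR y =
        -(((fa ⬝ᵥ y : ℤ) : ℝ) * f (1, 0) + ((fb ⬝ᵥ y : ℤ) : ℝ) * f (0, 1)) := by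
      intro y
      rw [neg_dotProduct, add_dotProduct, smul_dotProduct, smul_dotProduct, toR_dot, toR_dot,
        smul_eq_mul, smul_eq_mul]
      ring
    rw [hval, hval] at hsum
    have h1 := hfu _ (hcT _ (hTx x hx hpx))
    have h2 := hfw _ (hcS _ (hSz z hz hpz))
    rw [hf] at h1 h2
    simp only [tR] at h1 h2
    push_cast at h1 h2
    linarith) (by
    intro c q hc hq hq2 hqmin
    have hC : ∀ y : Fin 3 → ℤ, (-(c.1 • fa + c.2 • fb)) ⬝ᵥ y = -(c.1 * (fa ⬝ᵥ y) + c.2 * (fb ⬝ᵥ y)) := by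
      intro y
      rw [neg_dotProduct, add_dotProduct, smul_dotProduct, smul_dotProduct, smul_eq_mul, smul_eq_mul]
    have hz12 : -ψ (q.1 + c.2, q.2 - c.1) - -ψ q = c.1 • b - c.2 • a := by
      rw [hψ, hψ]
      dsimp only
      rw [add_smul, sub_smul]
      abel
    obtain ⟨k, l, hkl⟩ := hc
    obtain ⟨r, hr1, hr2, hpr, hr⟩ := sec hP h0 hp0 hp (C := -(c.1 • fa + c.2 • fb)) (z₁ := -ψ q)
      (z₂ := -ψ (q.1 + c.2, q.2 - c.1)) ((hS _).1 hq) ((hS _).1 hq2)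
      (by rw [dotProduct_neg, hpψ]; rfl) (by rw [dotProduct_neg, hpψ]; rfl)
      ⟨k • fb - l • fa, by
        rw [hz12, dotProduct_sub, dotProduct_smul, dotProduct_smul, sub_dotProduct, sub_dotProduct,
          smul_dotProduct, smul_dotProduct, smul_dotProduct, smul_dotProduct, hF.faa, hF.fab, hF.fba,
          hF.fbb]
        simp only [smul_eq_mul]
        linear_combination hkl⟩
      ⟨-(k • a + l • b), by
        rw [dotProduct_neg, dotProduct_add, dotProduct_smul, dotProduct_smul, hF.pa, hF.pb]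
        simp, by
        rw [hC, dotProduct_neg, dotProduct_neg, dotProduct_add, dotProduct_add, dotProduct_smul,
          dotProduct_smul, dotProduct_smul, dotProduct_smul, hF.faa, hF.fab, hF.fba, hF.fbb]
        simp only [smul_eq_mul]
        linear_combination hkl⟩
      (by
        rw [hC, hC, dotProduct_neg, dotProduct_neg, dotProduct_neg, dotProduct_neg, hfa, hfb, hfa, hfb]
        ring)
      (by
        intro z hz hpz
        have h1 := hqmin _ (hSz z hz hpz)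
        rw [hC, hC, dotProduct_neg, dotProduct_neg, hfa, hfb]
        linarith)
    rw [hz12] at hr2
    have hpr2 : p ⬝ᵥ (r + (c.1 • b - c.2 • a)) = -1 := by
      rw [dotProduct_add, dotProduct_sub, dotProduct_smul, dotProduct_smul, hF.pa, hF.pb, hpr]
      simp
    have ha' : fa ⬝ᵥ (r + (c.1 • b - c.2 • a)) = fa ⬝ᵥ r - c.2 := by
      rw [dotProduct_add, dotProduct_sub, dotProduct_smul, dotProduct_smul, hF.faa, hF.fab]
      simp only [smul_eq_mul]
      ring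
    have hb' : fb ⬝ᵥ (r + (c.1 • b - c.2 • a)) = fb ⬝ᵥ r + c.1 := by
      rw [dotProduct_add, dotProduct_sub, dotProduct_smul, dotProduct_smul, hF.fba, hF.fbb]
      simp only [smul_eq_mul]
      ring
    have h1 := hcT _ (hTx _ hr2 hpr2)
    have h2 := hcT _ (hTx _ hr1 hpr)
    rw [ha', hb'] at h1
    refine ⟨_, h1, ?_, ?_⟩
    · have h3 : ((tR (fa ⬝ᵥ r - c.2, fb ⬝ᵥ r + c.1)).1 + (c.2 : ℝ),
          (tR (fa ⬝ᵥ r - c.2, fb ⬝ᵥ r + c.1)).2 - (c.1 : ℝ)) = tR (fa ⬝ᵥ r, fb ⬝ᵥ r) := by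
        simp only [tR]
        push_cast
        ext
        · ring
        · ring
      rw [h3]
      exact h2
    · intro t ht
      have h4 := hr (ψ t) ((hT t).1 ht) (hpψ t)
      rw [hC, hC, hfa, hfb] at h4
      have h5 : c.1 * t.1 + c.2 * t.2 ≤ c.1 * (fa ⬝ᵥ r - c.2) + c.2 * (fb ⬝ᵥ r + c.1) + 1 := by
        linarith
      have h6 : ((c.1 * t.1 + c.2 * t.2 : ℤ) : ℝ) ≤
          ((c.1 * (fa ⬝ᵥ r - c.2) + c.2 * (fb ⬝ᵥ r + c.1) + 1 : ℤ) : ℝ) := by exact_mod_cast h5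
      simp only [tR]
      push_cast at h6 ⊢
      exact h6)
  refine ⟨-ψ z, ?_, (hS z).1 hz1, ?_⟩
  · rw [dotProduct_neg, hpψ]
    rfl
  · rw [toR_neg, neg_neg, hΨ]
    exact hcvT _ hz2

end Helper20.NU
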