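import Pool.Agent.Helper20.NU.FMin

/-!
NU-7. The slice `R = {x ∈ P | p x = 0}`: a real functional attains its minimum over `R` at a point
`v + g`, where `v` is a vertex of the facet `{p = -1}` and `g` the edge vector leaving it.

PROOF. Let `P = convexHull V`, `V` finite (`hP.lattice`). Let `x₀ ∈ V` with `p x₀ = -1` minimise `c`
over `{x ∈ V | p x = -1}` (nonempty: the extreme point of `exists_level` is in `V`), `m = c x₀`.
The set `V' = {u ∈ V | p u ≥ 0}` is nonempty (otherwise all of `P` is in `p ≤ -1`, but `0 ∈ P`);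
let `u₀ ∈ V'` maximise `(m - c u) / (p u + 1)`, and let `λ` be this maximum. Put
`C = c + λ p` (a real functional). Then `C u ≥ m - λ` for all `u ∈ V`: clear if `p u = -1`, and for
`u ∈ V'` it is `λ (p u + 1) ≥ m - c u`; with equality for `x₀` and for `u₀`. So `C x ≥ m - λ` for all
`x ∈ P` (`convexHull_min`, half space).
By `exists_vertexR` for the functional `C + p` there is an extreme point `toR v` of `P` with
`(C + p) v ≤ (C + p) x` on `P`; for `x = x₀` this is `≤ m - λ - 1`, and `C v ≥ m - λ`, `p v ≥ -1`, so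
`C v = m - λ` and `p v = -1`. Take the data `FV` at `v` (`exists_fv`). `C (v + a), C (v + b),
C (v + g) ≥ C v` gives `C a, C b, C g ≥ 0`, and by `FV.dotR`
`0 = C u₀ - C v = (fa u₀ - fa v) C a + (fb u₀ - fb v) C b + (p u₀ + 1) C g`, all terms `≥ 0` and
`p u₀ + 1 > 0`, so `C g = 0`. For `x ∈ R`: `c x = C x ≥ C v = C (v + g) = c (v + g)`, as
`p (v + g) = 0`.
-/

namespace Helper20.NU

open Matrix Set Helper31.Ewald

theorem exists_rmin {P : Set (Fin 3 → ℝ)} (hP : IsSmoothPolytope P)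
    (h0 : (0 : Fin 3 → ℝ) ∈ interior P) {p : Fin 3 → ℤ} (hp0 : p ≠ 0)
    (hp : ∀ x ∈ P, -1 ≤ toR p ⬝ᵥ x) (c : Fin 3 → ℝ) :
    ∃ v a b g fa fb, FV P p v a b g fa fb ∧
      ∀ x ∈ P, toR p ⬝ᵥ x = 0 → c ⬝ᵥ toR (v + g) ≤ c ⬝ᵥ x := by
  classical
  obtain ⟨V, hV⟩ := hP.lattice
  have h0P : (0 : Fin 3 → ℝ) ∈ P := interior_subset h0
  have hVP : ∀ u ∈ V, toR u ∈ P := by
    intro u hu
    rw [hV]
    exact subset_convexHull ℝ _ ⟨u, hu, rfl⟩
  have hVp : ∀ u ∈ V, -1 ≤ p ⬝ᵥ u := by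
    intro u hu
    have h1 := hp _ (hVP u hu)
    rw [toR_dot] at h1
    exact_mod_cast h1
  -- half spaces
  have half : ∀ (C : Fin 3 → ℝ) (r : ℝ), (∀ u ∈ V, r ≤ C ⬝ᵥ toR u) → ∀ x ∈ P, r ≤ C ⬝ᵥ x := by
    intro C r h x hx
    rw [hV] at hx
    have hconv : Convex ℝ {x : Fin 3 → ℝ | r ≤ C ⬝ᵥ x} := by
      intro y hy z hz a b ha hb hab
      have hy' : r ≤ C ⬝ᵥ y := hy
      have hz' : r ≤ C ⬝ᵥ z := hz
      show r ≤ C ⬝ᵥ (a • y + b • z)
      rw [dotProduct_add, dotProduct_smul, dotProduct_smul, smul_eq_mul, smul_eq_mul]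
      have h1 : r = a * r + b * r := by rw [← add_mul, hab, one_mul]
      have h2 := mul_le_mul_of_nonneg_left hy' ha
      have h3 := mul_le_mul_of_nonneg_left hz' hb
      linarith
    refine convexHull_min ?_ hconv hx
    rintro _ ⟨u, hu, rfl⟩
    exact h u hu
  -- the minimum over the facet
  obtain ⟨w0, hw0, hw0p⟩ := exists_level hP h0 hp0 hp
  have hw0V : w0 ∈ V := by
    rw [hV] at hw0
    obtain ⟨u, hu, hu'⟩ := extremePoints_convexHull_subset hw0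
    have := toR_injective hu'
    rw [← this]
    exact hu
  obtain ⟨x0, hx0, hx0min⟩ := Finset.exists_min_image (V.filter fun u => p ⬝ᵥ u = -1)
    (fun u => c ⬝ᵥ toR u) ⟨w0, Finset.mem_filter.2 ⟨hw0V, hw0p⟩⟩
  rw [Finset.mem_filter] at hx0
  set m : ℝ := c ⬝ᵥ toR x0 with hm
  -- the points above the facet
  have hne : (V.filter fun u => 0 ≤ p ⬝ᵥ u).Nonempty := by
    by_contra hcon
    rw [Finset.not_nonempty_iff_eq_empty, Finset.filter_eq_empty_iff] at hcon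
    have h1 := half (-toR p) 1 (fun u hu => by
      rw [neg_dotProduct, toR_dot]
      have h2 := hcon hu
      have h3 : p ⬝ᵥ u ≤ -1 := by omega
      have h4 : ((p ⬝ᵥ u : ℤ) : ℝ) ≤ -1 := by exact_mod_cast h3
      linarith) 0 h0P
    rw [dotProduct_zero] at h1
    linarith
  obtain ⟨u0, hu0, hu0max⟩ := Finset.exists_max_image (V.filter fun u => 0 ≤ p ⬝ᵥ u)
    (fun u => (m - c ⬝ᵥ toR u) / (((p ⬝ᵥ u : ℤ) : ℝ) + 1)) hne
  rw [Finset.mem_filter] at hu0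
  set lam : ℝ := (m - c ⬝ᵥ toR u0) / (((p ⬝ᵥ u0 : ℤ) : ℝ) + 1) with hlam
  set C : Fin 3 → ℝ := c + lam • toR p with hC
  have hCx : ∀ x, C ⬝ᵥ x = c ⬝ᵥ x + lam * (toR p ⬝ᵥ x) := by
    intro x
    rw [hC, add_dotProduct, smul_dotProduct, smul_eq_mul]
  have hpos : ∀ u : Fin 3 → ℤ, 0 ≤ p ⬝ᵥ u → (0 : ℝ) < ((p ⬝ᵥ u : ℤ) : ℝ) + 1 := by
    intro u hu
    have : (0 : ℝ) ≤ ((p ⬝ᵥ u : ℤ) : ℝ) := by exact_mod_cast hu
    linarith
  have hCV : ∀ u ∈ V, m - lam ≤ C ⬝ᵥ toR u := by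
    intro u hu
    rw [hCx, toR_dot]
    by_cases h1 : 0 ≤ p ⬝ᵥ u
    · have h2 := hu0max u (Finset.mem_filter.2 ⟨hu, h1⟩)
      have h3 : (m - c ⬝ᵥ toR u) / (((p ⬝ᵥ u : ℤ) : ℝ) + 1) ≤ lam := h2
      rw [div_le_iff₀ (hpos u h1)] at h3
      linarith
    · have h2 : p ⬝ᵥ u = -1 := by
        have := hVp u hu
        omega
      have h3 : m ≤ c ⬝ᵥ toR u := hx0min u (Finset.mem_filter.2 ⟨hu, h2⟩)
      rw [h2]
      push_cast
      linarith
  have hCP : ∀ x ∈ P, m - lam ≤ C ⬝ᵥ x := half C _ hCV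
  have hCx0 : C ⬝ᵥ toR x0 = m - lam := by
    rw [hCx, toR_dot, hx0.2, ← hm]
    push_cast
    ring
  have hCu0 : C ⬝ᵥ toR u0 = m - lam := by
    have h1 : lam * (((p ⬝ᵥ u0 : ℤ) : ℝ) + 1) = m - c ⬝ᵥ toR u0 := by
      rw [hlam, div_mul_cancel₀]
      exact (hpos u0 hu0.2).ne'
    rw [hCx, toR_dot]
    linarith
  obtain ⟨v, hv, hvmin⟩ := exists_vertexR hP ⟨0, h0P⟩ (C + toR p)
  have hvP : toR v ∈ P := hv.1
  have h1 := hvmin _ (hVP x0 hx0.1)
  have hCp : ∀ x, (C + toR p) ⬝ᵥ x = C ⬝ᵥ x + toR p ⬝ᵥ x := fun x => add_dotProduct C (toR p) x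
  rw [hCp, hCp, hCx0, toR_dot, toR_dot, hx0.2] at h1
  have h2 := hCP _ hvP
  have h3 := hp _ hvP
  rw [toR_dot] at h3
  push_cast at h1
  have hpvR : ((p ⬝ᵥ v : ℤ) : ℝ) = -1 := by linarith
  have hCv : C ⬝ᵥ toR v = m - lam := by linarith
  have hpv : p ⬝ᵥ v = -1 := by exact_mod_cast hpvR
  obtain ⟨a, b, g, fa, fb, hF⟩ := exists_fv hP h0 hp0 hp hv hpv
  have hadd : ∀ d : Fin 3 → ℤ, toR (v + d) ∈ P → 0 ≤ C ⬝ᵥ toR d := by
    intro d hd
    have h4 := hCP _ hd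
    rw [toR_add, dotProduct_add, hCv] at h4
    linarith
  have ha := hadd a hF.mema
  have hb := hadd b hF.memb
  have hg := hadd g hF.memg
  have e1 := hF.dotR C (toR u0)
  have e2 := hF.dotR C (toR v)
  rw [hCu0, toR_dot, toR_dot, toR_dot] at e1
  rw [hCv, toR_dot, toR_dot, toR_dot, hpvR] at e2
  have c1 := hF.conea _ (hVP u0 hu0.1)
  have c2 := hF.coneb _ (hVP u0 hu0.1)
  rw [toR_dot] at c1 c2
  have k1 := mul_nonneg (sub_nonneg.2 c1) ha
  have k2 := mul_nonneg (sub_nonneg.2 c2) hb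
  have k3 := mul_nonneg (hpos u0 hu0.2).le hg
  have k4 : (((p ⬝ᵥ u0 : ℤ) : ℝ) + 1) * (C ⬝ᵥ toR g) = 0 := by nlinarith
  have hg0 : C ⬝ᵥ toR g = 0 := (mul_eq_zero.1 k4).resolve_left (hpos u0 hu0.2).ne'
  refine ⟨v, a, b, g, fa, fb, hF, fun x hx hx0 => ?_⟩
  have h4 := hCP x hx
  rw [hCx, hx0, mul_zero, add_zero] at h4
  have h5 := hCx (toR (v + g))
  have h6 : p ⬝ᵥ (v + g) = 0 := by
    rw [dotProduct_add, hpv, hF.pg]
    norm_num
  rw [toR_dot, h6, toR_add, dotProduct_add C, hCv, hg0] at h5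
  rw [toR_add]
  push_cast at h5
  linarith

end Helper20.NU
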