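import Pool.Agent.Helper20.NU.Defs

/-!
NU-1. The end point of a ray of a convex body with integral extreme points.

PROOF. By compactness let `T` be the largest real number with `q + T d ∈ K`; by `hex`, `T > 0`, and
by convexity (`q ∈ K`) all `q + s d`, `0 ≤ s ≤ T`, are in `K`. The point `y = q + T d` is an extreme
point of `K`: if `y` is strictly between `x₁, x₂ ∈ K` then `h x_i ≥ h q = h y` forces
`h x_i = h q`, so `x_i = q + s_i d` by `hline`, `s_i ≤ T`, and `T` is a strict convex combination of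
`s₁, s₂` (`d ≠ 0` as `k d = 1`), so `s₁ = s₂ = T`. By `hlat`, `y = toR z`, and
`T = k y - k q = k z - k q` is an integer, positive, so `1 ≤ T`; `q + d` is in `K` by convexity.
-/

namespace Helper20.NU

open Matrix Set Helper31.Ewald

theorem ray {n : ℕ} {K : Set (Fin n → ℝ)} (hK : IsCompact K) (hc : Convex ℝ K)
    (hlat : ∀ x ∈ K.extremePoints ℝ, ∃ z : Fin n → ℤ, toR z = x)
    {q d k : Fin n → ℤ} (hq : toR q ∈ K) (h : Fin n → ℝ)
    (hmin : ∀ x ∈ K, h ⬝ᵥ toR q ≤ h ⬝ᵥ x)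
    (hline : ∀ x ∈ K, h ⬝ᵥ x = h ⬝ᵥ toR q → ∃ s : ℝ, x = toR q + s • toR d)
    (hd : h ⬝ᵥ toR d = 0) (hk : k ⬝ᵥ d = 1)
    (hex : ∃ t : ℝ, 0 < t ∧ toR q + t • toR d ∈ K) :
    ∃ T : ℤ, 1 ≤ T ∧ toR (q + T • d) ∈ K.extremePoints ℝ ∧ toR (q + d) ∈ K ∧
      (2 ≤ T → toR (q + d + d) ∈ K) := by
  have hcont : Continuous fun x : Fin n → ℝ => h ⬝ᵥ x := by
    unfold dotProduct
    fun_prop
  have hkont : Continuous fun x : Fin n → ℝ => toR k ⬝ᵥ x := by
    unfold dotProduct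
    fun_prop
  have hkd : toR k ⬝ᵥ toR d = 1 := by rw [toR_dot, hk, Int.cast_one]
  have hL : IsCompact (K ∩ {x | h ⬝ᵥ x = h ⬝ᵥ toR q}) :=
    hK.inter_right (isClosed_eq hcont continuous_const)
  obtain ⟨y, ⟨hyK, hyh⟩, hmax⟩ := hL.exists_isMaxOn ⟨toR q, hq, rfl⟩ hkont.continuousOn
  obtain ⟨T, hT⟩ := hline y hyK hyh
  have hs : ∀ s : ℝ, toR q + s • toR d ∈ K → s ≤ T := by
    intro s hsK
    have h1 : h ⬝ᵥ (toR q + s • toR d) = h ⬝ᵥ toR q := by
      rw [dotProduct_add, dotProduct_smul, hd, smul_zero, add_zero]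
    have h2 : toR k ⬝ᵥ (toR q + s • toR d) ≤ toR k ⬝ᵥ y := hmax ⟨hsK, h1⟩
    rw [hT, dotProduct_add, dotProduct_add, dotProduct_smul, dotProduct_smul, hkd, smul_eq_mul,
      smul_eq_mul, mul_one, mul_one] at h2
    linarith
  have hT0 : 0 < T := by
    obtain ⟨t, ht, htK⟩ := hex
    exact lt_of_lt_of_le ht (hs t htK)
  have hseg : ∀ s : ℝ, 0 ≤ s → s ≤ T → toR q + s • toR d ∈ K := by
    intro s h0 h1
    have h2 := hc hq hyK (a := 1 - s / T) (b := s / T)
      (by rw [sub_nonneg, div_le_one hT0]; exact h1) (div_nonneg h0 hT0.le) (by ring)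
    have h3 : (1 - s / T) • toR q + (s / T) • y = toR q + s • toR d := by
      rw [hT]
      funext i
      simp only [Pi.add_apply, Pi.smul_apply, smul_eq_mul]
      field_simp
      ring
    rwa [h3] at h2
  have hext : y ∈ K.extremePoints ℝ := by
    rw [mem_extremePoints]
    refine ⟨hyK, ?_⟩
    intro x1 hx1 x2 hx2 hy
    obtain ⟨a, b, ha, hb, hab, hxy⟩ := hy
    have h1 := hmin x1 hx1
    have h2 := hmin x2 hx2
    have h3 : a * (h ⬝ᵥ x1) + b * (h ⬝ᵥ x2) = h ⬝ᵥ toR q := by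
      rw [← hyh, ← hxy, dotProduct_add, dotProduct_smul, dotProduct_smul, smul_eq_mul, smul_eq_mul]
    have h4 : h ⬝ᵥ x1 = h ⬝ᵥ toR q := by
      have h5 : a * (h ⬝ᵥ x1 - h ⬝ᵥ toR q) + b * (h ⬝ᵥ x2 - h ⬝ᵥ toR q) = 0 := by
        linear_combination h3 - (h ⬝ᵥ toR q) * hab
      have h6 := mul_nonneg hb.le (sub_nonneg.2 h2)
      have h7 := mul_nonneg ha.le (sub_nonneg.2 h1)
      have h8 : a * (h ⬝ᵥ x1 - h ⬝ᵥ toR q) = 0 := by linarith
      have h9 := (mul_eq_zero.1 h8).resolve_left ha.ne'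
      linarith
    have h4' : h ⬝ᵥ x2 = h ⬝ᵥ toR q := by
      have h8 : b * (h ⬝ᵥ x2 - h ⬝ᵥ toR q) = 0 := by
        linear_combination h3 - a * h4 - (h ⬝ᵥ toR q) * hab
      have h9 := (mul_eq_zero.1 h8).resolve_left hb.ne'
      linarith
    obtain ⟨s1, hs1⟩ := hline x1 hx1 h4
    obtain ⟨s2, hs2⟩ := hline x2 hx2 h4'
    have k1 := hs s1 (by rw [← hs1]; exact hx1)
    have k2 := hs s2 (by rw [← hs2]; exact hx2)
    have h5 : a * s1 + b * s2 = T := by
      have h6 := congrArg (fun x => toR k ⬝ᵥ x) hxy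
      simp only [hs1, hs2, hT, dotProduct_add, dotProduct_smul, hkd, smul_eq_mul, mul_one] at h6
      linear_combination h6 - (toR k ⬝ᵥ toR q) * hab
    have h6 : a * (T - s1) + b * (T - s2) = 0 := by linear_combination T * hab - h5
    have h7 := mul_nonneg ha.le (sub_nonneg.2 k1)
    have h8 := mul_nonneg hb.le (sub_nonneg.2 k2)
    have h9 : a * (T - s1) = 0 := by linarith
    have h10 : b * (T - s2) = 0 := by linarith
    have e1 : s1 = T := by
      have := (mul_eq_zero.1 h9).resolve_left ha.ne'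
      linarith
    have e2 : s2 = T := by
      have := (mul_eq_zero.1 h10).resolve_left hb.ne'
      linarith
    refine ⟨?_, ?_⟩
    · rw [hs1, hT, e1]
    · rw [hs2, hT, e2]
  obtain ⟨z, hz⟩ := hlat y hext
  have hTz : T = ((k ⬝ᵥ z - k ⬝ᵥ q : ℤ) : ℝ) := by
    have h1 := congrArg (fun x => toR k ⬝ᵥ x) hT
    simp only [← hz, dotProduct_add, dotProduct_smul, hkd, smul_eq_mul, mul_one, toR_dot] at h1
    push_cast at h1 ⊢
    linarith
  have hpos : 1 ≤ k ⬝ᵥ z - k ⬝ᵥ q := by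
    rw [hTz] at hT0
    have : 0 < k ⬝ᵥ z - k ⬝ᵥ q := by exact_mod_cast hT0
    omega
  have hT1 : (1 : ℝ) ≤ T := by
    rw [hTz]
    exact_mod_cast hpos
  refine ⟨k ⬝ᵥ z - k ⬝ᵥ q, hpos, ?_, ?_, ?_⟩
  · rw [toR_add, toR_smul, ← hTz, ← hT]
    exact hext
  · have h1 := hseg 1 zero_le_one hT1
    rw [one_smul] at h1
    rwa [toR_add]
  · intro h2
    have h3 : (2 : ℝ) ≤ T := by
      rw [hTz]
      exact_mod_cast h2
    have h1 := hseg 2 zero_le_two h3
    rw [two_smul, ← add_assoc] at h1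
    rwa [toR_add, toR_add]

end Helper20.NU
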