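import Pool.Agent.Helper20.NU.Types
import Pool.Agent.Helper20.NU.FMin

/-!
NU-6. Sections of the facet parallel to the edges of the level one polygon, and the meeting of the
facet with the reflected level one polygon.

Notation: `v, a, b, g, fa, fb` as in `FV`; `S` = lattice points `z` with `toR z ∈ P`, `p z = 1`.

PROOF of `sec`. Take from `exists_fmin` (for the functional `toR C`) data at a vertex `v` with
`C v ≤ C x` for all `x` in the facet. Put `α = C a ≥ 0`, `β = C b ≥ 0` (`v + a`, `v + b` are in the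
facet), `d = z₂ - z₁`. By `FV.dotZ`: `C y = α fa y + β fb y` for `p y = 0`; not both `α`, `β` are
`0` (hypothesis `hC`); and for `z, z'` of the same level `C z - C z' = α (fa z - fa z') +
β (fb z - fb z')`. `p d = 0`, `C d = 0`, `d = (fa d) a + (fb d) b`.
First alternative of `FV.types`, with `q`: `C q ≤ C z₁` termwise, and `C z₁ ≤ C q` by `hmin`, so
`α (fa z_i - fa q) + β (fb z_i - fb q) = 0` with nonnegative terms, `i = 1, 2`.
 `α > 0, β > 0`: `z₁ = q = z₂` (`FV.eqZ`), contradiction.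
 `α > 0, β = 0`: `fa z_i = fa q`, so `fa d = 0`, `d = (fb d) b`, and `k d = 1` gives `fb d = ± 1`:
`d = ± b`; take `r = v` if `d = b`, `r = v + b` if `d = -b`; `C b = β = 0`, so `C r = C v ≤ C t`.
 `α = 0, β > 0`: symmetric (use `hF.swap`).
Second alternative: `q₁ = v + a + g + g`, `q₂ = v + b + g + g ∈ S`. With `y_a (z) = fa z - fa v ≥ 0`,
`y_b (z) = fb z - fb v ≥ 0`, `y_a + y_b ≥ 1` on `S`: `C z - C (v + g + g) = α y_a (z) + β y_b (z)`,
`hmin` at `q₁`, `q₂` gives `α y_a (z_i) + β y_b (z_i) ≤ min (α, β)` for `i = 1, 2`.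
 `0 < α < β`: `y_b (z_i) = 0`, `y_a (z_i) = 1`: `z₁ = z₂`, contradiction. `0 < β < α`: the same.
 `α = 0 < β`: `y_b (z_i) = 0`, so `fb d = 0`, `d = ± a`, `r = v` or `v + a`, `C a = 0`.
 `β = 0 < α`: symmetric.
 `α = β > 0`: `y_a (z_i) + y_b (z_i) = 1`, so `fa d + fb d = 0`, and `k d = 1` gives
`d = ± (a - b)`; take `r = v + b` if `d = a - b`, `r = v + a` if `d = b - a`. HERE `C r = C v + α`;
the claim `C r ≤ C t + 1` needs `α = 1`: use `hC1` (some `y` with `p y = 0`, `C y = 1`):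
`1 = C y = α (fa y + fb y)`. (This `y` also gives that not both `α`, `β` vanish.)

PROOF of `meet`. Take data at a vertex `v` with `c v ≤ c x` on the facet, `x = v`; `α = c a ≥ 0`,
`β = c b ≥ 0`, and by `FV.dotR`, since `p v + p z = 0` for `z ∈ S`:
`c v + c z = α (fa v + fa z) + β (fb v + fb z)`. Take `z = q` (first alternative of `FV.types`) or
`z = v + a + g + g` (second alternative): `fa z + fb z ≤ fa v + fb v + 1`, `fa z ≥ fa v`,
`fb z ≥ fb v`, so `fa z ≤ fa v + 1`, `fb z ≤ fb v + 1` and, with `fa v, fb v ≤ -1`: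
`fa v + fa z ≤ -1`, `fb v + fb z ≤ -1`. So the sum is `≤ -α - β ≤ 0`.
-/

namespace Helper20.NU

open Matrix Set Helper31.Ewald

private theorem coneZ {P : Set (Fin 3 → ℝ)} {v f : Fin 3 → ℤ}
    (h : ∀ x ∈ P, ((f ⬝ᵥ v : ℤ) : ℝ) ≤ toR f ⬝ᵥ x) {z : Fin 3 → ℤ} (hz : toR z ∈ P) :
    f ⬝ᵥ v ≤ f ⬝ᵥ z := by
  have := h _ hz
  rw [toR_dot] at this
  exact_mod_cast this

/-- the case of an edge parallel to `b` -/
private theorem fin_b {P : Set (Fin 3 → ℝ)} {p v a b g fa fb C z₁ z₂ : Fin 3 → ℤ}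
    (hF : FV P p v a b g fa fb) (hp12 : p ⬝ᵥ z₂ = p ⬝ᵥ z₁)
    (hk : ∃ k : Fin 3 → ℤ, k ⬝ᵥ (z₂ - z₁) = 1)
    (hmin : ∀ t : Fin 3 → ℤ, toR t ∈ P → p ⬝ᵥ t = -1 → C ⬝ᵥ v ≤ C ⬝ᵥ t)
    (hfa : fa ⬝ᵥ z₂ = fa ⬝ᵥ z₁) (hb : C ⬝ᵥ b = 0) :
    ∃ r : Fin 3 → ℤ, toR r ∈ P ∧ toR (r + (z₂ - z₁)) ∈ P ∧ p ⬝ᵥ r = -1 ∧
      ∀ t : Fin 3 → ℤ, toR t ∈ P → p ⬝ᵥ t = -1 → C ⬝ᵥ r ≤ C ⬝ᵥ t + 1 := by
  obtain ⟨k, hk⟩ := hk
  have hd : z₂ - z₁ = (fb ⬝ᵥ (z₂ - z₁)) • b := by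
    have h1 := hF.expZ (z₂ - z₁)
    have h2 : fa ⬝ᵥ (z₂ - z₁) = 0 := by rw [dotProduct_sub, hfa, sub_self]
    have h3 : p ⬝ᵥ (z₂ - z₁) = 0 := by rw [dotProduct_sub, hp12, sub_self]
    rw [h2, h3, zero_smul, zero_smul, zero_add, add_zero] at h1
    exact h1
  have hk2 : (fb ⬝ᵥ (z₂ - z₁)) * (k ⬝ᵥ b) = 1 := by
    rw [hd, dotProduct_smul, smul_eq_mul] at hk
    exact hk
  rcases Int.eq_one_or_neg_one_of_mul_eq_one hk2 with h1 | h1
  · rw [h1, one_smul] at hd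
    refine ⟨v, hF.mem, ?_, hF.pv, fun t ht hpt => ?_⟩
    · rw [hd]; exact hF.memb
    · have := hmin t ht hpt
      omega
  · rw [h1, neg_smul, one_smul] at hd
    refine ⟨v + b, hF.memb, ?_, ?_, fun t ht hpt => ?_⟩
    · rw [hd, add_neg_cancel_right]; exact hF.mem
    · rw [dotProduct_add, hF.pv, hF.pb, add_zero]
    · have := hmin t ht hpt
      rw [dotProduct_add, hb]
      omega

theorem sec {P : Set (Fin 3 → ℝ)} (hP : IsSmoothPolytope P)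
    (h0 : (0 : Fin 3 → ℝ) ∈ interior P) {p : Fin 3 → ℤ} (hp0 : p ≠ 0)
    (hp : ∀ x ∈ P, -1 ≤ toR p ⬝ᵥ x) {C z₁ z₂ : Fin 3 → ℤ} (h1 : toR z₁ ∈ P)
    (h2 : toR z₂ ∈ P) (hp1 : p ⬝ᵥ z₁ = 1) (hp2 : p ⬝ᵥ z₂ = 1)
    (hk : ∃ k : Fin 3 → ℤ, k ⬝ᵥ (z₂ - z₁) = 1) (hC1 : ∃ y, p ⬝ᵥ y = 0 ∧ C ⬝ᵥ y = 1)
    (heq : C ⬝ᵥ z₂ = C ⬝ᵥ z₁)
    (hmin : ∀ z : Fin 3 → ℤ, toR z ∈ P → p ⬝ᵥ z = 1 → C ⬝ᵥ z₁ ≤ C ⬝ᵥ z) :
    ∃ r : Fin 3 → ℤ, toR r ∈ P ∧ toR (r + (z₂ - z₁)) ∈ P ∧ p ⬝ᵥ r = -1 ∧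
      ∀ t : Fin 3 → ℤ, toR t ∈ P → p ⬝ᵥ t = -1 → C ⬝ᵥ r ≤ C ⬝ᵥ t + 1 := by
  obtain ⟨v, a, b, g, fa, fb, hF, hv⟩ := exists_fmin hP h0 hp0 hp (toR C)
  have hvZ : ∀ t : Fin 3 → ℤ, toR t ∈ P → p ⬝ᵥ t = -1 → C ⬝ᵥ v ≤ C ⬝ᵥ t := by
    intro t ht hpt
    have h3 := hv (toR t) ht (by rw [toR_dot, hpt]; norm_num)
    rw [toR_dot, toR_dot] at h3
    exact_mod_cast h3
  have hα : 0 ≤ C ⬝ᵥ a := by
    have := hvZ (v + a) hF.mema (by rw [dotProduct_add, hF.pv, hF.pa, add_zero])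
    rw [dotProduct_add] at this
    omega
  have hβ : 0 ≤ C ⬝ᵥ b := by
    have := hvZ (v + b) hF.memb (by rw [dotProduct_add, hF.pv, hF.pb, add_zero])
    rw [dotProduct_add] at this
    omega
  have hp12 : p ⬝ᵥ z₂ = p ⬝ᵥ z₁ := by rw [hp1, hp2]
  have hne : z₂ ≠ z₁ := by
    rintro rfl
    obtain ⟨k, hk⟩ := hk
    rw [sub_self, dotProduct_zero] at hk
    exact absurd hk (by norm_num)
  obtain ⟨y, hy1, hy2⟩ := hC1
  have hy := hF.dotZ C y
  rw [hy1, hy2, zero_mul, add_zero] at hy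
  have e1 := hF.dotZ C z₁
  have e2 := hF.dotZ C z₂
  rw [hp1] at e1
  rw [hp2] at e2
  set α := C ⬝ᵥ a with hαd
  set β := C ⬝ᵥ b with hβd
  rcases FV.types hP h0 hp hF with ⟨q, hq, hpq, hqm, -⟩ | ⟨hqa, hqb, hS⟩
  · have eq := hF.dotZ C q
    rw [hpq] at eq
    obtain ⟨i1, i2⟩ := hqm z₁ h1 hp1
    obtain ⟨i3, i4⟩ := hqm z₂ h2 hp2
    have m1 := hmin q hq hpq
    have n1 : (fa ⬝ᵥ z₁ - fa ⬝ᵥ q) * α + (fb ⬝ᵥ z₁ - fb ⬝ᵥ q) * β ≤ 0 := by
      rw [e1, eq] at m1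
      linarith
    have n2 : (fa ⬝ᵥ z₂ - fa ⬝ᵥ q) * α + (fb ⬝ᵥ z₂ - fb ⬝ᵥ q) * β ≤ 0 := by
      rw [← heq, e2, eq] at m1
      linarith
    have o1 := mul_nonneg (sub_nonneg.mpr i1) hα
    have o2 := mul_nonneg (sub_nonneg.mpr i2) hβ
    have o3 := mul_nonneg (sub_nonneg.mpr i3) hα
    have o4 := mul_nonneg (sub_nonneg.mpr i4) hβ
    have r1 : (fa ⬝ᵥ z₁ - fa ⬝ᵥ q) * α = 0 := le_antisymm (by linarith) o1
    have r2 : (fb ⬝ᵥ z₁ - fb ⬝ᵥ q) * β = 0 := le_antisymm (by linarith) o2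
    have r3 : (fa ⬝ᵥ z₂ - fa ⬝ᵥ q) * α = 0 := le_antisymm (by linarith) o3
    have r4 : (fb ⬝ᵥ z₂ - fb ⬝ᵥ q) * β = 0 := le_antisymm (by linarith) o4
    by_cases hα0 : α = 0
    · by_cases hβ0 : β = 0
      · rw [hα0, hβ0] at hy
        norm_num at hy
      · have s1 := (mul_eq_zero.mp r2).resolve_right hβ0
        have s2 := (mul_eq_zero.mp r4).resolve_right hβ0
        exact fin_b hF.swap hp12 hk hvZ (by linarith) hα0
    · have s1 := (mul_eq_zero.mp r1).resolve_right hα0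
      have s2 := (mul_eq_zero.mp r3).resolve_right hα0
      by_cases hβ0 : β = 0
      · exact fin_b hF hp12 hk hvZ (by linarith) hβ0
      · have s3 := (mul_eq_zero.mp r2).resolve_right hβ0
        have s4 := (mul_eq_zero.mp r4).resolve_right hβ0
        exact absurd (hF.eqZ (by linarith) (by linarith) hp12) hne
  · have pqa : p ⬝ᵥ (v + a + g + g) = 1 := by
      simp only [dotProduct_add, hF.pv, hF.pa, hF.pg]; norm_num
    have pqb : p ⬝ᵥ (v + b + g + g) = 1 := by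
      simp only [dotProduct_add, hF.pv, hF.pb, hF.pg]; norm_num
    have ma := hmin _ hqa pqa
    have mb := hmin _ hqb pqb
    have ea := hF.dotZ C (v + a + g + g)
    have eb := hF.dotZ C (v + b + g + g)
    rw [pqa] at ea
    rw [pqb] at eb
    simp only [dotProduct_add, hF.faa, hF.fag, hF.fba, hF.fbg] at ea
    simp only [dotProduct_add, hF.fab, hF.fag, hF.fbb, hF.fbg] at eb
    simp only [dotProduct_add] at ma mb
    obtain ⟨x1, hx1⟩ : ∃ x1, x1 = fa ⬝ᵥ z₁ - fa ⬝ᵥ v := ⟨_, rfl⟩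
    obtain ⟨x2, hx2⟩ : ∃ x2, x2 = fa ⬝ᵥ z₂ - fa ⬝ᵥ v := ⟨_, rfl⟩
    obtain ⟨y1, hy1'⟩ : ∃ y1, y1 = fb ⬝ᵥ z₁ - fb ⬝ᵥ v := ⟨_, rfl⟩
    obtain ⟨y2, hy2'⟩ : ∃ y2, y2 = fb ⬝ᵥ z₂ - fb ⬝ᵥ v := ⟨_, rfl⟩
    have c1 := coneZ hF.conea h1
    have c2 := coneZ hF.conea h2
    have c3 := coneZ hF.coneb h1
    have c4 := coneZ hF.coneb h2
    have t1 := hS z₁ h1 hp1
    have t2 := hS z₂ h2 hp2
    have hx10 : 0 ≤ x1 := by omega
    have hx20 : 0 ≤ x2 := by omega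
    have hy10 : 0 ≤ y1 := by omega
    have hy20 : 0 ≤ y2 := by omega
    have hs1 : 1 ≤ x1 + y1 := by omega
    have hs2 : 1 ≤ x2 + y2 := by omega
    have ca1 : x1 * α + y1 * β ≤ α := by
      rw [hx1, hy1']; linarith
    have ca2 : x2 * α + y2 * β ≤ α := by
      rw [hx2, hy2']; linarith
    have cb1 : x1 * α + y1 * β ≤ β := by
      rw [hx1, hy1']; linarith
    have cb2 : x2 * α + y2 * β ≤ β := by
      rw [hx2, hy2']; linarith
    rcases lt_trichotomy α β with hlt | heq' | hlt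
    · have w1 : y1 = 0 := by
        by_contra hc
        have : 1 ≤ y1 := by omega
        nlinarith [mul_nonneg hx10 hα, mul_nonneg (sub_nonneg.mpr this) hβ]
      have w2 : y2 = 0 := by
        by_contra hc
        have : 1 ≤ y2 := by omega
        nlinarith [mul_nonneg hx20 hα, mul_nonneg (sub_nonneg.mpr this) hβ]
      by_cases hα0 : α = 0
      · exact fin_b hF.swap hp12 hk hvZ (by omega) hα0
      · exfalso
        have hα1 : 0 < α := lt_of_le_of_ne hα (Ne.symm hα0)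
        have w3 : x1 = 1 := by
          by_contra hc
          have : 2 ≤ x1 := by omega
          nlinarith [mul_nonneg (sub_nonneg.mpr this) hα]
        have w4 : x2 = 1 := by
          by_contra hc
          have : 2 ≤ x2 := by omega
          nlinarith [mul_nonneg (sub_nonneg.mpr this) hα]
        exact hne (hF.eqZ (by omega) (by omega) hp12)
    · by_cases hα0 : α = 0
      · rw [← heq', hα0] at hy
        norm_num at hy
      · have hα1 : 0 < α := lt_of_le_of_ne hα (Ne.symm hα0)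
        rw [← heq'] at hy ca1 ca2
        have w1 : x1 + y1 = 1 := by
          by_contra hc
          have : 2 ≤ x1 + y1 := by omega
          nlinarith [mul_nonneg (sub_nonneg.mpr this) hα]
        have w2 : x2 + y2 = 1 := by
          by_contra hc
          have : 2 ≤ x2 + y2 := by omega
          nlinarith [mul_nonneg (sub_nonneg.mpr this) hα]
        have hα2 : α = 1 := by
          have h7 : α * (fa ⬝ᵥ y + fb ⬝ᵥ y) = 1 := by linarith
          rcases Int.eq_one_or_neg_one_of_mul_eq_one h7 with h8 | h8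
          · exact h8
          · omega
        obtain ⟨k, hk⟩ := hk
        have hd : z₂ - z₁ = (x2 - x1) • (a - b) := by
          have h3 := hF.expZ (z₂ - z₁)
          have h4 : fa ⬝ᵥ (z₂ - z₁) = x2 - x1 := by rw [dotProduct_sub]; omega
          have h5 : fb ⬝ᵥ (z₂ - z₁) = -(x2 - x1) := by rw [dotProduct_sub]; omega
          have h6 : p ⬝ᵥ (z₂ - z₁) = 0 := by rw [dotProduct_sub, hp12, sub_self]
          rw [h4, h5, h6, zero_smul, add_zero] at h3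
          rw [h3, smul_sub, neg_smul, ← sub_eq_add_neg]
        have hk2 : (x2 - x1) * (k ⬝ᵥ (a - b)) = 1 := by
          rw [hd, dotProduct_smul, smul_eq_mul] at hk
          exact hk
        rcases Int.eq_one_or_neg_one_of_mul_eq_one hk2 with h9 | h9
        · rw [h9, one_smul] at hd
          refine ⟨v + b, hF.memb, ?_, ?_, fun t ht hpt => ?_⟩
          · rw [hd, show v + b + (a - b) = v + a by abel]; exact hF.mema
          · rw [dotProduct_add, hF.pv, hF.pb, add_zero]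
          · have := hvZ t ht hpt
            rw [dotProduct_add, ← hβd, ← heq', hα2]
            omega
        · rw [h9, neg_smul, one_smul] at hd
          refine ⟨v + a, hF.mema, ?_, ?_, fun t ht hpt => ?_⟩
          · rw [hd, show v + a + -(a - b) = v + b by abel]; exact hF.memb
          · rw [dotProduct_add, hF.pv, hF.pa, add_zero]
          · have := hvZ t ht hpt
            rw [dotProduct_add, ← hαd, hα2]
            omega
    · have w1 : x1 = 0 := by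
        by_contra hc
        have : 1 ≤ x1 := by omega
        nlinarith [mul_nonneg hy10 hβ, mul_nonneg (sub_nonneg.mpr this) hα]
      have w2 : x2 = 0 := by
        by_contra hc
        have : 1 ≤ x2 := by omega
        nlinarith [mul_nonneg hy20 hβ, mul_nonneg (sub_nonneg.mpr this) hα]
      by_cases hβ0 : β = 0
      · exact fin_b hF hp12 hk hvZ (by omega) hβ0
      · exfalso
        have hβ1 : 0 < β := lt_of_le_of_ne hβ (Ne.symm hβ0)
        have w3 : y1 = 1 := by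
          by_contra hc
          have : 2 ≤ y1 := by omega
          nlinarith [mul_nonneg (sub_nonneg.mpr this) hβ]
        have w4 : y2 = 1 := by
          by_contra hc
          have : 2 ≤ y2 := by omega
          nlinarith [mul_nonneg (sub_nonneg.mpr this) hβ]
        exact hne (hF.eqZ (by omega) (by omega) hp12)

theorem meet {P : Set (Fin 3 → ℝ)} (hP : IsSmoothPolytope P)
    (h0 : (0 : Fin 3 → ℝ) ∈ interior P) {p : Fin 3 → ℤ} (hp0 : p ≠ 0)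
    (hp : ∀ x ∈ P, -1 ≤ toR p ⬝ᵥ x) (c : Fin 3 → ℝ) :
    ∃ x z : Fin 3 → ℤ, toR x ∈ P ∧ p ⬝ᵥ x = -1 ∧ toR z ∈ P ∧ p ⬝ᵥ z = 1 ∧
      c ⬝ᵥ toR x + c ⬝ᵥ toR z ≤ 0 := by
  obtain ⟨v, a, b, g, fa, fb, hF, hv⟩ := exists_fmin hP h0 hp0 hp c
  have hpv : toR p ⬝ᵥ toR v = -1 := by rw [toR_dot, hF.pv]; norm_num
  have hα : 0 ≤ c ⬝ᵥ toR a := by
    have := hv (toR (v + a)) hF.mema
      (by rw [toR_dot, dotProduct_add, hF.pv, hF.pa, add_zero]; norm_num)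
    rw [toR_add, dotProduct_add] at this
    linarith
  have hβ : 0 ≤ c ⬝ᵥ toR b := by
    have := hv (toR (v + b)) hF.memb
      (by rw [toR_dot, dotProduct_add, hF.pv, hF.pb, add_zero]; norm_num)
    rw [toR_add, dotProduct_add] at this
    linarith
  obtain ⟨z, hz, hpz, hs⟩ : ∃ z : Fin 3 → ℤ, toR z ∈ P ∧ p ⬝ᵥ z = 1 ∧
      fa ⬝ᵥ z + fb ⬝ᵥ z ≤ fa ⬝ᵥ v + fb ⬝ᵥ v + 1 := by
    rcases FV.types hP h0 hp hF with ⟨q, hq, hpq, -, hs⟩ | ⟨hqa, -, -⟩
    · exact ⟨q, hq, hpq, hs⟩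
    · refine ⟨v + a + g + g, hqa, ?_, ?_⟩
      · simp only [dotProduct_add, hF.pv, hF.pa, hF.pg]; norm_num
      · simp only [dotProduct_add, hF.faa, hF.fag, hF.fba, hF.fbg]
        omega
  refine ⟨v, z, hF.mem, hF.pv, hz, hpz, ?_⟩
  have c1 := coneZ hF.conea hz
  have c2 := coneZ hF.coneb hz
  have n1 := hF.nega
  have n2 := hF.negb
  have k1 : fa ⬝ᵥ v + fa ⬝ᵥ z ≤ -1 := by omega
  have k2 : fb ⬝ᵥ v + fb ⬝ᵥ z ≤ -1 := by omega
  have k1' : ((fa ⬝ᵥ v : ℤ) : ℝ) + ((fa ⬝ᵥ z : ℤ) : ℝ) ≤ -1 := by exact_mod_cast k1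
  have k2' : ((fb ⬝ᵥ v : ℤ) : ℝ) + ((fb ⬝ᵥ z : ℤ) : ℝ) ≤ -1 := by exact_mod_cast k2
  have e1 := hF.dotR c (toR v)
  have e2 := hF.dotR c (toR z)
  rw [hpv, toR_dot, toR_dot] at e1
  rw [toR_dot, toR_dot, toR_dot, hpz] at e2
  push_cast at e2
  rw [e1, e2]
  nlinarith [mul_nonneg (sub_nonneg.mpr k1') hα, mul_nonneg (sub_nonneg.mpr k2') hβ]

end Helper20.NU
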