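import Pool.Agent.Helper20.NU.Defs

/-!
NU-11. `TyP` is invariant under unimodular maps of the plane; segments of `T`.

PROOF of `TyP.map`. Let `M (z) = (α z₁ + β z₂, γ z₁ + δ z₂)`, `D = α δ - β γ = ± 1`; its inverse is
`N (z) = (D (δ z₁ - β z₂), D (-γ z₁ + α z₂))`, and the real versions are linear bijections mapping
`cv T` onto `cv (T.image M)` and back. `sat`: if `tR z ∈ cv (T.image M)` then
`tR (N z) ∈ cv T`, so `N z ∈ T`, `z = M (N z)`. `neg`, `vert`: apply the property of `T` to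
`c' = (α c₁ + γ c₂, β c₁ + δ c₂)`, i.e. `c' z = c (M z)` (`c' ≠ 0` if `c ≠ 0`), and map `q`, `d₁`,
`d₂` by `M`; `m` becomes `(D (δ m₁ - γ m₂), D (-β m₁ + α m₂))`, i.e. `m' (M z) = m z`.

PROOF of `TyP.seg`. `tR z` is the convex combination `(1 - j/k) tR x + (j/k) tR y` of two points of
`cv T`.
-/

namespace Helper20.NU

open Matrix Set Helper31.Ewald

private theorem mem_cv {T : Finset (ℤ × ℤ)} {x : ℤ × ℤ} (hx : x ∈ T) : tR x ∈ cv T :=
  subset_convexHull ℝ _ ⟨x, hx, rfl⟩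

/-- real linear map with integer matrix -/
private noncomputable def lm (α β γ δ : ℤ) : (ℝ × ℝ) →ₗ[ℝ] (ℝ × ℝ) where
  toFun z := ((α : ℝ) * z.1 + β * z.2, (γ : ℝ) * z.1 + δ * z.2)
  map_add' := by
    intro x y
    ext <;> simp <;> ring
  map_smul' := by
    intro t x
    ext <;> simp <;> ring

theorem TyP.map {T : Finset (ℤ × ℤ)} (hT : TyP T) (α β γ δ : ℤ)
    (hD : α * δ - β * γ = 1 ∨ α * δ - β * γ = -1) :
    TyP (T.image fun z => (α * z.1 + β * z.2, γ * z.1 + δ * z.2)) := by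
  obtain ⟨D, hDe⟩ : ∃ D : ℤ, D = α * δ - β * γ := ⟨_, rfl⟩
  have hDD : D * D = 1 := by
    rcases hD with h | h <;> rw [hDe, h] <;> norm_num
  have hDR : (D : ℝ) = α * δ - β * γ := by rw [hDe]; push_cast; ring
  have hDDR : (D : ℝ) * D = 1 := by exact_mod_cast hDD
  have hNM : ∀ z : ℤ × ℤ, ((D * (δ * (α * z.1 + β * z.2) - β * (γ * z.1 + δ * z.2)),
      D * (-γ * (α * z.1 + β * z.2) + α * (γ * z.1 + δ * z.2))) : ℤ × ℤ) = z := by
    intro z
    ext
    · show D * (δ * (α * z.1 + β * z.2) - β * (γ * z.1 + δ * z.2)) = z.1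
      have : δ * (α * z.1 + β * z.2) - β * (γ * z.1 + δ * z.2) = D * z.1 := by rw [hDe]; ring
      rw [this, ← mul_assoc, hDD, one_mul]
    · show D * (-γ * (α * z.1 + β * z.2) + α * (γ * z.1 + δ * z.2)) = z.2
      have : -γ * (α * z.1 + β * z.2) + α * (γ * z.1 + δ * z.2) = D * z.2 := by rw [hDe]; ring
      rw [this, ← mul_assoc, hDD, one_mul]
  refine ⟨?_, ?_, ?_, ?_⟩
  · -- sat
    intro z hz
    have h1 : lm (D * δ) (-(D * β)) (-(D * γ)) (D * α) (tR z) ∈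
        convexHull ℝ (lm (D * δ) (-(D * β)) (-(D * γ)) (D * α) ''
          (tR '' ((T.image fun z => (α * z.1 + β * z.2, γ * z.1 + δ * z.2) : Finset (ℤ × ℤ)) :
            Set (ℤ × ℤ)))) := by
      rw [← LinearMap.image_convexHull]
      exact ⟨_, hz, rfl⟩
    have h2 : lm (D * δ) (-(D * β)) (-(D * γ)) (D * α) ''
          (tR '' ((T.image fun z => (α * z.1 + β * z.2, γ * z.1 + δ * z.2) : Finset (ℤ × ℤ)) :
            Set (ℤ × ℤ))) ⊆ tR '' (T : Set (ℤ × ℤ)) := by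
      rintro _ ⟨_, ⟨w, hw, rfl⟩, rfl⟩
      rw [Finset.mem_coe, Finset.mem_image] at hw
      obtain ⟨t, ht, rfl⟩ := hw
      refine ⟨t, ht, ?_⟩
      have h3 := hNM t
      have h31 := congrArg Prod.fst h3
      have h32 := congrArg Prod.snd h3
      simp only at h31 h32
      have h41 : (t.1 : ℝ) = ((D * (δ * (α * t.1 + β * t.2) - β * (γ * t.1 + δ * t.2)) : ℤ) : ℝ) := by
        rw [h31]
      have h42 : (t.2 : ℝ) = ((D * (-γ * (α * t.1 + β * t.2) + α * (γ * t.1 + δ * t.2)) : ℤ) : ℝ) := by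
        rw [h32]
      apply Prod.ext
      · show (t.1 : ℝ) = ((D * δ : ℤ) : ℝ) * ((α * t.1 + β * t.2 : ℤ) : ℝ) +
          ((-(D * β) : ℤ) : ℝ) * ((γ * t.1 + δ * t.2 : ℤ) : ℝ)
        rw [h41]
        push_cast
        ring
      · show (t.2 : ℝ) = ((-(D * γ) : ℤ) : ℝ) * ((α * t.1 + β * t.2 : ℤ) : ℝ) +
          ((D * α : ℤ) : ℝ) * ((γ * t.1 + δ * t.2 : ℤ) : ℝ)
        rw [h42]
        push_cast
        ring
    have h3 := convexHull_mono h2 h1
    have h4 : lm (D * δ) (-(D * β)) (-(D * γ)) (D * α) (tR z) =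
        tR (D * δ * z.1 + -(D * β) * z.2, -(D * γ) * z.1 + D * α * z.2) := by
      apply Prod.ext
      · show ((D * δ : ℤ) : ℝ) * (z.1 : ℝ) + ((-(D * β) : ℤ) : ℝ) * (z.2 : ℝ) =
          ((D * δ * z.1 + -(D * β) * z.2 : ℤ) : ℝ)
        push_cast
        ring
      · show ((-(D * γ) : ℤ) : ℝ) * (z.1 : ℝ) + ((D * α : ℤ) : ℝ) * (z.2 : ℝ) =
          ((-(D * γ) * z.1 + D * α * z.2 : ℤ) : ℝ)
        push_cast
        ring
    rw [h4] at h3
    have h5 := hT.sat _ h3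
    rw [Finset.mem_image]
    refine ⟨_, h5, ?_⟩
    apply Prod.ext
    · show α * (D * δ * z.1 + -(D * β) * z.2) + β * (-(D * γ) * z.1 + D * α * z.2) = z.1
      have : α * (D * δ * z.1 + -(D * β) * z.2) + β * (-(D * γ) * z.1 + D * α * z.2) =
        D * (α * δ - β * γ) * z.1 := by ring
      rw [this, ← hDe, hDD, one_mul]
    · show γ * (D * δ * z.1 + -(D * β) * z.2) + δ * (-(D * γ) * z.1 + D * α * z.2) = z.2
      have : γ * (D * δ * z.1 + -(D * β) * z.2) + δ * (-(D * γ) * z.1 + D * α * z.2) =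
        D * (α * δ - β * γ) * z.2 := by ring
      rw [this, ← hDe, hDD, one_mul]
  · rw [Finset.mem_image]
    exact ⟨0, hT.zero, by simp⟩
  · -- neg
    intro c hc
    have hc' : ((α * c.1 + γ * c.2, β * c.1 + δ * c.2) : ℝ × ℝ) ≠ 0 := by
      intro h
      have e1 : (α : ℝ) * c.1 + γ * c.2 = 0 := congrArg Prod.fst h
      have e2 : (β : ℝ) * c.1 + δ * c.2 = 0 := congrArg Prod.snd h
      have h1 : (D : ℝ) * c.1 = 0 := by rw [hDR]; linear_combination δ * e1 - γ * e2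
      have h2 : (D : ℝ) * c.2 = 0 := by rw [hDR]; linear_combination α * e2 - β * e1
      have hD0 : (D : ℝ) ≠ 0 := by
        intro h0
        rw [h0] at hDDR
        norm_num at hDDR
      apply hc
      apply Prod.ext
      · exact (mul_eq_zero.mp h1).resolve_left hD0
      · exact (mul_eq_zero.mp h2).resolve_left hD0
    obtain ⟨t, ht, hneg⟩ := hT.neg _ hc'
    refine ⟨_, Finset.mem_image.mpr ⟨t, ht, rfl⟩, ?_⟩
    simp only at hneg ⊢
    push_cast
    linarith [hneg]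
  · -- vert
    intro c
    obtain ⟨q, hq, hmin, d₁, d₂, m, h1, h2, hm1, hm2, hcone⟩ :=
      hT.vert (α * c.1 + γ * c.2, β * c.1 + δ * c.2)
    refine ⟨(α * q.1 + β * q.2, γ * q.1 + δ * q.2), Finset.mem_image.mpr ⟨q, hq, rfl⟩, ?_,
      (α * d₁.1 + β * d₁.2, γ * d₁.1 + δ * d₁.2), (α * d₂.1 + β * d₂.2, γ * d₂.1 + δ * d₂.2),
      (D * (δ * m.1 - γ * m.2), D * (-β * m.1 + α * m.2)), ?_, ?_, ?_, ?_, ?_⟩
    · intro t ht
      rw [Finset.mem_image] at ht
      obtain ⟨t0, ht0, rfl⟩ := ht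
      have := hmin t0 ht0
      simp only at this ⊢
      push_cast
      linarith [this]
    · rw [Finset.mem_image]
      refine ⟨_, h1, ?_⟩
      apply Prod.ext
      · show α * (q.1 + d₁.1) + β * (q.2 + d₁.2) = α * q.1 + β * q.2 + (α * d₁.1 + β * d₁.2)
        ring
      · show γ * (q.1 + d₁.1) + δ * (q.2 + d₁.2) = γ * q.1 + δ * q.2 + (γ * d₁.1 + δ * d₁.2)
        ring
    · rw [Finset.mem_image]
      refine ⟨_, h2, ?_⟩
      apply Prod.ext
      · show α * (q.1 + d₂.1) + β * (q.2 + d₂.2) = α * q.1 + β * q.2 + (α * d₂.1 + β * d₂.2)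
        ring
      · show γ * (q.1 + d₂.1) + δ * (q.2 + d₂.2) = γ * q.1 + δ * q.2 + (γ * d₂.1 + δ * d₂.2)
        ring
    · show D * (δ * m.1 - γ * m.2) * (α * d₁.1 + β * d₁.2) +
        D * (-β * m.1 + α * m.2) * (γ * d₁.1 + δ * d₁.2) = 1
      have : D * (δ * m.1 - γ * m.2) * (α * d₁.1 + β * d₁.2) +
        D * (-β * m.1 + α * m.2) * (γ * d₁.1 + δ * d₁.2) =
        D * (α * δ - β * γ) * (m.1 * d₁.1 + m.2 * d₁.2) := by ring
      rw [this, ← hDe, hDD, hm1, one_mul]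
    · show D * (δ * m.1 - γ * m.2) * (α * d₂.1 + β * d₂.2) +
        D * (-β * m.1 + α * m.2) * (γ * d₂.1 + δ * d₂.2) = 1
      have : D * (δ * m.1 - γ * m.2) * (α * d₂.1 + β * d₂.2) +
        D * (-β * m.1 + α * m.2) * (γ * d₂.1 + δ * d₂.2) =
        D * (α * δ - β * γ) * (m.1 * d₂.1 + m.2 * d₂.2) := by ring
      rw [this, ← hDe, hDD, hm2, one_mul]
    · intro t ht
      rw [Finset.mem_image] at ht
      obtain ⟨t0, ht0, rfl⟩ := ht
      obtain ⟨s, r, hs, hr, e1, e2⟩ := hcone t0 ht0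
      refine ⟨s, r, hs, hr, ?_, ?_⟩
      · simp only
        push_cast
        rw [e1, e2]
        ring
      · simp only
        push_cast
        rw [e1, e2]
        ring

theorem TyP.seg {T : Finset (ℤ × ℤ)} (hT : TyP T) {x y z : ℤ × ℤ} (hx : x ∈ T) (hy : y ∈ T)
    {j k : ℤ} (hj : 0 ≤ j) (hjk : j ≤ k) (hk : 0 < k)
    (h1 : k * z.1 = (k - j) * x.1 + j * y.1) (h2 : k * z.2 = (k - j) * x.2 + j * y.2) :
    z ∈ T := by
  apply hT.sat
  have hkR : (0 : ℝ) < k := by exact_mod_cast hk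
  have hjR : (0 : ℝ) ≤ j := by exact_mod_cast hj
  have hjkR : (j : ℝ) ≤ k := by exact_mod_cast hjk
  have h1R : (k : ℝ) * z.1 = (k - j) * x.1 + j * y.1 := by exact_mod_cast h1
  have h2R : (k : ℝ) * z.2 = (k - j) * x.2 + j * y.2 := by exact_mod_cast h2
  have h3 := (convex_convexHull ℝ (tR '' (T : Set (ℤ × ℤ)))) (mem_cv hx) (mem_cv hy)
    (a := ((k : ℝ) - j) / k) (b := (j : ℝ) / k) (div_nonneg (by linarith) hkR.le)
    (div_nonneg hjR hkR.le) (by field_simp; ring)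
  have h4 : (((k : ℝ) - j) / k) • tR x + ((j : ℝ) / k) • tR y = tR z := by
    apply Prod.ext
    · show ((k : ℝ) - j) / k * x.1 + (j : ℝ) / k * y.1 = z.1
      field_simp
      linarith
    · show ((k : ℝ) - j) / k * x.2 + (j : ℝ) / k * y.2 = z.2
      field_simp
      linarith
  rw [h4] at h3
  exact h3

/-- a lattice point of the triangle `x, y, w` -/
theorem TyP.tri {T : Finset (ℤ × ℤ)} (hT : TyP T) {x y w z : ℤ × ℤ} (hx : x ∈ T) (hy : y ∈ T)
    (hw : w ∈ T) {i j l k : ℤ} (hi : 0 ≤ i) (hj : 0 ≤ j) (hl : 0 ≤ l) (hk : 0 < k)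
    (hs : i + j + l = k)
    (h1 : k * z.1 = i * x.1 + j * y.1 + l * w.1) (h2 : k * z.2 = i * x.2 + j * y.2 + l * w.2) :
    z ∈ T := by
  apply hT.sat
  have hkR : (0 : ℝ) < k := by exact_mod_cast hk
  have hiR : (0 : ℝ) ≤ i := by exact_mod_cast hi
  have hjR : (0 : ℝ) ≤ j := by exact_mod_cast hj
  have hlR : (0 : ℝ) ≤ l := by exact_mod_cast hl
  have hsR : (i : ℝ) + j + l = k := by exact_mod_cast hs
  have h1R : (k : ℝ) * z.1 = i * x.1 + j * y.1 + l * w.1 := by exact_mod_cast h1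
  have h2R : (k : ℝ) * z.2 = i * x.2 + j * y.2 + l * w.2 := by exact_mod_cast h2
  have h3 := (convex_convexHull ℝ (tR '' (T : Set (ℤ × ℤ)))).sum_mem
    (t := (Finset.univ : Finset (Fin 3))) (w := ![(i : ℝ) / k, (j : ℝ) / k, (l : ℝ) / k])
    (z := ![tR x, tR y, tR w]) (by
      intro a _
      fin_cases a
      · exact div_nonneg hiR hkR.le
      · exact div_nonneg hjR hkR.le
      · exact div_nonneg hlR hkR.le) (by
      rw [Fin.sum_univ_three]
      show (i : ℝ) / k + (j : ℝ) / k + (l : ℝ) / k = 1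
      rw [← add_div, ← add_div, hsR, div_self hkR.ne']) (by
      intro a _
      fin_cases a
      · exact mem_cv hx
      · exact mem_cv hy
      · exact mem_cv hw)
  rw [Fin.sum_univ_three] at h3
  have h4 : (![(i : ℝ) / k, (j : ℝ) / k, (l : ℝ) / k] 0) • (![tR x, tR y, tR w] 0) +
      (![(i : ℝ) / k, (j : ℝ) / k, (l : ℝ) / k] 1) • (![tR x, tR y, tR w] 1) +
      (![(i : ℝ) / k, (j : ℝ) / k, (l : ℝ) / k] 2) • (![tR x, tR y, tR w] 2) = tR z := by
    apply Prod.ext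
    · show (i : ℝ) / k * x.1 + (j : ℝ) / k * y.1 + (l : ℝ) / k * w.1 = z.1
      field_simp
      linarith
    · show (i : ℝ) / k * x.2 + (j : ℝ) / k * y.2 + (l : ℝ) / k * w.2 = z.2
      field_simp
      linarith
  rw [h4] at h3
  exact h3

end Helper20.NU
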