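import Pool.Agent.Helper20.NU.RHull
import Pool.Agent.Helper20.NU.Edge

/-!
NU-9. The vertices of the slice `R = {x ∈ P | p x = 0}`.

PROOF. Take `v, a, b, g, fa, fb` from `exists_rmin`, `q = v + g`; `p q = 0`. For `x ∈ R`, by `expR`
applied to `x - q`: `x = q + s a + r b`, `s = fa x - fa v ≥ 0`, `r = fb x - fb v ≥ 0` (note
`fa q = fa v`, `fb q = fb v`). Apply `FV.edge`.
(i) `v + g + g ∈ P`. Take `d₁ = a`, `d₂ = b`, `m = fa + fb`. `q + (1/2) a` is the midpoint of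
`v + a` and `v + g + g`, so it is in `R`; `ray` (NU-1) with `K = R` (compact, convex, integral
extreme points by `slice_ext`), `d = a`, `h = toR fb`, `k = fa` gives `q + a ∈ P`; in the same way
`q + b ∈ P` (`d = b`, `h = toR fa`, `k = fb`).
(ii) `ga`, `gb` as in `FV.edge`, and by symmetry (`hF.swap`) `ga ≥ 1`. `v + a ∈ P` and
`v + a + (ga + 1) g = v + g + a + ga g ∈ P`, so by convexity `q + a = v + a + g ∈ P`. If `gb ≥ 0`
then in the same way `q + b ∈ P`, and `d₁ = a`, `d₂ = b`, `m = fa + fb` do it.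
(iii) `ga ≥ 1`, `gb = -1`: take `d₁ = a`, `d₂ = a + ga b`, `m = fa`. The last statement of
`FV.edge` on `R` reads `ga (fa x - fa v) ≥ fb x - fb v`, i.e. `ga s ≥ r`. So
`x = q + (s - r / ga) d₁ + (r / ga) d₂`. `q + t d₂ ∈ R` for `t = 1 / (1 + ga)`: it is
`t (q + a + ga g) + ga t (q + b - g)`, a convex combination. `ray` with `K = R`, `d = d₂`,
`h = ga fa - fb`, `k = fa` gives `q + d₂ ∈ P`.
-/

namespace Helper20.NU

open Matrix Set Helper31.Ewald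

variable {P : Set (Fin 3 → ℝ)} {p v a b g fa fb : Fin 3 → ℤ}

private theorem ty_pq (hF : FV P p v a b g fa fb) : p ⬝ᵥ (v + g) = 0 := by
  rw [dotProduct_add, hF.pv, hF.pg]
  norm_num

private theorem ty_exp (hF : FV P p v a b g fa fb) {x : Fin 3 → ℝ} (hx : toR p ⬝ᵥ x = 0) :
    x = toR (v + g) + (toR fa ⬝ᵥ x - ((fa ⬝ᵥ v : ℤ) : ℝ)) • toR a +
      (toR fb ⬝ᵥ x - ((fb ⬝ᵥ v : ℤ) : ℝ)) • toR b := by
  have h1 := hF.expR x
  have h2 := hF.expR (toR (v + g))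
  rw [hx, zero_smul, add_zero] at h1
  rw [toR_dot, toR_dot, toR_dot, ty_pq hF, dotProduct_add, dotProduct_add, hF.fag, hF.fbg,
    add_zero, add_zero, Int.cast_zero, zero_smul, add_zero] at h2
  funext i
  have e1 := congrFun h1 i
  have e2 := congrFun h2 i
  simp only [Pi.add_apply, Pi.smul_apply, smul_eq_mul] at e1 e2 ⊢
  linear_combination e1 - e2

/-- the slice -/
private def Sl (P : Set (Fin 3 → ℝ)) (p : Fin 3 → ℤ) : Set (Fin 3 → ℝ) :=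
  {x | x ∈ P ∧ toR p ⬝ᵥ x = 0}

private theorem sl_compact (hP : IsSmoothPolytope P) : IsCompact (Sl P p) := by
  have hcont : Continuous fun x : Fin 3 → ℝ => toR p ⬝ᵥ x := by
    unfold dotProduct
    fun_prop
  exact hP.isCompact.inter_right (isClosed_eq hcont continuous_const)

private theorem sl_convex (hP : IsSmoothPolytope P) : Convex ℝ (Sl P p) := by
  intro x hx y hy s t hs ht hst
  refine ⟨hP.convex hx.1 hy.1 hs ht hst, ?_⟩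
  rw [dotProduct_add, dotProduct_smul, dotProduct_smul, hx.2, hy.2]
  simp

private theorem sl_q (hF : FV P p v a b g fa fb) : toR (v + g) ∈ Sl P p :=
  ⟨hF.memg, by rw [toR_dot, ty_pq hF, Int.cast_zero]⟩

private theorem ty_faq (hF : FV P p v a b g fa fb) :
    toR fa ⬝ᵥ toR (v + g) = ((fa ⬝ᵥ v : ℤ) : ℝ) := by
  rw [toR_dot, dotProduct_add, hF.fag, add_zero]

private theorem ty_fbq (hF : FV P p v a b g fa fb) :
    toR fb ⬝ᵥ toR (v + g) = ((fb ⬝ᵥ v : ℤ) : ℝ) := by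
  rw [toR_dot, dotProduct_add, hF.fbg, add_zero]

/-- the edge of the slice in the direction `a` -/
private theorem ty_ray (hP : IsSmoothPolytope P) (h0 : (0 : Fin 3 → ℝ) ∈ interior P)
    (hp0 : p ≠ 0) (hp : ∀ x ∈ P, -1 ≤ toR p ⬝ᵥ x) (hF : FV P p v a b g fa fb)
    (hex : ∃ t : ℝ, 0 < t ∧ toR (v + g) + t • toR a ∈ P) : toR (v + g + a) ∈ P := by
  obtain ⟨T, _, _, h1, _⟩ := ray (K := Sl P p) (sl_compact hP) (sl_convex hP)
    (fun x hx => slice_ext hP h0 hp0 hp hx) (q := v + g) (d := a) (k := fa) (sl_q hF) (toR fb)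
    (fun x hx => by rw [ty_fbq hF]; exact hF.coneb x hx.1)
    (fun x hx hh => by
      refine ⟨toR fa ⬝ᵥ x - ((fa ⬝ᵥ v : ℤ) : ℝ), ?_⟩
      have h2 := ty_exp hF hx.2
      rw [hh, ty_fbq hF, sub_self, zero_smul, add_zero] at h2
      exact h2)
    (by rw [toR_dot, hF.fba, Int.cast_zero]) hF.faa (by
      obtain ⟨t, ht, h2⟩ := hex
      refine ⟨t, ht, h2, ?_⟩
      rw [dotProduct_add, dotProduct_smul, toR_dot, toR_dot, ty_pq hF, hF.pa]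
      simp)
  exact h1.1

private theorem ty_mid (hP : IsSmoothPolytope P) (hF : FV P p v a b g fa fb)
    (h : toR (v + g + g) ∈ P) : ∃ t : ℝ, 0 < t ∧ toR (v + g) + t • toR a ∈ P := by
  refine ⟨1 / 2, by norm_num, ?_⟩
  have h1 := hP.convex hF.mema h (a := 1 / 2) (b := 1 / 2) (by norm_num) (by norm_num)
    (by norm_num)
  have h2 : (1 / 2 : ℝ) • toR (v + a) + (1 / 2 : ℝ) • toR (v + g + g) =
      toR (v + g) + (1 / 2 : ℝ) • toR a := by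
    rw [toR_add, toR_add, toR_add]
    funext i
    simp only [Pi.add_apply, Pi.smul_apply, smul_eq_mul]
    ring
  rwa [h2] at h1

private theorem ty_up (hP : IsSmoothPolytope P) (hF : FV P p v a b g fa fb) {ga : ℤ}
    (hga : 0 ≤ ga) (h : toR (v + g + a + ga • g) ∈ P) : toR (v + g + a) ∈ P := by
  have hg : (0 : ℝ) ≤ ga := by exact_mod_cast hga
  have hg1 : (0 : ℝ) < ga + 1 := by linarith
  have h1 := hP.convex hF.mema h (a := ga / (ga + 1)) (b := 1 / (ga + 1))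
    (div_nonneg hg hg1.le) (div_nonneg zero_le_one hg1.le) (by field_simp)
  have h2 : ((ga : ℝ) / (ga + 1)) • toR (v + a) + ((1 : ℝ) / (ga + 1)) • toR (v + g + a + ga • g) =
      toR (v + g + a) := by
    rw [toR_add, toR_add (v + g + a), toR_add (v + g), toR_add, toR_smul]
    funext i
    simp only [Pi.add_apply, Pi.smul_apply, smul_eq_mul]
    field_simp
    ring
  rwa [h2] at h1

private theorem ty_two (hF : FV P p v a b g fa fb)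
    (ha : toR (v + g + a) ∈ P) (hb : toR (v + g + b) ∈ P) {c : Fin 3 → ℝ}
    (hm : ∀ x ∈ P, toR p ⬝ᵥ x = 0 → c ⬝ᵥ toR (v + g) ≤ c ⬝ᵥ x) :
    ∃ q d₁ d₂ m : Fin 3 → ℤ, toR q ∈ P ∧ p ⬝ᵥ q = 0 ∧ toR (q + d₁) ∈ P ∧ toR (q + d₂) ∈ P ∧
      p ⬝ᵥ d₁ = 0 ∧ p ⬝ᵥ d₂ = 0 ∧ m ⬝ᵥ d₁ = 1 ∧ m ⬝ᵥ d₂ = 1 ∧
      (∀ x ∈ P, toR p ⬝ᵥ x = 0 → c ⬝ᵥ toR q ≤ c ⬝ᵥ x) ∧
      ∀ x ∈ P, toR p ⬝ᵥ x = 0 →
        ∃ s r : ℝ, 0 ≤ s ∧ 0 ≤ r ∧ x = toR q + s • toR d₁ + r • toR d₂ := by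
  refine ⟨v + g, a, b, fa + fb, hF.memg, ty_pq hF, ha, hb, hF.pa, hF.pb, ?_, ?_, hm, ?_⟩
  · rw [add_dotProduct, hF.faa, hF.fba, add_zero]
  · rw [add_dotProduct, hF.fab, hF.fbb, zero_add]
  · intro x hx hpx
    exact ⟨_, _, sub_nonneg.2 (hF.conea x hx), sub_nonneg.2 (hF.coneb x hx), ty_exp hF hpx⟩

private theorem ty_core (hP : IsSmoothPolytope P) (h0 : (0 : Fin 3 → ℝ) ∈ interior P)
    (hp0 : p ≠ 0) (hp : ∀ x ∈ P, -1 ≤ toR p ⬝ᵥ x) (hF : FV P p v a b g fa fb) {c : Fin 3 → ℝ}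
    (hm : ∀ x ∈ P, toR p ⬝ᵥ x = 0 → c ⬝ᵥ toR (v + g) ≤ c ⬝ᵥ x) {ga gb : ℤ}
    (h1 : 1 ≤ ga) (h2 : -1 ≤ gb) (ha : toR (v + g + a + ga • g) ∈ P)
    (hb : toR (v + g + b + gb • g) ∈ P)
    (hin : ∀ x ∈ P, ((ga * (fa ⬝ᵥ v) + gb * (fb ⬝ᵥ v) : ℤ) : ℝ) ≤
        -(toR p ⬝ᵥ x) + ga * (toR fa ⬝ᵥ x) + gb * (toR fb ⬝ᵥ x)) :
    ∃ q d₁ d₂ m : Fin 3 → ℤ, toR q ∈ P ∧ p ⬝ᵥ q = 0 ∧ toR (q + d₁) ∈ P ∧ toR (q + d₂) ∈ P ∧
      p ⬝ᵥ d₁ = 0 ∧ p ⬝ᵥ d₂ = 0 ∧ m ⬝ᵥ d₁ = 1 ∧ m ⬝ᵥ d₂ = 1 ∧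
      (∀ x ∈ P, toR p ⬝ᵥ x = 0 → c ⬝ᵥ toR q ≤ c ⬝ᵥ x) ∧
      ∀ x ∈ P, toR p ⬝ᵥ x = 0 →
        ∃ s r : ℝ, 0 ≤ s ∧ 0 ≤ r ∧ x = toR q + s • toR d₁ + r • toR d₂ := by
  have hqa := ty_up hP hF (by omega) ha
  by_cases h3 : 0 ≤ gb
  · exact ty_two hF hqa (ty_up hP hF.swap h3 hb) hm
  obtain rfl : gb = -1 := by omega
  have hg : (1 : ℝ) ≤ ga := by exact_mod_cast h1
  have hg0 : (0 : ℝ) < ga := by linarith
  have hin' : ∀ x ∈ P, toR p ⬝ᵥ x = 0 →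
      toR fb ⬝ᵥ x - ((fb ⬝ᵥ v : ℤ) : ℝ) ≤ ga * (toR fa ⬝ᵥ x - ((fa ⬝ᵥ v : ℤ) : ℝ)) := by
    intro x hx hpx
    have := hin x hx
    rw [hpx] at this
    push_cast at this ⊢
    linarith
  have hd2 : toR (a + ga • b) = toR a + (ga : ℝ) • toR b := by rw [toR_add, toR_smul]
  have hpd : p ⬝ᵥ (a + ga • b) = 0 := by
    rw [dotProduct_add, dotProduct_smul, hF.pa, hF.pb, smul_zero, add_zero]
  have hfd : fa ⬝ᵥ (a + ga • b) = 1 := by
    rw [dotProduct_add, dotProduct_smul, hF.faa, hF.fab, smul_zero, add_zero]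
  have hfbd : fb ⬝ᵥ (a + ga • b) = ga := by
    rw [dotProduct_add, dotProduct_smul, hF.fba, hF.fbb, smul_eq_mul, mul_one, zero_add]
  have hqd : toR (v + g + (a + ga • b)) ∈ P := by
    obtain ⟨T, _, _, h4, _⟩ := ray (K := Sl P p) (sl_compact hP) (sl_convex hP)
      (fun x hx => slice_ext hP h0 hp0 hp hx) (q := v + g) (d := a + ga • b) (k := fa) (sl_q hF)
      ((ga : ℝ) • toR fa - toR fb)
      (fun x hx => by
        rw [sub_dotProduct, sub_dotProduct, smul_dotProduct, smul_dotProduct, ty_faq hF,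
          ty_fbq hF, smul_eq_mul, smul_eq_mul]
        have := hin' x hx.1 hx.2
        linarith)
      (fun x hx hh => by
        refine ⟨toR fa ⬝ᵥ x - ((fa ⬝ᵥ v : ℤ) : ℝ), ?_⟩
        rw [sub_dotProduct, sub_dotProduct, smul_dotProduct, smul_dotProduct, ty_faq hF,
          ty_fbq hF, smul_eq_mul, smul_eq_mul] at hh
        have h2 := ty_exp hF hx.2
        have h5 : toR fb ⬝ᵥ x - ((fb ⬝ᵥ v : ℤ) : ℝ) =
            ga * (toR fa ⬝ᵥ x - ((fa ⬝ᵥ v : ℤ) : ℝ)) := by linarith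
        rw [h5] at h2
        rw [hd2]
        funext i
        have e2 := congrFun h2 i
        simp only [Pi.add_apply, Pi.smul_apply, smul_eq_mul] at e2 ⊢
        linear_combination e2)
      (by
        rw [sub_dotProduct, smul_dotProduct, toR_dot, toR_dot, hfd, hfbd]
        simp)
      hfd (by
        refine ⟨1 / (1 + ga), by positivity, ?_, ?_⟩
        · have h4 := hP.convex ha hb (a := 1 / (1 + ga)) (b := ga / (1 + ga))
            (by positivity) (by positivity) (by field_simp)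
          have h5 : ((1 : ℝ) / (1 + ga)) • toR (v + g + a + ga • g) +
              ((ga : ℝ) / (1 + ga)) • toR (v + g + b + (-1 : ℤ) • g) =
              toR (v + g) + ((1 : ℝ) / (1 + ga)) • toR (a + ga • b) := by
            rw [hd2, toR_add, toR_add (v + g) a, toR_smul, toR_add (v + g + b),
              toR_add (v + g) b, toR_smul]
            have h6 : (1 + (ga : ℝ)) ≠ 0 := by positivity
            funext i
            simp only [Pi.add_apply, Pi.smul_apply, smul_eq_mul]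
            push_cast
            field_simp
            ring
          rwa [h5] at h4
        · rw [dotProduct_add, dotProduct_smul, toR_dot, toR_dot, ty_pq hF, hpd]
          simp)
    exact h4.1
  refine ⟨v + g, a, a + ga • b, fa, hF.memg, ty_pq hF, hqa, hqd, hF.pa, hpd, hF.faa, hfd, hm, ?_⟩
  intro x hx hpx
  refine ⟨(toR fa ⬝ᵥ x - ((fa ⬝ᵥ v : ℤ) : ℝ)) - (toR fb ⬝ᵥ x - ((fb ⬝ᵥ v : ℤ) : ℝ)) / ga,
    (toR fb ⬝ᵥ x - ((fb ⬝ᵥ v : ℤ) : ℝ)) / ga, ?_, ?_, ?_⟩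
  · rw [sub_nonneg, div_le_iff₀ hg0]
    have := hin' x hx hpx
    linarith
  · exact div_nonneg (sub_nonneg.2 (hF.coneb x hx)) hg0.le
  · have h2 := ty_exp hF hpx
    rw [hd2]
    funext i
    have e2 := congrFun h2 i
    simp only [Pi.add_apply, Pi.smul_apply, smul_eq_mul] at e2 ⊢
    rw [e2]
    field_simp
    ring

theorem ty3 {P : Set (Fin 3 → ℝ)} (hP : IsSmoothPolytope P)
    (h0 : (0 : Fin 3 → ℝ) ∈ interior P) {p : Fin 3 → ℤ} (hp0 : p ≠ 0)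
    (hp : ∀ x ∈ P, -1 ≤ toR p ⬝ᵥ x) (c : Fin 3 → ℝ) :
    ∃ q d₁ d₂ m : Fin 3 → ℤ, toR q ∈ P ∧ p ⬝ᵥ q = 0 ∧ toR (q + d₁) ∈ P ∧ toR (q + d₂) ∈ P ∧
      p ⬝ᵥ d₁ = 0 ∧ p ⬝ᵥ d₂ = 0 ∧ m ⬝ᵥ d₁ = 1 ∧ m ⬝ᵥ d₂ = 1 ∧
      (∀ x ∈ P, toR p ⬝ᵥ x = 0 → c ⬝ᵥ toR q ≤ c ⬝ᵥ x) ∧
      ∀ x ∈ P, toR p ⬝ᵥ x = 0 →
        ∃ s r : ℝ, 0 ≤ s ∧ 0 ≤ r ∧ x = toR q + s • toR d₁ + r • toR d₂ := by
  obtain ⟨v, a, b, g, fa, fb, hF, hm⟩ := exists_rmin hP h0 hp0 hp c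
  rcases hF.edge hP h0 hp with h | ⟨ga, gb, h1, h2, h3, ha, hb, hin⟩
  · exact ty_two hF (ty_ray hP h0 hp0 hp hF (ty_mid hP hF h))
      (ty_ray hP h0 hp0 hp hF.swap (ty_mid hP hF.swap h)) hm
  · rcases h3 with h3 | h3
    · exact ty_core hP h0 hp0 hp hF hm h3 h2 ha hb hin
    · refine ty_core hP h0 hp0 hp hF.swap hm h3 h1 hb ha fun x hx => ?_
      have := hin x hx
      push_cast at this ⊢
      linarith

end Helper20.NU
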