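import Pool.Agent.Helper20.NU.Edge

/-!
NU-4. The lattice points of level one, seen from a vertex `v` of the facet.

PROOF. Write `y_a (x) = fa x - fa v ≥ 0`, `y_b (x) = fb x - fb v ≥ 0` on `P`. Apply `FV.edge`.
(i) `q = v + g + g ∈ P`: `p q = 1`, `fa q = fa v`, `fb q = fb v`: first alternative.
(ii) otherwise let `ga`, `gb` be as in `FV.edge`.
 If `ga ≥ 1`: `v + a ∈ P` and `v + a + (ga + 1) g ∈ P` with `ga + 1 ≥ 2`, so by convexity
`za = v + a + g + g ∈ P`; `p za = 1`, `y_a (za) = 1`, `y_b (za) = 0`. In the same way, if `gb ≥ 1`,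
`zb = v + b + g + g ∈ P`, with `y_a = 0`, `y_b = 1`. For `z ∈ P` of level one the inequality of
`FV.edge` says `1 ≤ ga y_a (z) + gb y_b (z)`.
 - `ga ≥ 1`, `gb ≥ 1`: `y_a (z) = y_b (z) = 0` is impossible, so `y_a (z) + y_b (z) ≥ 1`: second
alternative.
 - `ga ≥ 1`, `gb ≤ 0`: `ga y_a (z) ≥ 1 - gb y_b (z) ≥ 1`, so `y_a (z) ≥ 1` for all `z`: first
alternative with `q = za`.
 - `gb ≥ 1`, `ga ≤ 0`: symmetric, `q = zb`.
-/

namespace Helper20.NU

open Matrix Set Helper31.Ewald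

/-- a point at distance two on a lattice segment -/
theorem two_mem {P : Set (Fin 3 → ℝ)} (hc : Convex ℝ P) {u g : Fin 3 → ℤ} {k : ℤ} (hk : 2 ≤ k)
    (h1 : toR u ∈ P) (h2 : toR (u + k • g) ∈ P) : toR (u + g + g) ∈ P := by
  have hk' : (2 : ℝ) ≤ (k : ℝ) := by exact_mod_cast hk
  have hk0 : (0 : ℝ) < k := by linarith
  have h3 := hc h1 h2 (a := 1 - 2 / (k : ℝ)) (b := 2 / (k : ℝ))
    (by rw [sub_nonneg, div_le_one hk0]; exact hk') (by positivity) (by ring)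
  have h4 : (1 - 2 / (k : ℝ)) • toR u + (2 / (k : ℝ)) • toR (u + k • g) = toR (u + g + g) := by
    funext i
    simp only [toR, Pi.add_apply, Pi.smul_apply, smul_eq_mul]
    push_cast
    field_simp
    ring
  rw [← h4]
  exact h3

theorem FV.types {P : Set (Fin 3 → ℝ)} (hP : IsSmoothPolytope P)
    (h0 : (0 : Fin 3 → ℝ) ∈ interior P) {p v a b g fa fb : Fin 3 → ℤ}
    (hp : ∀ x ∈ P, -1 ≤ toR p ⬝ᵥ x) (hF : FV P p v a b g fa fb) :
    (∃ q : Fin 3 → ℤ, toR q ∈ P ∧ p ⬝ᵥ q = 1 ∧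
      (∀ z : Fin 3 → ℤ, toR z ∈ P → p ⬝ᵥ z = 1 → fa ⬝ᵥ q ≤ fa ⬝ᵥ z ∧ fb ⬝ᵥ q ≤ fb ⬝ᵥ z) ∧
      fa ⬝ᵥ q + fb ⬝ᵥ q ≤ fa ⬝ᵥ v + fb ⬝ᵥ v + 1) ∨
    (toR (v + a + g + g) ∈ P ∧ toR (v + b + g + g) ∈ P ∧
      ∀ z : Fin 3 → ℤ, toR z ∈ P → p ⬝ᵥ z = 1 →
        fa ⬝ᵥ v + fb ⬝ᵥ v + 1 ≤ fa ⬝ᵥ z + fb ⬝ᵥ z) := by
  have hc := hP.convex
  have hya : ∀ z : Fin 3 → ℤ, toR z ∈ P → fa ⬝ᵥ v ≤ fa ⬝ᵥ z := by
    intro z hz
    have h := hF.conea _ hz
    rw [toR_dot] at h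
    exact_mod_cast h
  have hyb : ∀ z : Fin 3 → ℤ, toR z ∈ P → fb ⬝ᵥ v ≤ fb ⬝ᵥ z := by
    intro z hz
    have h := hF.coneb _ hz
    rw [toR_dot] at h
    exact_mod_cast h
  rcases hF.edge hP h0 hp with h | ⟨ga, gb, hga, hgb, hab, hma, hmb, hineq⟩
  · left
    refine ⟨v + g + g, h, ?_, ?_, ?_⟩
    · simp only [dotProduct_add, hF.pv, hF.pg]; norm_num
    · intro z hz _
      simp only [dotProduct_add, hF.fag, hF.fbg, add_zero]
      exact ⟨hya z hz, hyb z hz⟩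
    · simp only [dotProduct_add, hF.fag, hF.fbg, add_zero]
      omega
  · have hz1 : ∀ z : Fin 3 → ℤ, toR z ∈ P → p ⬝ᵥ z = 1 →
        1 ≤ ga * (fa ⬝ᵥ z - fa ⬝ᵥ v) + gb * (fb ⬝ᵥ z - fb ⬝ᵥ v) := by
      intro z hz hpz
      have h := hineq _ hz
      rw [toR_dot, toR_dot, toR_dot, hpz] at h
      have h2 : (ga * (fa ⬝ᵥ v) + gb * (fb ⬝ᵥ v) : ℤ) ≤ -1 + ga * (fa ⬝ᵥ z) + gb * (fb ⬝ᵥ z) := by
        exact_mod_cast h
      linarith [mul_sub ga (fa ⬝ᵥ z) (fa ⬝ᵥ v), mul_sub gb (fb ⬝ᵥ z) (fb ⬝ᵥ v)]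
    have hza : 1 ≤ ga → toR (v + a + g + g) ∈ P := by
      intro h1
      have h2 : v + g + a + ga • g = (v + a) + (ga + 1) • g := by
        rw [add_smul, one_smul]; abel
      rw [h2] at hma
      exact two_mem hc (by omega) hF.mema hma
    have hzb : 1 ≤ gb → toR (v + b + g + g) ∈ P := by
      intro h1
      have h2 : v + g + b + gb • g = (v + b) + (gb + 1) • g := by
        rw [add_smul, one_smul]; abel
      rw [h2] at hmb
      exact two_mem hc (by omega) hF.memb hmb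
    by_cases h1 : 1 ≤ ga
    · by_cases h2 : 1 ≤ gb
      · right
        refine ⟨hza h1, hzb h2, fun z hz hpz => ?_⟩
        have h3 := hz1 z hz hpz
        have h4 := hya z hz
        have h5 := hyb z hz
        by_contra hcon
        have h6 : fa ⬝ᵥ z = fa ⬝ᵥ v := by omega
        have h7 : fb ⬝ᵥ z = fb ⬝ᵥ v := by omega
        rw [h6, h7] at h3
        simp at h3
      · left
        refine ⟨v + a + g + g, hza h1, ?_, ?_, ?_⟩
        · simp only [dotProduct_add, hF.pv, hF.pg, hF.pa]; norm_num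
        · intro z hz hpz
          simp only [dotProduct_add, hF.fag, hF.fbg, hF.faa, hF.fba, add_zero]
          refine ⟨?_, hyb z hz⟩
          have h3 := hz1 z hz hpz
          have h4 := hya z hz
          have h5 := hyb z hz
          by_contra hcon
          have h6 : fa ⬝ᵥ z = fa ⬝ᵥ v := by omega
          rw [h6] at h3
          nlinarith
        · simp only [dotProduct_add, hF.fag, hF.fbg, hF.faa, hF.fba, add_zero]
          omega
    · have h2 : 1 ≤ gb := by omega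
      left
      refine ⟨v + b + g + g, hzb h2, ?_, ?_, ?_⟩
      · simp only [dotProduct_add, hF.pv, hF.pg, hF.pb]; norm_num
      · intro z hz hpz
        simp only [dotProduct_add, hF.fag, hF.fbg, hF.fab, hF.fbb, add_zero]
        refine ⟨hya z hz, ?_⟩
        have h3 := hz1 z hz hpz
        have h4 := hya z hz
        have h5 := hyb z hz
        by_contra hcon
        have h6 : fb ⬝ᵥ z = fb ⬝ᵥ v := by omega
        rw [h6] at h3
        nlinarith
      · simp only [dotProduct_add, hF.fag, hF.fbg, hF.fab, hF.fbb, add_zero]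
        omega

end Helper20.NU
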