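import Pool.Agent.Helper20.NU.Ray

/-!
NU-2. Local data at the vertices of a smooth lattice polytope.

PROOF of `exists_vt`. `hP.smooth` gives the basis `e` at `v`, `Helper31.Ewald.exists_dual` the dual
basis `f` (`fe`, `expR`, `expZ`). `cone`: `x = v + ∑ c_l e_l` with `c_l ≥ 0`, so
`f_l x = f_l v + c_l`. `edge`, `two`: apply `ray` (NU-1) with `K = P`, `q = v`, `d = e_j`,
`k = f_j`, `h = ∑_{l ≠ j} toR (f_l)`: `hmin` and `hline` from `cone` (a sum of terms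
`f_l x - f_l v ≥ 0` which vanishes, so each of them vanishes, and `x = v + s e_j` by `expR` applied
to `x - v`), `hlat` is `IsSmoothPolytope.exists_toR`. If `T = 1` then `v + e_j` is an extreme
point, if `T ≥ 2` then `v + e_j + e_j ∈ P`.

PROOF of `exists_fv`. Let `Vt P v e f`. For all `l`: `p e_l ≥ 0` (as `v + e_l ∈ P`,
`p (v + e_l) ≥ -1 = p v`) and `f_l v ≤ -1` (as `f_l ≠ 0` takes a negative value on `P` by
`exists_neg` and its minimum over `P` is `f_l v`, an integer). By `expZ`, `-1 = p v = ∑ (p e_l)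
(f_l v) ≤ - ∑ p e_l`, and `p ≠ 0` is `∑ (p e_l) f_l`: so exactly one `p e_j` is `1`, the others are
`0`, and `p = f_j`. Put `g = e_j` and `a`, `b` the two other `e_l` (three cases `j = 0, 1, 2`).
-/

namespace Helper20.NU

open Matrix Set Helper31.Ewald

theorem exists_vt {n : ℕ} {P : Set (Fin n → ℝ)} (hP : IsSmoothPolytope P) {v : Fin n → ℤ}
    (hv : toR v ∈ P.extremePoints ℝ) : ∃ e f : Fin n → Fin n → ℤ, Vt P v e f := by
  classical
  obtain ⟨e, hdet, hpos, hcone⟩ := hP.smooth _ hv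
  obtain ⟨f, fe, expR, expZ⟩ := exists_dual e hdet
  have hcone' : ∀ l, ∀ x ∈ P, ((f l ⬝ᵥ v : ℤ) : ℝ) ≤ toR (f l) ⬝ᵥ x := by
    intro l x hx
    obtain ⟨c, hc, rfl⟩ := hcone x hx
    have h1 : toR (f l) ⬝ᵥ ∑ j, c j • toR (e j) = c l := by
      rw [dotProduct_sum]
      simp only [dotProduct_smul, toR_dot, fe, smul_eq_mul]
      rw [Finset.sum_eq_single l]
      · simp
      · intro b _ hb
        simp [Ne.symm hb]
      · intro h
        exact absurd (Finset.mem_univ l) h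
    rw [dotProduct_add, toR_dot, h1]
    linarith [hc l]
  have key : ∀ j, ∃ T : ℤ, 1 ≤ T ∧ toR (v + T • e j) ∈ P.extremePoints ℝ ∧
      toR (v + e j) ∈ P ∧ (2 ≤ T → toR (v + e j + e j) ∈ P) := by
    intro j
    have hsum : ∀ x : Fin n → ℝ, (∑ l ∈ Finset.univ.erase j, toR (f l)) ⬝ᵥ x =
        ∑ l ∈ Finset.univ.erase j, toR (f l) ⬝ᵥ x := fun x => sum_dotProduct _ _ _
    refine ray (k := f j) hP.isCompact hP.convex
      (fun x hx => (hP.exists_toR hx)) hv.1 (∑ l ∈ Finset.univ.erase j, toR (f l))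
      ?_ ?_ ?_ ?_ (hpos j)
    · intro x hx
      rw [hsum, hsum]
      refine Finset.sum_le_sum fun l _ => ?_
      rw [toR_dot]
      exact hcone' l x hx
    · intro x hx hxe
      rw [hsum, hsum] at hxe
      have h1 : ∀ l ∈ Finset.univ.erase j, toR (f l) ⬝ᵥ toR v ≤ toR (f l) ⬝ᵥ x := by
        intro l _
        rw [toR_dot]
        exact hcone' l x hx
      have h2 := (Finset.sum_eq_sum_iff_of_le h1).1 hxe.symm
      refine ⟨toR (f j) ⬝ᵥ (x - toR v), ?_⟩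
      have h3 := expR (x - toR v)
      rw [Finset.sum_eq_single j] at h3
      · rw [← h3]
        abel
      · intro l _ hl
        have h4 := h2 l (Finset.mem_erase.2 ⟨hl, Finset.mem_univ _⟩)
        rw [dotProduct_sub, ← h4, sub_self, zero_smul]
      · intro h
        exact absurd (Finset.mem_univ j) h
    · rw [hsum]
      refine Finset.sum_eq_zero fun l hl => ?_
      rw [toR_dot, fe, if_neg (Finset.mem_erase.1 hl).1, Int.cast_zero]
    · rw [fe, if_pos rfl]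
  refine ⟨e, f, ⟨fe, expR, expZ, hv, fun j => ?_, fun j => ?_, hcone'⟩⟩
  · obtain ⟨T, _, _, h3, _⟩ := key j
    exact h3
  · obtain ⟨T, h1, h2, _, h4⟩ := key j
    rcases h1.lt_or_eq with h | h
    · exact Or.inl (h4 (by omega))
    · subst h
      rw [one_smul] at h2
      exact Or.inr h2

theorem univ3 : ∀ i j k : Fin 3, i ≠ j → i ≠ k → j ≠ k →
    (Finset.univ : Finset (Fin 3)) = {i, j, k} := by decide

theorem sum3 {M : Type} [AddCommMonoid M] (F : Fin 3 → M) {i j k : Fin 3} (hij : i ≠ j)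
    (hik : i ≠ k) (hjk : j ≠ k) : ∑ l, F l = F i + F j + F k := by
  rw [univ3 i j k hij hik hjk, Finset.sum_insert (by simp [hij, hik]),
    Finset.sum_insert (by simp [hjk]), Finset.sum_singleton, add_assoc]

theorem Vt.fv {P : Set (Fin 3 → ℝ)} {p v : Fin 3 → ℤ} {e f : Fin 3 → Fin 3 → ℤ}
    (V : Vt P v e f) {i j k : Fin 3} (hij : i ≠ j) (hik : i ≠ k) (hjk : j ≠ k)
    (hp : p = f k) (hpv : p ⬝ᵥ v = -1) (hneg : ∀ l, f l ⬝ᵥ v ≤ -1) :
    FV P p v (e i) (e j) (e k) (f i) (f j) := by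
  have hR : ∀ x : Fin 3 → ℝ, x = (toR (f i) ⬝ᵥ x) • toR (e i) + (toR (f j) ⬝ᵥ x) • toR (e j) +
      (toR p ⬝ᵥ x) • toR (e k) := by
    intro x
    have h := V.expR x
    rw [sum3 _ hij hik hjk] at h
    rw [hp]
    exact h
  refine ⟨hpv, ?_, ?_, ?_, ?_, ?_, ?_, ?_, ?_, ?_, hR, ?_, V.ext, V.edge i, V.edge j, V.edge k,
    V.two k, V.cone i, V.cone j, hneg i, hneg j⟩
  · rw [hp, V.fe, if_neg (Ne.symm hik)]
  · rw [hp, V.fe, if_neg (Ne.symm hjk)]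
  · rw [hp, V.fe, if_pos rfl]
  · rw [V.fe, if_pos rfl]
  · rw [V.fe, if_neg hij]
  · rw [V.fe, if_neg hik]
  · rw [V.fe, if_neg (Ne.symm hij)]
  · rw [V.fe, if_pos rfl]
  · rw [V.fe, if_neg hjk]
  · intro x
    apply toR_injective
    rw [toR_add, toR_add, toR_smul, toR_smul, toR_smul, ← toR_dot, ← toR_dot, ← toR_dot]
    exact hR (toR x)

theorem exists_fv {P : Set (Fin 3 → ℝ)} (hP : IsSmoothPolytope P)
    (h0 : (0 : Fin 3 → ℝ) ∈ interior P) {p v : Fin 3 → ℤ} (hp0 : p ≠ 0)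
    (hp : ∀ x ∈ P, -1 ≤ toR p ⬝ᵥ x) (hv : toR v ∈ P.extremePoints ℝ) (hpv : p ⬝ᵥ v = -1) :
    ∃ a b g fa fb, FV P p v a b g fa fb := by
  obtain ⟨e, f, V⟩ := exists_vt hP hv
  have h1 : ∀ l, 0 ≤ p ⬝ᵥ e l := by
    intro l
    have h := hp _ (V.edge l)
    rw [toR_dot, dotProduct_add, hpv] at h
    have h' : (-1 : ℤ) ≤ -1 + p ⬝ᵥ e l := by exact_mod_cast h
    linarith
  have h2 : ∀ l, f l ⬝ᵥ v ≤ -1 := by
    intro l
    have hfl : f l ≠ 0 := by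
      intro h
      have h' := V.fe l l
      rw [h, zero_dotProduct, if_pos rfl] at h'
      exact absurd h' (by norm_num)
    obtain ⟨x, hx, hx'⟩ := exists_neg h0 hfl
    have h := (V.cone l x hx).trans_lt hx'
    have h' : f l ⬝ᵥ v < 0 := by exact_mod_cast h
    omega
  have hpe := V.expZ p
  have hsum : p ⬝ᵥ v = (p ⬝ᵥ e 0) * (f 0 ⬝ᵥ v) + (p ⬝ᵥ e 1) * (f 1 ⬝ᵥ v) +
      (p ⬝ᵥ e 2) * (f 2 ⬝ᵥ v) := by
    conv_lhs => rw [hpe]
    rw [Fin.sum_univ_three, add_dotProduct, add_dotProduct, smul_dotProduct, smul_dotProduct,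
      smul_dotProduct, smul_eq_mul, smul_eq_mul, smul_eq_mul]
  rw [hpv] at hsum
  rw [Fin.sum_univ_three] at hpe
  have a0 := h1 0
  have a1 := h1 1
  have a2 := h1 2
  have b0 := h2 0
  have b1 := h2 1
  have b2 := h2 2
  have hle : p ⬝ᵥ e 0 + p ⬝ᵥ e 1 + p ⬝ᵥ e 2 ≤ 1 := by nlinarith
  have hne : ¬ (p ⬝ᵥ e 0 = 0 ∧ p ⬝ᵥ e 1 = 0 ∧ p ⬝ᵥ e 2 = 0) := by
    rintro ⟨c0, c1, c2⟩
    rw [c0, c1, c2] at hsum
    norm_num at hsum
  have hcases : (p ⬝ᵥ e 0 = 1 ∧ p ⬝ᵥ e 1 = 0 ∧ p ⬝ᵥ e 2 = 0) ∨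
      (p ⬝ᵥ e 0 = 0 ∧ p ⬝ᵥ e 1 = 1 ∧ p ⬝ᵥ e 2 = 0) ∨
      (p ⬝ᵥ e 0 = 0 ∧ p ⬝ᵥ e 1 = 0 ∧ p ⬝ᵥ e 2 = 1) := by omega
  rcases hcases with ⟨c0, c1, c2⟩ | ⟨c0, c1, c2⟩ | ⟨c0, c1, c2⟩
  · rw [c0, c1, c2, one_smul, zero_smul, zero_smul, add_zero, add_zero] at hpe
    exact ⟨e 1, e 2, e 0, f 1, f 2,
      V.fv (i := 1) (j := 2) (k := 0) (by decide) (by decide) (by decide) hpe hpv h2⟩
  · rw [c0, c1, c2, one_smul, zero_smul, zero_smul, zero_add, add_zero] at hpe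
    exact ⟨e 0, e 2, e 1, f 0, f 2,
      V.fv (i := 0) (j := 2) (k := 1) (by decide) (by decide) (by decide) hpe hpv h2⟩
  · rw [c0, c1, c2, one_smul, zero_smul, zero_smul, zero_add, zero_add] at hpe
    exact ⟨e 0, e 1, e 2, f 0, f 1,
      V.fv (i := 0) (j := 1) (k := 2) (by decide) (by decide) (by decide) hpe hpv h2⟩

end Helper20.NU
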